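import Mathlib

/-!
# Delaunay triangulations in three dimensions: definitions
-/

namespace Pool.Agent.Helper486.Del

open scoped RealInnerProductSpace

/-- Euclidean three-space. -/
abbrev E3 := EuclideanSpace ℝ (Fin 3)

/-- `T` is not contained in a plane `{x | ⟪v, x⟫ = c}`, `v ≠ 0`. -/
def NotInPlane (T : Finset E3) : Prop :=
  ¬ ∃ v : E3, v ≠ 0 ∧ ∃ c : ℝ, ∀ p ∈ T, ⟪v, p⟫ = c

/-- No five points of `T` lie on a common sphere. -/
def NoFiveCospherical (T : Finset E3) : Prop :=
  ∀ S ⊆ T, S.card = 5 → ¬ ∃ (c : E3) (r : ℝ), ∀ p ∈ S, dist p c = r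

/-- No four points of `T` lie in a common plane. -/
def NoFourCoplanar (T : Finset E3) : Prop :=
  ∀ S ⊆ T, S.card = 4 → NotInPlane S

/-- The extremal points of `T`: the vertices of its convex hull. -/
def extremal (T : Finset E3) : Set E3 := (convexHull ℝ (T : Set E3)).extremePoints ℝ

/-- The Delaunay triangulation: the non-degenerate tetrahedra with vertices in `T` (given by
their vertex sets) whose circumscribed sphere has no point of `T` in its open interior. -/
def DT (T : Finset E3) : Set (Finset E3) :=
  {S | S ⊆ T ∧ S.card = 4 ∧ NotInPlane S ∧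
    ∃ (c : E3) (r : ℝ), (∀ p ∈ S, dist p c = r) ∧ ∀ p ∈ T, ¬ dist p c < r}

/-- The sizes `|DT(T)|` for the sets `T` of `n` points with exactly `n'` extremal points that
satisfy the convention: `T` is not contained in a plane, no five points are cospherical. -/
def sizes (n n' : ℕ) : Set ℕ :=
  {k | ∃ T : Finset E3, T.card = n ∧ NotInPlane T ∧ NoFiveCospherical T ∧
    (extremal T).ncard = n' ∧ (DT T).ncard = k}

/-- The sizes `|DT(T)|` for the sets `T` as above which are in general position: in addition no
four points are coplanar. -/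
def sizesGeneral (n n' : ℕ) : Set ℕ :=
  {k | ∃ T : Finset E3, T.card = n ∧ NotInPlane T ∧ NoFiveCospherical T ∧ NoFourCoplanar T ∧
    (extremal T).ncard = n' ∧ (DT T).ncard = k}

end Pool.Agent.Helper486.Del
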