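import Pool.Agent.Helper486.Del.UB
import Pool.Agent.Helper486.Del.Defs

namespace Pool.Agent.Helper486.Del

open Finset Filter Topology
open scoped RealInnerProductSpace

/-- homogeneous coordinates -/
abbrev V4 := E3 × ℝ

instance : Fact (Module.finrank ℝ V4 = 4) :=
  ⟨by rw [Module.finrank_prod, finrank_euclideanSpace_fin, Module.finrank_self]⟩

/-- homogeneous vector of a point -/
def ve (x : E3) : V4 := (x, 1)

/-- the height functional -/
def hh : V4 →ₗ[ℝ] ℝ := LinearMap.snd ℝ E3 ℝ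

lemma hh_ve (x : E3) : hh (ve x) = 1 := rfl

/-- squared norm -/
noncomputable def nsq (x : E3) : ℝ := ⟪x, x⟫

variable {T τ : Finset E3} {f : E3 → ℝ}

lemma coef_sum_fst (hB : IsB ve τ) (x : V4) : ∑ a ∈ τ, coef ve τ a x • a = x.1 := by
  have h := congrArg Prod.fst (coef_sum hB x)
  rw [Prod.fst_sum] at h
  exact h

lemma coef_sum_snd (hB : IsB ve τ) (x : V4) : ∑ a ∈ τ, coef ve τ a x = x.2 := by
  have h := congrArg Prod.snd (coef_sum hB x)
  rw [Prod.snd_sum] at h
  simpa [ve] using h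

lemma nsq_sub (a p : E3) : nsq (a - p) = nsq a - 2 * ⟪a, p⟫ + nsq p := by
  unfold nsq
  rw [inner_sub_left, inner_sub_right, inner_sub_right, real_inner_comm p a]
  ring

lemma nsq_nonneg (a : E3) : 0 ≤ nsq a := real_inner_self_nonneg

lemma nsq_eq_zero {a : E3} : nsq a = 0 ↔ a = 0 := inner_self_eq_zero

/-- Af at a point of the affine hull -/
lemma Af_nsq (hB : IsB ve τ) (p : E3) :
    Af ve nsq τ (ve p) - nsq p = ∑ a ∈ τ, coef ve τ a (ve p) * nsq (a - p) := by
  have e1 : ∑ a ∈ τ, coef ve τ a (ve p) • a = p := coef_sum_fst hB (ve p)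
  have e2 : ∑ a ∈ τ, coef ve τ a (ve p) = 1 := coef_sum_snd hB (ve p)
  have e3 : ∑ a ∈ τ, coef ve τ a (ve p) * ⟪a, p⟫ = nsq p := by
    have := congrArg (fun x => ⟪x, p⟫) e1
    simp only [sum_inner, inner_smul_left] at this
    simpa [nsq] using this
  calc Af ve nsq τ (ve p) - nsq p
      = ∑ a ∈ τ, coef ve τ a (ve p) * nsq a - 2 * (∑ a ∈ τ, coef ve τ a (ve p) * ⟪a, p⟫) +
          (∑ a ∈ τ, coef ve τ a (ve p)) * nsq p := by
        rw [e3, e2, Af_apply]
        simp only [mul_comm (nsq _)]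
        ring
    _ = ∑ a ∈ τ, coef ve τ a (ve p) * nsq (a - p) := by
        rw [Finset.mul_sum, Finset.sum_mul, ← Finset.sum_sub_distrib, ← Finset.sum_add_distrib]
        refine Finset.sum_congr rfl fun a _ => ?_
        rw [nsq_sub]; ring

/-- every point of `T` inside a cell is a vertex of the cell -/
lemma vp_near (T : Finset E3) : VP ve nsq T := by
  intro p hp τ hτ hpos
  have h1 := Af_nsq hτ.isB p
  have h2 := hτ.le hp
  have h3 : ∑ a ∈ τ, coef ve τ a (ve p) * nsq (a - p) = 0 := by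
    apply le_antisymm
    · rw [← h1]; linarith
    · exact Finset.sum_nonneg fun a ha => mul_nonneg (hpos a ha) (nsq_nonneg _)
  have h4 := (Finset.sum_eq_zero_iff_of_nonneg
    (fun a ha => mul_nonneg (hpos a ha) (nsq_nonneg _))).1 h3
  by_contra hpτ
  have h5 : ∑ a ∈ τ, coef ve τ a (ve p) = 0 := by
    apply Finset.sum_eq_zero
    intro a ha
    rcases mul_eq_zero.1 (h4 a ha) with h6 | h6
    · exact h6
    · rw [nsq_eq_zero, sub_eq_zero] at h6
      exact absurd (h6 ▸ ha) hpτ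
  rw [coef_sum_snd hτ.isB] at h5
  exact one_ne_zero h5

end Pool.Agent.Helper486.Del
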