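import Pool.Agent.Helper486.Del.LBT

namespace Pool.Agent.Helper486.Del

open Finset Filter Topology
open scoped RealInnerProductSpace

variable {T τ S : Finset E3} {f : E3 → ℝ}

/-- the functional with given coefficients -/
noncomputable def mkA (v : E3) (c : ℝ) : V4 →ₗ[ℝ] ℝ :=
  (innerₛₗ ℝ v).comp (LinearMap.fst ℝ E3 ℝ) + c • LinearMap.snd ℝ E3 ℝ

lemma mkA_apply (v : E3) (c : ℝ) (x : V4) : mkA v c x = ⟪v, x.1⟫ + c * x.2 := rfl

lemma mkA_ve (v : E3) (c : ℝ) (x : E3) : mkA v c (ve x) = ⟪v, x⟫ + c := by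
  rw [mkA_apply]; simp [ve]

lemma exists_mkA (A : V4 →ₗ[ℝ] ℝ) : ∃ v c, A = mkA v c := by
  refine ⟨(InnerProductSpace.toDual ℝ E3).symm
    (LinearMap.toContinuousLinearMap (A.comp (LinearMap.inl ℝ E3 ℝ))), A (0, 1), ?_⟩
  apply LinearMap.ext
  rintro ⟨x, s⟩
  rw [mkA_apply, InnerProductSpace.toDual_symm_apply]
  have h1 : ((x, s) : V4) = (x, 0) + s • (0, 1) := by simp
  rw [h1, map_add, map_smul, smul_eq_mul]
  simp [mul_comm]

lemma span_of_notInPlane (h : NotInPlane T) (A : V4 →ₗ[ℝ] ℝ) (hA : ∀ q ∈ T, A (ve q) = 0) :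
    A = 0 := by
  obtain ⟨v, c, rfl⟩ := exists_mkA A
  simp only [mkA_ve] at hA
  have hv : v = 0 := by
    by_contra hv
    exact h ⟨v, hv, -c, fun p hp => by linarith [hA p hp]⟩
  have hT : T.Nonempty := by
    rw [Finset.nonempty_iff_ne_empty]
    rintro rfl
    refine h ⟨WithLp.toLp 2 ![1, 0, 0], ?_, 0, by simp⟩
    intro h0
    have := congrFun (congrArg WithLp.ofLp h0) 0
    simp at this
  obtain ⟨p, hp⟩ := hT
  have hc := hA p hp
  rw [hv, inner_zero_left, zero_add] at hc
  rw [hv, hc]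
  apply LinearMap.ext
  intro x
  rw [mkA_apply]; simp

lemma notInPlane_of_span (h : ∀ A : V4 →ₗ[ℝ] ℝ, (∀ q ∈ T, A (ve q) = 0) → A = 0) :
    NotInPlane T := by
  rintro ⟨v, hv, c, hc⟩
  have h1 := h (mkA v (-c)) (fun q hq => by rw [mkA_ve, hc q hq]; ring)
  apply hv
  have h2 : ∀ x : E3, ⟪v, x⟫ = 0 := fun x => by
    have := LinearMap.congr_fun h1 (x, 0)
    rw [mkA_apply] at this
    simpa using this
  exact inner_self_eq_zero.1 (h2 v)

lemma isB_of_notInPlane (hc : S.card = 4) (h : NotInPlane S) : IsB ve S := by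
  refine ⟨hc, ?_⟩
  have hspan : ⊤ ≤ Submodule.span ℝ (Set.range (fun q : S => ve q)) := by
    by_contra hcon
    have hlt : Submodule.span ℝ (Set.range (fun q : S => ve q)) < ⊤ :=
      lt_top_iff_ne_top.2 fun h' => hcon h'.ge
    obtain ⟨g, hg0, hg⟩ := Submodule.exists_le_ker_of_lt_top _ hlt
    exact hg0 (span_of_notInPlane h g fun q hq =>
      LinearMap.mem_ker.1 (hg (Submodule.subset_span ⟨⟨q, hq⟩, rfl⟩)))
  have hli := linearIndependent_of_top_le_span_of_card_eq_finrank hspan (by
    rw [Fintype.card_coe, hc, (inferInstance : Fact (Module.finrank ℝ V4 = 4)).out])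
  intro w hw q hq
  exact Fintype.linearIndependent_iff.1 hli (fun q => w q) (by
    rw [Finset.sum_coe_sort S (fun q => w q • ve q)]; exact hw) ⟨q, hq⟩

lemma notInPlane_of_isB (h : IsB ve S) : NotInPlane S :=
  notInPlane_of_span fun A hA => ext_on h fun a ha => by rw [hA a ha, LinearMap.zero_apply]

lemma dist_sq (p c : E3) : dist p c ^ 2 = nsq p - 2 * ⟪c, p⟫ + nsq c := by
  rw [dist_eq_norm, ← real_inner_self_eq_norm_sq]
  have := nsq_sub p c
  unfold nsq at this ⊢
  rw [this, real_inner_comm c p]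

lemma dist_eq_of_sq {p c : E3} {r : ℝ} (hr : 0 ≤ r) (h : dist p c ^ 2 = r ^ 2) : dist p c = r :=
  (sq_eq_sq₀ dist_nonneg hr).1 h

/-- a sphere through the points where an affine function equals the squared norm -/
lemma sphere_of (A : V4 →ₗ[ℝ] ℝ) (hS : S.Nonempty) (h1 : ∀ p ∈ S, A (ve p) = nsq p) :
    ∃ (c : E3) (r : ℝ), 0 ≤ r ∧ (∀ p, dist p c ^ 2 = nsq p - A (ve p) + r ^ 2) ∧
      ∀ p ∈ S, dist p c = r := by
  obtain ⟨v, k, rfl⟩ := exists_mkA A
  obtain ⟨p0, hp0⟩ := hS
  have key : ∀ p, dist p ((1 / 2 : ℝ) • v) ^ 2 =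
      nsq p - mkA v k (ve p) + (k + nsq ((1 / 2 : ℝ) • v)) := by
    intro p
    rw [dist_sq, mkA_ve, inner_smul_left]
    simp only [conj_trivial]
    ring
  have h3 := key p0
  rw [h1 p0 hp0, sub_self, zero_add] at h3
  refine ⟨(1 / 2 : ℝ) • v, dist p0 ((1 / 2 : ℝ) • v), dist_nonneg, fun p => ?_, fun p hp => ?_⟩
  · rw [key p, h3]
  · apply dist_eq_of_sq dist_nonneg
    rw [key p, h1 p hp, h3, sub_self, zero_add]

/-- the affine function of a sphere -/
lemma sphere_fun (c : E3) (r : ℝ) :
    ∃ A : V4 →ₗ[ℝ] ℝ, ∀ p, A (ve p) = nsq p - dist p c ^ 2 + r ^ 2 := by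
  refine ⟨mkA ((2 : ℝ) • c) (r ^ 2 - nsq c), fun p => ?_⟩
  rw [mkA_ve, dist_sq, inner_smul_left]
  simp only [conj_trivial]
  ring

lemma gen_of_noFive (h : NoFiveCospherical T) : Gen ve nsq T := by
  intro A S hST hS
  by_contra hcon
  push Not at hcon
  obtain ⟨S', hS'S, hS'c⟩ := Finset.exists_subset_card_eq (show 5 ≤ S.card by omega)
  obtain ⟨c, r, _, _, hr⟩ := sphere_of (S := S') A (by rw [← Finset.card_pos, hS'c]; norm_num)
    (fun p hp => hS p (hS'S hp))
  exact h S' (hS'S.trans hST) hS'c ⟨c, r, hr⟩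

lemma gen_neg {f : E3 → ℝ} (h : Gen ve f T) : Gen ve (fun q => -f q) T := by
  intro A S hST hS
  refine h (-A) S hST fun q hq => ?_
  rw [LinearMap.neg_apply, hS q hq, neg_neg]

lemma conf_near (h1 : NotInPlane T) (h2 : NoFiveCospherical T) : Conf ve nsq hh T where
  gen := gen_of_noFive h2
  span := span_of_notInPlane h1
  pos q _ := by rw [hh_ve]; norm_num

lemma conf_far (h1 : NotInPlane T) (h2 : NoFiveCospherical T) :
    Conf ve (fun q => -nsq q) hh T where
  gen := gen_neg (gen_of_noFive h2)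
  span := span_of_notInPlane h1
  pos q _ := by rw [hh_ve]; norm_num

/-- Delaunay tetrahedra are the cells -/
lemma mem_DT (h2 : NoFiveCospherical T) : S ∈ DT T ↔ Cell ve nsq T S := by
  constructor
  · rintro ⟨hST, hc, hnp, c, r, h3, h4⟩
    have hB := isB_of_notInPlane hc hnp
    obtain ⟨A, hA⟩ := sphere_fun c r
    have hS : S.Nonempty := by rw [← Finset.card_pos, hc]; norm_num
    obtain ⟨p0, hp0⟩ := hS
    have hr : 0 ≤ r := by rw [← h3 p0 hp0]; exact dist_nonneg
    refine cell_of_gen (gen_of_noFive h2) hST hB A (fun a ha => ?_) (fun q hq => ?_)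
    · rw [hA, h3 a ha]; ring
    · rw [hA]
      have h5 := h4 q hq
      have : r ^ 2 ≤ dist q c ^ 2 := pow_le_pow_left₀ hr (not_lt.1 h5) 2
      linarith
  · intro h
    have hS : S.Nonempty := by rw [← Finset.card_pos, h.isB.1]; norm_num
    obtain ⟨c, r, hr, h3, h4⟩ := sphere_of (Af ve nsq S) hS (fun p hp => Af_vec h.isB nsq hp)
    refine ⟨h.sub, h.isB.1, notInPlane_of_isB h.isB, c, r, h4, fun p hp => ?_⟩
    rw [not_lt]
    apply le_of_sq_le_sq _ dist_nonneg
    rw [h3]
    have := h.le hp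
    linarith

lemma DT_eq (h2 : NoFiveCospherical T) : DT T = ↑(cells ve nsq T) := by
  ext S
  rw [mem_DT h2, Finset.mem_coe, mem_cells]

lemma ncard_DT (h2 : NoFiveCospherical T) : (DT T).ncard = (cells ve nsq T).card := by
  rw [DT_eq h2, Set.ncard_coe_finset]

/-- cone membership and convex hull -/
lemma inCone_iff {p : E3} : InCone ve T (ve p) ↔ p ∈ convexHull ℝ (T : Set E3) := by
  rw [Finset.mem_convexHull']
  constructor
  · rintro ⟨w, hw, hsum⟩
    have h1 := congrArg Prod.fst hsum
    have h2 := congrArg Prod.snd hsum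
    rw [Prod.fst_sum] at h1
    rw [Prod.snd_sum] at h2
    exact ⟨w, hw, by simpa [ve] using h2, h1⟩
  · rintro ⟨w, hw, h1, h2⟩
    refine ⟨w, hw, ?_⟩
    apply Prod.ext
    · rw [Prod.fst_sum]; exact h2
    · rw [Prod.snd_sum]
      simpa [ve] using h1

lemma mem_extremal {p : E3} : p ∈ extremal T ↔ p ∈ T ∧ ¬ InCone ve (T.erase p) (ve p) := by
  unfold extremal
  rw [inCone_iff, Finset.coe_erase]
  constructor
  · intro h
    refine ⟨by exact_mod_cast extremePoints_convexHull_subset h, fun hcon => ?_⟩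
    rw [(convex_convexHull ℝ (T : Set E3)).mem_extremePoints_iff_mem_sdiff_convexHull_sdiff] at h
    apply h.2
    exact convexHull_mono (Set.sdiff_subset_sdiff_left (subset_convexHull ℝ _)) hcon
  · rintro ⟨hpT, hp⟩
    refine ⟨subset_convexHull ℝ _ hpT, fun y hy z hz hyz => ?_⟩
    obtain ⟨a, b, ha, hb, hab, hpe⟩ := hyz
    rw [Finset.mem_convexHull'] at hy hz
    obtain ⟨w, hw, hw1, hwy⟩ := hy
    obtain ⟨u, hu, hu1, huz⟩ := hz
    have hle : ∀ (w : E3 → ℝ), (∀ y ∈ T, 0 ≤ w y) → ∑ y ∈ T, w y = 1 → w p ≤ 1 := by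
      intro w hw hw1
      rw [← hw1]
      exact Finset.single_le_sum hw hpT
    have hwp := hle w hw hw1
    have hup := hle u hu hu1
    have huniq : ∀ (w : E3 → ℝ), (∀ y ∈ T, 0 ≤ w y) → ∑ y ∈ T, w y = 1 → w p = 1 →
        ∑ y ∈ T, w y • y = p := by
      intro w hw hw1 hwp
      have h0 : ∀ y ∈ T.erase p, w y = 0 := by
        have h1 : ∑ y ∈ T.erase p, w y = 0 := by
          have := Finset.add_sum_erase T w hpT
          linarith
        exact (Finset.sum_eq_zero_iff_of_nonneg (fun y hy => hw y (Finset.mem_of_mem_erase hy))).1 h1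
      rw [← Finset.add_sum_erase _ _ hpT, hwp, one_smul, Finset.sum_eq_zero, add_zero]
      intro y hy
      rw [h0 y hy, zero_smul]
    by_cases hlt : a * w p + b * u p < 1
    · exfalso
      apply hp
      have hcoe : ((T : Set E3) \ {p}) = ((T.erase p : Finset E3) : Set E3) := by
        rw [Finset.coe_erase]
      rw [hcoe, Finset.mem_convexHull']
      set l := a * w p + b * u p with hl
      refine ⟨fun q => (a * w q + b * u q) / (1 - l), fun q hq => ?_, ?_, ?_⟩
      · have hq' := Finset.mem_of_mem_erase hq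
        exact div_nonneg (add_nonneg (mul_nonneg ha.le (hw q hq')) (mul_nonneg hb.le (hu q hq')))
          (by linarith)
      · rw [← Finset.sum_div, Finset.sum_add_distrib, ← Finset.mul_sum, ← Finset.mul_sum]
        have h1 := Finset.add_sum_erase T w hpT
        have h2 := Finset.add_sum_erase T u hpT
        rw [div_eq_one_iff_eq (by linarith)]
        rw [hw1] at h1
        rw [hu1] at h2
        have h3 : ∑ y ∈ T.erase p, w y = 1 - w p := by linarith
        have h4 : ∑ y ∈ T.erase p, u y = 1 - u p := by linarith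
        rw [h3, h4, hl]
        linear_combination hab
      · have h1 : ∑ q ∈ T.erase p, (a * w q + b * u q) • q = (1 - l) • p := by
          have h2 := Finset.add_sum_erase T (fun q => (a * w q + b * u q) • q) hpT
          have h3 : ∑ q ∈ T, (a * w q + b * u q) • q = p := by
            simp only [add_smul, mul_smul, Finset.sum_add_distrib]
            rw [← Finset.smul_sum, ← Finset.smul_sum, hwy, huz, hpe]
          rw [h3] at h2
          rw [sub_smul, one_smul, hl]
          exact eq_sub_of_add_eq' h2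
        have h2 : ∀ q ∈ T.erase p, ((a * w q + b * u q) / (1 - l)) • q =
            (1 - l)⁻¹ • ((a * w q + b * u q) • q) := fun q _ => by
          rw [smul_smul, div_eq_inv_mul]
        rw [Finset.sum_congr rfl h2, ← Finset.smul_sum, h1, smul_smul,
          inv_mul_cancel₀ (by linarith), one_smul]
    · push Not at hlt
      have h1 : w p = 1 := by
        by_contra hne
        have : w p < 1 := lt_of_le_of_ne hwp hne
        nlinarith
      rw [← hwy]
      exact huniq w hw hw1 h1

/-- four points in general position span -/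
lemma IsB_of_gp (hgp : NoFourCoplanar T) (hS : S ⊆ T) (hc : S.card = 4) : IsB ve S :=
  isB_of_notInPlane hc (hgp S hS hc)

/-- in general position, a point which is not extremal is inner -/
lemma inner_of_inCone (hgp : NoFourCoplanar T) (h1 : NotInPlane T) (h2 : NoFiveCospherical T)
    {p : E3} (hp : p ∈ T) (hcone : InCone ve (T.erase p) (ve p)) : Inner ve T p := by
  by_cases hc : T.card ≤ 4
  · -- then `T` is a basis or smaller
    exfalso
    have hge : 4 ≤ T.card := by
      obtain ⟨τ, hτ⟩ := exists_cell (conf_near h1 h2)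
      rw [← hτ.isB.1]
      exact Finset.card_le_card hτ.sub
    have hT4 : T.card = 4 := le_antisymm hc hge
    have hB := IsB_of_gp hgp (Finset.Subset.refl T) hT4
    have h3 := hcone.nonneg (A := -coef ve T p) (fun q hq => by
      rw [Finset.mem_erase] at hq
      rw [LinearMap.neg_apply, coef_ne hB hp hq.2 (Ne.symm hq.1), neg_zero])
    rw [LinearMap.neg_apply, coef_self hB hp] at h3
    linarith
  · push Not at hc
    have hcard : 4 ≤ (T.erase p).card := by rw [Finset.card_erase_of_mem hp]; omega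
    obtain ⟨S0, hS0, hS0c⟩ := Finset.exists_subset_card_eq hcard
    have hnp : NotInPlane (T.erase p) := by
      rintro ⟨v, hv, c, hvc⟩
      exact hgp S0 (hS0.trans (Finset.erase_subset _ _)) hS0c ⟨v, hv, c, fun q hq => hvc q (hS0 hq)⟩
    have hnf : NoFiveCospherical (T.erase p) := fun S hS hSc =>
      h2 S (hS.trans (Finset.erase_subset _ _)) hSc
    obtain ⟨τ, hτ, hpos⟩ := cover (conf_near hnp hnf) hcone
    have hpτ : p ∉ τ := fun h => (Finset.mem_erase.1 (hτ.sub h)).1 rfl
    have hstrict : ∀ q ∈ τ, 0 < coef ve τ q (ve p) := by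
      intro q hq
      refine lt_of_le_of_ne (hpos q hq) fun h0 => ?_
      have hsub : insert p (τ.erase q) ⊆ T := by
        apply Finset.insert_subset hp
        exact (Finset.erase_subset _ _).trans (hτ.sub.trans (Finset.erase_subset _ _))
      have hcd : (insert p (τ.erase q)).card = 4 := by
        rw [Finset.card_insert_of_notMem (fun h => hpτ (Finset.mem_of_mem_erase h)),
          Finset.card_erase_of_mem hq, hτ.isB.1]
      have h3 := span_of_notInPlane (hgp _ hsub hcd) (coef ve τ q) (fun a ha => by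
        rcases Finset.mem_insert.1 ha with rfl | ha
        · exact h0.symm
        · rw [Finset.mem_erase] at ha
          exact coef_ne hτ.isB hq ha.2 (Ne.symm ha.1))
      exact coef_ne_zero hτ.isB hq h3
    intro y
    have hev : ∀ᶠ ε : ℝ in 𝓝[>] 0, ∀ q ∈ τ, 0 ≤ coef ve τ q (ve p + ε • y) := by
      rw [Filter.eventually_all_finset]
      intro q hq
      have hlim : Tendsto (fun ε : ℝ => coef ve τ q (ve p) + ε * coef ve τ q y) (𝓝[>] 0)
          (𝓝 (coef ve τ q (ve p) + 0 * coef ve τ q y)) := by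
        apply Tendsto.mono_left _ nhdsWithin_le_nhds
        exact (continuous_const.add (continuous_id.mul continuous_const)).tendsto 0
      rw [zero_mul, add_zero] at hlim
      filter_upwards [hlim.eventually_const_lt (hstrict q hq)] with ε hε
      rw [map_add, map_smul, smul_eq_mul]
      exact hε.le
    filter_upwards [hev] with ε hε
    exact (inCone_of_coef hτ.isB hε).mono (hτ.sub.trans (Finset.erase_subset _ _))

open Classical in
/-- the extremal points as a finite set -/
noncomputable def exF (T : Finset E3) : Finset E3 := T.filter (fun p => p ∈ extremal T)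

lemma mem_exF {p : E3} : p ∈ exF T ↔ p ∈ T ∧ p ∈ extremal T := by
  simp only [exF, Finset.mem_filter]

lemma coe_exF : (exF T : Set E3) = extremal T := by
  ext p
  rw [Finset.mem_coe, mem_exF]
  exact ⟨fun h => h.2, fun h => ⟨(mem_extremal.1 h).1, h⟩⟩

lemma ncard_extremal : (extremal T).ncard = (exF T).card := by
  rw [← coe_exF, Set.ncard_coe_finset]

lemma exF_sub : exF T ⊆ T := fun _ hp => (mem_exF.1 hp).1

/-- the literal lower bound -/
theorem min_bound (h1 : NotInPlane T) (h2 : NoFiveCospherical T) : T.card ≤ (DT T).ncard + 3 := by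
  rw [ncard_DT h2]
  exact low_bound (conf_near h1 h2) (Finset.Subset.refl T) (vp_near T)

/-- the lower bound in general position -/
theorem min_bound_gp (h1 : NotInPlane T) (h2 : NoFiveCospherical T) (hgp : NoFourCoplanar T) :
    3 * T.card ≤ (DT T).ncard + 2 * (extremal T).ncard + 3 := by
  classical
  rw [ncard_DT h2, ncard_extremal]
  have h3 := lower_bound_theorem (conf_near h1 h2) (I := T \ exF T) Finset.sdiff_subset
    (fun p hp => by
      rw [Finset.mem_sdiff, mem_exF, not_and] at hp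
      apply inner_of_inCone hgp h1 h2 hp.1
      by_contra hcon
      exact hp.2 hp.1 (mem_extremal.2 ⟨hp.1, hcon⟩))
    (fun p hp hpI => by
      have h4 : p ∈ exF T := by
        by_contra hcon
        exact hpI (Finset.mem_sdiff.2 ⟨hp, hcon⟩)
      exact (mem_extremal.1 (mem_exF.1 h4).2).2)
  rw [Finset.card_sdiff_of_subset exF_sub] at h3
  have h5 := Finset.card_le_card (exF_sub (T := T))
  omega

/-- number of far cells -/
theorem far_bound (h1 : NotInPlane T) (h2 : NoFiveCospherical T) :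
    (extremal T).ncard ≤ (cells ve (fun q => -nsq q) T).card + 3 := by
  rw [ncard_extremal]
  refine low_bound (conf_far h1 h2) exF_sub fun p hp τ hτ hpos => ?_
  by_contra hpτ
  have h3 := (mem_extremal.1 (mem_exF.1 hp).2).2
  apply h3
  refine (inCone_of_coef hτ.isB hpos).mono fun q hq => ?_
  exact Finset.mem_erase.2 ⟨fun h => hpτ (h ▸ hq), hτ.sub hq⟩

/-- the upper bound for near and far cells together -/
theorem near_far_E3 (hT : 5 ≤ T.card) :
    2 * ((cells ve nsq T).card + (cells ve (fun q => -nsq q) T).card) ≤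
      T.card * (T.card - 3) := by
  classical
  apply near_far hT
  intro v hv
  -- inverted points
  set inv : E3 → E3 := fun q => (nsq (q - v))⁻¹ • (q - v) with hinv
  have hnz : ∀ q, q ≠ v → nsq (q - v) ≠ 0 := fun q hq h => hq (sub_eq_zero.1 (nsq_eq_zero.1 h))
  have hninv : ∀ q, q ≠ v → nsq (inv q) = (nsq (q - v))⁻¹ := by
    intro q hq
    have := hnz q hq
    have h1 : nsq (inv q) = (nsq (q - v))⁻¹ * ((nsq (q - v))⁻¹ * nsq (q - v)) := by
      simp only [hinv, nsq, inner_smul_left, inner_smul_right, conj_trivial]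
    rw [h1, inv_mul_cancel₀ this, mul_one]
  have hinj : ∀ q q', q ≠ v → q' ≠ v → inv q = inv q' → q = q' := by
    intro q q' hq hq' he
    have h1 : nsq (q - v) = nsq (q' - v) := by
      have := hninv q hq
      rw [he, hninv q' hq'] at this
      exact (inv_injective this).symm
    simp only [hinv] at he
    rw [h1] at he
    have h2 := smul_right_injective E3 (inv_ne_zero (hnz q' hq')) he
    exact sub_left_injective h2
  obtain ⟨ξ, _, hξ⟩ := gen_perturb (V := E3)
    ((fun x : E3 × E3 => innerₛₗ ℝ (inv x.1 - inv x.2)) ''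
      (((T ×ˢ T).filter (fun x => x.1 ≠ v ∧ x.2 ≠ v ∧ x.1 ≠ x.2) : Finset (E3 × E3)) :
        Set (E3 × E3))) ∅
    ((Finset.finite_toSet _).image _) Set.finite_empty
    (by
      rintro _ ⟨⟨q, q'⟩, hx, rfl⟩ h0
      simp only [Finset.coe_filter, Finset.mem_product, Set.mem_ofPred_eq] at hx
      have h3 := LinearMap.congr_fun h0 (inv q - inv q')
      rw [innerₛₗ_apply_apply, LinearMap.zero_apply] at h3
      exact hx.2.2.2 (hinj q q' hx.2.1 hx.2.2.1 (sub_eq_zero.1 (inner_self_eq_zero.1 h3))))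
    (x := 0) (fun ψ hψ => absurd hψ (Set.notMem_empty ψ))
  refine ⟨(mkA ξ (-⟪ξ, v⟫)).comp (LinearMap.fst ℝ V4 ℝ),
    (mkA (-(2 : ℝ) • v) (nsq v)).comp (LinearMap.fst ℝ V4 ℝ) + LinearMap.snd ℝ V4 ℝ,
    ?_, ?_, ?_, ?_⟩
  · show mkA ξ (-⟪ξ, v⟫) (ve v) = 0
    rw [mkA_ve]; ring
  · show mkA (-(2 : ℝ) • v) (nsq v) (ve v) + nsq v = 0
    rw [mkA_ve, inner_smul_left]
    simp only [conj_trivial, nsq]
    ring
  · intro q hq hqv
    show 0 < mkA (-(2 : ℝ) • v) (nsq v) (ve q) + nsq q
    have h3 : mkA (-(2 : ℝ) • v) (nsq v) (ve q) + nsq q = nsq (q - v) := by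
      rw [mkA_ve, inner_smul_left, nsq_sub, real_inner_comm q v]
      simp only [conj_trivial]
      ring
    rw [h3]
    exact lt_of_le_of_ne (nsq_nonneg _) (Ne.symm (hnz q hqv))
  · intro q hq q' hq' hqv hqv' he
    by_contra hne
    have e1 : ∀ x, mkA ξ (-⟪ξ, v⟫) (ve x) = ⟪ξ, x - v⟫ := fun x => by
      rw [mkA_ve, inner_sub_right]; ring
    have e2 : ∀ x, mkA (-(2 : ℝ) • v) (nsq v) (ve x) + nsq x = nsq (x - v) := fun x => by
      rw [mkA_ve, inner_smul_left, nsq_sub, real_inner_comm x v]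
      simp only [conj_trivial]
      ring
    have he' : mkA ξ (-⟪ξ, v⟫) (ve q) / (mkA (-(2 : ℝ) • v) (nsq v) (ve q) + nsq q) =
        mkA ξ (-⟪ξ, v⟫) (ve q') / (mkA (-(2 : ℝ) • v) (nsq v) (ve q') + nsq q') := he
    rw [e1, e1, e2, e2] at he'
    apply hξ (innerₛₗ ℝ (inv q - inv q')) ⟨(q, q'), by
      simp only [Finset.coe_filter, Finset.mem_product, Set.mem_ofPred_eq]
      exact ⟨⟨hq, hq'⟩, hqv, hqv', hne⟩, rfl⟩
    rw [innerₛₗ_apply_apply, real_inner_comm, inner_sub_right]
    simp only [hinv, inner_smul_right]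
    rw [div_eq_inv_mul, div_eq_inv_mul] at he'
    rw [he', sub_self]

/-- the upper bound -/
theorem max_bound (h1 : NotInPlane T) (h2 : NoFiveCospherical T) :
    (DT T).ncard + (extremal T).ncard ≤ T.card * (T.card - 3) / 2 + 3 := by
  have hge : 4 ≤ T.card := by
    obtain ⟨τ, hτ⟩ := exists_cell (conf_near h1 h2)
    rw [← hτ.isB.1]
    exact Finset.card_le_card hτ.sub
  rcases Nat.lt_or_ge 4 T.card with h5 | h5
  · have h3 := near_far_E3 (T := T) h5
    have h4 := far_bound h1 h2
    rw [ncard_DT h2]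
    omega
  · have hT4 : T.card = 4 := le_antisymm h5 hge
    have h3 : (cells ve nsq T).card ≤ 1 := by
      rw [Finset.card_le_one]
      intro a ha b hb
      have ha' := mem_cells.1 ha
      have hb' := mem_cells.1 hb
      have e1 : a = T := Finset.eq_of_subset_of_card_le ha'.sub (by rw [hT4, ha'.isB.1])
      have e2 : b = T := Finset.eq_of_subset_of_card_le hb'.sub (by rw [hT4, hb'.isB.1])
      rw [e1, e2]
    have h4 : (exF T).card ≤ T.card := Finset.card_le_card exF_sub
    rw [ncard_DT h2, ncard_extremal, hT4] at *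
    omega

end Pool.Agent.Helper486.Del
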