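import Mathlib

namespace Pool.Agent.Helper486.Del

open Finset Filter Topology

set_option linter.unusedSectionVars false

variable {P V : Type} [DecidableEq P] [AddCommGroup V] [Module ℝ V]

/-- linear independence of the vectors of a finite set of points -/
def LI (vec : P → V) (S : Finset P) : Prop :=
  ∀ w : P → ℝ, ∑ q ∈ S, w q • vec q = 0 → ∀ q ∈ S, w q = 0

/-- `τ` gives a basis of `V` -/
def IsB (vec : P → V) (τ : Finset P) : Prop := τ.card = 4 ∧ LI vec τ

lemma LI.linearIndependent {vec : P → V} {τ : Finset P} (h : LI vec τ) :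
    LinearIndependent ℝ (fun q : τ => vec q) := by
  rw [Fintype.linearIndependent_iff]
  intro g hg i
  have h1 := h (fun q => if hq : q ∈ τ then g ⟨q, hq⟩ else 0) (by
    rw [← Finset.sum_coe_sort]
    rw [← hg]
    refine Finset.sum_congr rfl fun i _ => ?_
    simp only [i.2, dif_pos, Subtype.coe_eta]) i.1 i.2
  simpa only [i.2, dif_pos] using h1

lemma LI.mono {vec : P → V} {S S' : Finset P} (h : LI vec S) (hS : S' ⊆ S) : LI vec S' := by
  intro w hw q hq
  have h1 := h (fun q => if q ∈ S' then w q else 0) (by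
    simp only [ite_smul, zero_smul]
    rw [Finset.sum_ite_mem, Finset.inter_eq_right.2 hS]
    exact hw) q (hS hq)
  simpa only [hq, if_true] using h1

lemma LI.insert {vec : P → V} {S : Finset P} (h : LI vec S) {p : P} {g : V →ₗ[ℝ] ℝ}
    (hg : ∀ q ∈ S, g (vec q) = 0) (hp : g (vec p) ≠ 0) : LI vec (insert p S) := by
  have hpS : p ∉ S := fun h' => hp (hg p h')
  intro w hw
  rw [Finset.sum_insert hpS] at hw
  have h1 := congrArg g hw
  rw [map_add, map_smul, map_sum, map_zero, Finset.sum_eq_zero (fun q hq => by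
    rw [map_smul, hg q hq, smul_zero]), add_zero, smul_eq_mul] at h1
  have h2 : w p = 0 := (mul_eq_zero.1 h1).resolve_right hp
  rw [h2, zero_smul, zero_add] at hw
  intro q hq
  rcases Finset.mem_insert.1 hq with rfl | hq
  · exact h2
  · exact h w hw q hq

lemma exists_coef (hV : Module.finrank ℝ V = 4) {vec : P → V} {τ : Finset P} (h : IsB vec τ) :
    ∃ β : P → (V →ₗ[ℝ] ℝ), (∀ a ∈ τ, ∀ b ∈ τ, β a (vec b) = if a = b then 1 else 0) ∧
      ∀ x, ∑ a ∈ τ, β a x • vec a = x := by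
  have hne : Nonempty τ := by
    obtain ⟨q, hq⟩ : τ.Nonempty := by rw [← Finset.card_pos, h.1]; norm_num
    exact ⟨⟨q, hq⟩⟩
  let b := basisOfLinearIndependentOfCardEqFinrank h.2.linearIndependent
    (by rw [Fintype.card_coe, h.1, hV])
  have hb : ∀ c (hc : c ∈ τ), b ⟨c, hc⟩ = vec c := fun c hc => by simp [b]
  refine ⟨fun a => if ha : a ∈ τ then b.coord ⟨a, ha⟩ else 0, ?_, ?_⟩
  · intro a ha c hc
    simp only [dif_pos ha]
    rw [← hb c hc, Module.Basis.coord_apply, Module.Basis.repr_self, Finsupp.single_apply]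
    simp only [Subtype.mk.injEq, eq_comm]
  · intro x
    conv_rhs => rw [← b.sum_repr x]
    rw [← Finset.sum_coe_sort τ]
    refine Finset.sum_congr rfl fun i _ => ?_
    simp only [i.2, dif_pos, Subtype.coe_eta]
    rw [Module.Basis.coord_apply, ← hb i.1 i.2]

open Classical in
/-- coordinates with respect to the vectors of `τ` -/
noncomputable def coef (vec : P → V) (τ : Finset P) : P → (V →ₗ[ℝ] ℝ) :=
  if h : ∃ β : P → (V →ₗ[ℝ] ℝ), (∀ a ∈ τ, ∀ b ∈ τ, β a (vec b) = if a = b then 1 else 0) ∧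
      ∀ x, ∑ a ∈ τ, β a x • vec a = x then h.choose else 0

section

variable [hV : Fact (Module.finrank ℝ V = 4)] {vec : P → V} {τ : Finset P}

lemma coef_spec (h : IsB vec τ) :
    (∀ a ∈ τ, ∀ b ∈ τ, coef vec τ a (vec b) = if a = b then 1 else 0) ∧
      ∀ x, ∑ a ∈ τ, coef vec τ a x • vec a = x := by
  have h1 := exists_coef hV.out h
  unfold coef
  rw [dif_pos h1]
  exact h1.choose_spec

lemma coef_self (h : IsB vec τ) {a : P} (ha : a ∈ τ) : coef vec τ a (vec a) = 1 := by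
  rw [(coef_spec h).1 a ha a ha, if_pos rfl]

lemma coef_ne (h : IsB vec τ) {a b : P} (ha : a ∈ τ) (hb : b ∈ τ) (hab : a ≠ b) :
    coef vec τ a (vec b) = 0 := by
  rw [(coef_spec h).1 a ha b hb, if_neg hab]

lemma coef_sum (h : IsB vec τ) (x : V) : ∑ a ∈ τ, coef vec τ a x • vec a = x := (coef_spec h).2 x

lemma apply_eq (h : IsB vec τ) (A : V →ₗ[ℝ] ℝ) (x : V) :
    A x = ∑ a ∈ τ, coef vec τ a x * A (vec a) := by
  conv_lhs => rw [← coef_sum h x, map_sum]
  exact Finset.sum_congr rfl fun a _ => by rw [map_smul, smul_eq_mul]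

lemma ext_on (h : IsB vec τ) {A B : V →ₗ[ℝ] ℝ} (hAB : ∀ a ∈ τ, A (vec a) = B (vec a)) : A = B := by
  ext x
  rw [apply_eq h A x, apply_eq h B x]
  exact Finset.sum_congr rfl fun a ha => by rw [hAB a ha]

lemma coef_unique (h : IsB vec τ) {x : V} {w : P → ℝ} (hw : ∑ a ∈ τ, w a • vec a = x) :
    ∀ a ∈ τ, coef vec τ a x = w a := by
  intro a ha
  rw [← hw, map_sum, Finset.sum_eq_single a]
  · rw [map_smul, coef_self h ha, smul_eq_mul, mul_one]
  · intro b hb hba
    rw [map_smul, coef_ne h ha hb (Ne.symm hba), smul_zero]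
  · exact fun h' => absurd ha h'

/-- interpolating functional -/
noncomputable def Af (vec : P → V) (f : P → ℝ) (τ : Finset P) : V →ₗ[ℝ] ℝ :=
  ∑ a ∈ τ, f a • coef vec τ a

lemma Af_apply (f : P → ℝ) (x : V) : Af vec f τ x = ∑ a ∈ τ, f a * coef vec τ a x := by
  simp [Af]

lemma Af_vec (h : IsB vec τ) (f : P → ℝ) {a : P} (ha : a ∈ τ) : Af vec f τ (vec a) = f a := by
  rw [Af_apply, Finset.sum_eq_single a]
  · rw [coef_self h ha, mul_one]
  · intro b hb hba
    rw [coef_ne h hb ha hba, mul_zero]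
  · exact fun h' => absurd ha h'

lemma Af_eq (h : IsB vec τ) {f : P → ℝ} {A : V →ₗ[ℝ] ℝ} (hA : ∀ a ∈ τ, A (vec a) = f a) :
    A = Af vec f τ := ext_on h fun a ha => by rw [hA a ha, Af_vec h f ha]

/-- cells -/
def Cell (vec : P → V) (f : P → ℝ) (T τ : Finset P) : Prop :=
  τ ⊆ T ∧ IsB vec τ ∧ ∀ q ∈ T, q ∉ τ → Af vec f τ (vec q) < f q

variable {f : P → ℝ} {T : Finset P}

lemma Cell.sub (h : Cell vec f T τ) : τ ⊆ T := h.1
lemma Cell.isB (h : Cell vec f T τ) : IsB vec τ := h.2.1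
lemma Cell.lt (h : Cell vec f T τ) {q : P} (hq : q ∈ T) (hq' : q ∉ τ) :
    Af vec f τ (vec q) < f q := h.2.2 q hq hq'

lemma Cell.le (h : Cell vec f T τ) {q : P} (hq : q ∈ T) : Af vec f τ (vec q) ≤ f q := by
  by_cases hq' : q ∈ τ
  · exact (Af_vec h.isB f hq').le
  · exact (h.lt hq hq').le

lemma Cell.mem_of_eq (h : Cell vec f T τ) {q : P} (hq : q ∈ T) (he : Af vec f τ (vec q) = f q) :
    q ∈ τ := by
  by_contra hq'
  exact absurd he (ne_of_lt (h.lt hq hq'))

lemma cell_of_functional (hτ : τ ⊆ T) (h : IsB vec τ) (A : V →ₗ[ℝ] ℝ)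
    (h1 : ∀ a ∈ τ, A (vec a) = f a) (h2 : ∀ q ∈ T, q ∉ τ → A (vec q) < f q) :
    Cell vec f T τ := by
  refine ⟨hτ, h, fun q hq hq' => ?_⟩
  rw [← Af_eq h h1]
  exact h2 q hq hq'

/-- two cells whose cones share an interior point coincide -/
lemma cell_unique {τ' : Finset P} (hτ : Cell vec f T τ) (hτ' : Cell vec f T τ') {x : V}
    (h1 : ∀ q ∈ τ, 0 < coef vec τ q x) (h2 : ∀ q ∈ τ', 0 ≤ coef vec τ' q x) : τ = τ' := by
  have e1 : Af vec f τ x ≤ Af vec f τ' x := by
    rw [apply_eq hτ'.isB (Af vec f τ) x, Af_apply]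
    refine Finset.sum_le_sum fun a ha => ?_
    rw [mul_comm (f a)]
    exact mul_le_mul_of_nonneg_left (hτ.le (hτ'.sub ha)) (h2 a ha)
  have e2 : ∀ a ∈ τ, Af vec f τ' (vec a) = f a := by
    by_contra hcon
    push Not at hcon
    obtain ⟨a0, ha0, hne⟩ := hcon
    have : Af vec f τ' x < Af vec f τ x := by
      rw [apply_eq hτ.isB (Af vec f τ') x, Af_apply]
      refine Finset.sum_lt_sum (fun a ha => ?_) ⟨a0, ha0, ?_⟩
      · rw [mul_comm (f a)]
        exact mul_le_mul_of_nonneg_left (hτ'.le (hτ.sub ha)) (h1 a ha).le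
      · rw [mul_comm (f a0)]
        exact mul_lt_mul_of_pos_left (lt_of_le_of_ne (hτ'.le (hτ.sub ha0)) hne) (h1 a0 ha0)
    exact absurd e1 (not_le.2 this)
  refine Finset.eq_of_subset_of_card_le (fun a ha => hτ'.mem_of_eq (hτ.sub ha) (e2 a ha)) ?_
  rw [hτ.isB.1, hτ'.isB.1]

/-- no five points are tight for a common functional -/
def Gen (vec : P → V) (f : P → ℝ) (T : Finset P) : Prop :=
  ∀ (A : V →ₗ[ℝ] ℝ) (S : Finset P), S ⊆ T → (∀ q ∈ S, A (vec q) = f q) → S.card ≤ 4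

lemma cell_of_gen (hG : Gen vec f T) (hτ : τ ⊆ T) (h : IsB vec τ) (A : V →ₗ[ℝ] ℝ)
    (h1 : ∀ a ∈ τ, A (vec a) = f a) (h2 : ∀ q ∈ T, A (vec q) ≤ f q) : Cell vec f T τ := by
  refine cell_of_functional hτ h A h1 fun q hq hq' => lt_of_le_of_ne (h2 q hq) fun he => ?_
  have := hG A (insert q τ) (Finset.insert_subset hq hτ) (fun a ha => by
    rcases Finset.mem_insert.1 ha with rfl | ha
    · exact he
    · exact h1 a ha)
  rw [Finset.card_insert_of_notMem hq', h.1] at this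
  omega

lemma isB_exchange (h : IsB vec τ) {q0 p : P} (hq : q0 ∈ τ) (hp : p ∉ τ)
    (hne : coef vec τ q0 (vec p) ≠ 0) : IsB vec (insert p (τ.erase q0)) := by
  refine ⟨?_, ?_⟩
  · rw [Finset.card_insert_of_notMem (fun h' => hp (Finset.mem_of_mem_erase h')),
      Finset.card_erase_of_mem hq, h.1]
  · refine (h.2.mono (Finset.erase_subset _ _)).insert (g := coef vec τ q0) (fun q hq' => ?_) hne
    rw [Finset.mem_erase] at hq'
    exact coef_ne h hq hq'.2 (Ne.symm hq'.1)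

/-- the pivot step -/
lemma pivot (hG : Gen vec f T) (hτ : Cell vec f T τ) {q0 : P} (hq : q0 ∈ τ)
    (hp : ∃ p ∈ T, coef vec τ q0 (vec p) < 0) :
    ∃ p0 ∈ T, p0 ∉ τ ∧ coef vec τ q0 (vec p0) < 0 ∧
      Cell vec f T (insert p0 (τ.erase q0)) ∧
      ∃ s : ℝ, 0 < s ∧ Af vec f (insert p0 (τ.erase q0)) = Af vec f τ - s • coef vec τ q0 := by
  classical
  obtain ⟨p, hpT, hpneg⟩ := hp
  set S := T.filter (fun q => coef vec τ q0 (vec q) < 0) with hS
  have hSne : S.Nonempty := ⟨p, Finset.mem_filter.2 ⟨hpT, hpneg⟩⟩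
  obtain ⟨p0, hp0, hmin⟩ := Finset.exists_min_image S
    (fun q => (f q - Af vec f τ (vec q)) / (-(coef vec τ q0 (vec q)))) hSne
  rw [hS, Finset.mem_filter] at hp0
  have hp0τ : p0 ∉ τ := by
    intro h'
    by_cases he : q0 = p0
    · have h1 := hp0.2
      rw [← he, coef_self hτ.isB hq] at h1
      linarith
    · have h1 := hp0.2
      rw [coef_ne hτ.isB hq h' he] at h1
      exact lt_irrefl _ h1
  set s := (f p0 - Af vec f τ (vec p0)) / (-(coef vec τ q0 (vec p0))) with hs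
  have hspos : 0 < s := div_pos (sub_pos.2 (hτ.lt hp0.1 hp0τ)) (neg_pos.2 hp0.2)
  set A := Af vec f τ - s • coef vec τ q0 with hA
  have hAv : ∀ q, A (vec q) = Af vec f τ (vec q) - s * coef vec τ q0 (vec q) := fun q => by
    simp [hA]
  have hle : ∀ q ∈ T, A (vec q) ≤ f q := by
    intro q hqT
    rw [hAv]
    rcases le_or_gt 0 (coef vec τ q0 (vec q)) with h0 | h0
    · have := hτ.le hqT
      have := mul_nonneg hspos.le h0
      linarith
    · have h1 := hmin q (Finset.mem_filter.2 ⟨hqT, h0⟩)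
      rw [le_div_iff₀ (neg_pos.2 h0)] at h1
      linarith
  have htight : ∀ a ∈ insert p0 (τ.erase q0), A (vec a) = f a := by
    intro a ha
    rw [hAv]
    rcases Finset.mem_insert.1 ha with rfl | ha
    · have hne : coef vec τ q0 (vec a) ≠ 0 := ne_of_lt hp0.2
      rw [hs]
      field_simp
      ring
    · rw [Finset.mem_erase] at ha
      rw [coef_ne hτ.isB hq ha.2 (Ne.symm ha.1), mul_zero, sub_zero, Af_vec hτ.isB f ha.2]
  have hB := isB_exchange hτ.isB hq hp0τ (ne_of_lt hp0.2)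
  have hsub : insert p0 (τ.erase q0) ⊆ T :=
    Finset.insert_subset hp0.1 ((Finset.erase_subset _ _).trans hτ.sub)
  exact ⟨p0, hp0.1, hp0τ, hp0.2, cell_of_gen hG hsub hB A htight hle, s, hspos,
    (Af_eq hB htight).symm⟩

/-- standing assumptions -/
structure Conf (vec : P → V) (f : P → ℝ) (h : V →ₗ[ℝ] ℝ) (T : Finset P) : Prop where
  gen : Gen vec f T
  span : ∀ A : V →ₗ[ℝ] ℝ, (∀ q ∈ T, A (vec q) = 0) → A = 0
  pos : ∀ q ∈ T, 0 < h (vec q)

variable {h : V →ₗ[ℝ] ℝ}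

lemma exists_cell_aux (C : Conf vec f h T) : ∀ k ≤ 4, ∃ S ⊆ T, S.card = k ∧ LI vec S ∧
    ∃ A : V →ₗ[ℝ] ℝ, (∀ q ∈ T, A (vec q) ≤ f q) ∧ ∀ q ∈ S, A (vec q) = f q := by
  classical
  intro k
  induction k with
  | zero =>
    intro _
    refine ⟨∅, Finset.empty_subset _, rfl, fun w _ q hq => absurd hq (Finset.notMem_empty q), ?_⟩
    obtain ⟨M, hM⟩ : ∃ M : ℝ, ∀ q ∈ T, -(f q) / h (vec q) ≤ M := by
      by_cases hT : T.Nonempty
      · obtain ⟨q0, _, hq0⟩ := Finset.exists_max_image T (fun q => -(f q) / h (vec q)) hT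
        exact ⟨_, hq0⟩
      · rw [Finset.not_nonempty_iff_eq_empty] at hT
        exact ⟨0, fun q hq => by rw [hT] at hq; exact absurd hq (Finset.notMem_empty q)⟩
    refine ⟨-(M • h), fun q hq => ?_, fun q hq => absurd hq (Finset.notMem_empty q)⟩
    have h1 := hM q hq
    rw [div_le_iff₀ (C.pos q hq)] at h1
    simp only [LinearMap.neg_apply, LinearMap.smul_apply, smul_eq_mul]
    linarith
  | succ k ih =>
    intro hk
    obtain ⟨S, hST, hSc, hLI, A, hA, hAS⟩ := ih (by omega)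
    have hfin : FiniteDimensional ℝ V := FiniteDimensional.of_finrank_pos (by rw [hV.out]; norm_num)
    have hlt : Submodule.span ℝ (vec '' (S : Set P)) < ⊤ := by
      rw [lt_top_iff_ne_top]
      intro htop
      have h1 : Module.finrank ℝ (Submodule.span ℝ (vec '' (S : Set P))) ≤ S.card := by
        have := finrank_span_finset_le_card (R := ℝ) (S.image vec)
        rw [Finset.coe_image] at this
        exact this.trans Finset.card_image_le
      rw [htop, finrank_top, hV.out] at h1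
      omega
    obtain ⟨g, hg0, hg⟩ := Submodule.exists_le_ker_of_lt_top _ hlt
    have hgS : ∀ q ∈ S, g (vec q) = 0 := fun q hq =>
      LinearMap.mem_ker.1 (hg (Submodule.subset_span ⟨q, hq, rfl⟩))
    obtain ⟨p, hpT, hp⟩ : ∃ p ∈ T, g (vec p) ≠ 0 := by
      by_contra hcon
      push Not at hcon
      exact hg0 (C.span g hcon)
    obtain ⟨g', hgS', p', hpT', hp'⟩ : ∃ g' : V →ₗ[ℝ] ℝ, (∀ q ∈ S, g' (vec q) = 0) ∧
        ∃ p' ∈ T, 0 < g' (vec p') := by
      rcases lt_or_gt_of_ne hp with h1 | h1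
      · refine ⟨-g, fun q hq => by rw [LinearMap.neg_apply, hgS q hq, neg_zero], p, hpT, ?_⟩
        rw [LinearMap.neg_apply]; linarith
      · exact ⟨g, hgS, p, hpT, h1⟩
    set R := T.filter (fun q => 0 < g' (vec q)) with hR
    obtain ⟨q0, hq0, hmin⟩ := Finset.exists_min_image R
      (fun q => (f q - A (vec q)) / g' (vec q)) ⟨p', Finset.mem_filter.2 ⟨hpT', hp'⟩⟩
    rw [hR, Finset.mem_filter] at hq0
    set s := (f q0 - A (vec q0)) / g' (vec q0) with hs
    have hs0 : 0 ≤ s := div_nonneg (sub_nonneg.2 (hA q0 hq0.1)) hq0.2.le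
    have hq0S : q0 ∉ S := fun h' => by rw [hgS' q0 h'] at hq0; exact lt_irrefl _ hq0.2
    refine ⟨insert q0 S, Finset.insert_subset hq0.1 hST, ?_, hLI.insert hgS' hq0.2.ne',
      A + s • g', fun q hq => ?_, fun q hq => ?_⟩
    · rw [Finset.card_insert_of_notMem hq0S, hSc]
    · simp only [LinearMap.add_apply, LinearMap.smul_apply, smul_eq_mul]
      rcases le_or_gt (g' (vec q)) 0 with h0 | h0
      · have := hA q hq
        have := mul_nonneg hs0 (neg_nonneg.2 h0)
        linarith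
      · have h1 := hmin q (Finset.mem_filter.2 ⟨hq, h0⟩)
        rw [le_div_iff₀ h0] at h1
        linarith
    · simp only [LinearMap.add_apply, LinearMap.smul_apply, smul_eq_mul]
      rcases Finset.mem_insert.1 hq with rfl | hq
      · rw [hs, div_mul_cancel₀ _ hq0.2.ne']; ring
      · rw [hgS' q hq, mul_zero, add_zero, hAS q hq]

lemma exists_cell (C : Conf vec f h T) : ∃ τ, Cell vec f T τ := by
  obtain ⟨S, hST, hSc, hLI, A, hA, hAS⟩ := exists_cell_aux C 4 le_rfl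
  exact ⟨S, cell_of_gen C.gen hST ⟨hSc, hLI⟩ A hAS hA⟩

open Classical in
/-- the finite set of all cells -/
noncomputable def cells (vec : P → V) (f : P → ℝ) (T : Finset P) : Finset (Finset P) :=
  T.powerset.filter (fun τ => Cell vec f T τ)

omit hV in
lemma mem_cells : τ ∈ cells vec f T ↔ Cell vec f T τ := by
  simp only [cells, Finset.mem_filter, Finset.mem_powerset, and_iff_right_iff_imp]
  exact fun h => h.1

/-- maximisation over a class of cells closed under adjacency -/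
lemma exists_max (C : Conf vec f h T) (Z : Finset P → Prop) {τ1 : Finset P}
    (h1 : Cell vec f T τ1) (hZ1 : Z τ1)
    (hZ : ∀ τ τ', Cell vec f T τ → Cell vec f T τ' → Z τ → (τ ∩ τ').card = 3 → Z τ') (x : V) :
    ∃ τ, Cell vec f T τ ∧ Z τ ∧
      ∀ q ∈ τ, coef vec τ q x < 0 → ∀ p ∈ T, 0 ≤ coef vec τ q (vec p) := by
  classical
  obtain ⟨τ, hτ, hmax⟩ := Finset.exists_max_image ((cells vec f T).filter Z)
    (fun τ => Af vec f τ x) ⟨τ1, Finset.mem_filter.2 ⟨mem_cells.2 h1, hZ1⟩⟩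
  rw [Finset.mem_filter, mem_cells] at hτ
  refine ⟨τ, hτ.1, hτ.2, fun q hq hneg p hp => ?_⟩
  by_contra hcon
  push Not at hcon
  obtain ⟨p0, hp0, hp0τ, hp0neg, hcell, s, hs, hAf⟩ := pivot C.gen hτ.1 hq ⟨p, hp, hcon⟩
  have hadj : (τ ∩ insert p0 (τ.erase q)).card = 3 := by
    rw [Finset.inter_insert_of_notMem hp0τ, Finset.inter_eq_right.2 (Finset.erase_subset _ _),
      Finset.card_erase_of_mem hq, hτ.1.isB.1]
  have h2 := hmax _ (Finset.mem_filter.2 ⟨mem_cells.2 hcell, hZ _ _ hτ.1 hcell hτ.2 hadj⟩)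
  rw [hAf] at h2
  simp only [LinearMap.sub_apply, LinearMap.smul_apply, smul_eq_mul] at h2
  have := mul_pos hs (neg_pos.2 hneg)
  linarith

/-- membership in the cone spanned by `T` -/
def InCone (vec : P → V) (T : Finset P) (x : V) : Prop :=
  ∃ w : P → ℝ, (∀ q ∈ T, 0 ≤ w q) ∧ ∑ q ∈ T, w q • vec q = x

omit hV [DecidableEq P] in
lemma InCone.add {x y : V} (hx : InCone vec T x) (hy : InCone vec T y) : InCone vec T (x + y) := by
  obtain ⟨w, hw, rfl⟩ := hx
  obtain ⟨u, hu, rfl⟩ := hy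
  exact ⟨fun q => w q + u q, fun q hq => add_nonneg (hw q hq) (hu q hq), by
    simp only [add_smul, Finset.sum_add_distrib]⟩

omit hV [DecidableEq P] in
lemma InCone.smul {x : V} (hx : InCone vec T x) {c : ℝ} (hc : 0 ≤ c) : InCone vec T (c • x) := by
  obtain ⟨w, hw, rfl⟩ := hx
  exact ⟨fun q => c * w q, fun q hq => mul_nonneg hc (hw q hq), by
    simp only [mul_smul, Finset.smul_sum]⟩

omit hV in
lemma inCone_vec {q : P} (hq : q ∈ T) : InCone vec T (vec q) :=
  ⟨fun p => if p = q then 1 else 0, fun p _ => by dsimp only; split_ifs <;> norm_num, by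
    simp [ite_smul, Finset.sum_ite_eq', hq]⟩

omit hV in
lemma InCone.mono {S : Finset P} {x : V} (hx : InCone vec S x) (hS : S ⊆ T) : InCone vec T x := by
  obtain ⟨w, hw, rfl⟩ := hx
  refine ⟨fun q => if q ∈ S then w q else 0, fun q _ => ?_, ?_⟩
  · dsimp only
    split_ifs with h'
    · exact hw q h'
    · exact le_rfl
  · simp only [ite_smul, zero_smul]
    rw [Finset.sum_ite_mem, Finset.inter_eq_right.2 hS]

lemma inCone_of_coef (hB : IsB vec τ) {x : V} (hx : ∀ q ∈ τ, 0 ≤ coef vec τ q x) :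
    InCone vec τ x := ⟨fun q => coef vec τ q x, hx, coef_sum hB x⟩

omit hV [DecidableEq P] in
lemma InCone.nonneg {x : V} (hx : InCone vec T x) {A : V →ₗ[ℝ] ℝ} (hA : ∀ q ∈ T, 0 ≤ A (vec q)) :
    0 ≤ A x := by
  obtain ⟨w, hw, rfl⟩ := hx
  rw [map_sum]
  exact Finset.sum_nonneg fun q hq => by
    rw [map_smul, smul_eq_mul]; exact mul_nonneg (hw q hq) (hA q hq)

/-- the cells cover the cone -/
lemma cover (C : Conf vec f h T) {x : V} (hx : InCone vec T x) :
    ∃ τ, Cell vec f T τ ∧ ∀ q ∈ τ, 0 ≤ coef vec τ q x := by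
  obtain ⟨τ1, h1⟩ := exists_cell C
  obtain ⟨τ, hτ, _, hmax⟩ := exists_max C (fun _ => True) h1 trivial (fun _ _ _ _ _ _ => trivial) x
  refine ⟨τ, hτ, fun q hq => ?_⟩
  by_contra hcon
  push Not at hcon
  exact absurd (hx.nonneg (hmax q hq hcon)) (not_le.2 hcon)

/-- connectivity of the dual graph -/
lemma conn (C : Conf vec f h T) (Z : Finset P → Prop) {τ1 : Finset P}
    (h1 : Cell vec f T τ1) (hZ1 : Z τ1)
    (hZ : ∀ τ τ', Cell vec f T τ → Cell vec f T τ' → Z τ → (τ ∩ τ').card = 3 → Z τ')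
    {τ' : Finset P} (h' : Cell vec f T τ') : Z τ' := by
  set x := ∑ q ∈ τ', vec q with hx
  have hcoef : ∀ q ∈ τ', coef vec τ' q x = 1 :=
    coef_unique h'.isB (w := fun _ => 1) (by simp [hx])
  obtain ⟨τ, hτ, hZτ, hmax⟩ := exists_max C Z h1 hZ1 hZ x
  have hxT : InCone vec T x := by
    refine InCone.mono (S := τ') ?_ h'.sub
    exact inCone_of_coef h'.isB fun q hq => by rw [hcoef q hq]; norm_num
  have h2 : ∀ q ∈ τ, 0 ≤ coef vec τ q x := fun q hq => by
    by_contra hcon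
    push Not at hcon
    exact absurd (hxT.nonneg (hmax q hq hcon)) (not_le.2 hcon)
  have h3 := cell_unique h' hτ (fun q hq => by rw [hcoef q hq]; norm_num) h2
  rw [h3]; exact hZτ

/-- there is a boundary facet -/
lemma exists_boundary (C : Conf vec f h T) :
    ∃ τ, Cell vec f T τ ∧ ∃ q ∈ τ, ∀ p ∈ T, 0 ≤ coef vec τ q (vec p) := by
  obtain ⟨τ1, h1⟩ := exists_cell C
  set x := -∑ q ∈ τ1, vec q with hx
  obtain ⟨τ, hτ, _, hmax⟩ := exists_max C (fun _ => True) h1 trivial (fun _ _ _ _ _ _ => trivial) x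
  by_contra hcon
  push Not at hcon
  have h2 : ∀ q ∈ τ, 0 ≤ coef vec τ q x := fun q hq => by
    by_contra hneg
    push Not at hneg
    obtain ⟨p, hp, hpneg⟩ := hcon τ hτ q hq
    exact absurd (hmax q hq hneg p hp) (not_le.2 hpneg)
  have h3 : 0 ≤ h x := (inCone_of_coef hτ.isB h2).nonneg fun q hq => (C.pos q (hτ.sub hq)).le
  have h4 : 0 < ∑ q ∈ τ1, h (vec q) := by
    apply Finset.sum_pos (fun q hq => C.pos q (h1.sub hq))
    rw [← Finset.card_pos, h1.isB.1]; norm_num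
  rw [hx, map_neg, map_sum] at h3
  linarith

/-- directional covering -/
lemma cover2 (C : Conf vec f h T) {x y : V} (hx : ∀ᶠ ε : ℝ in 𝓝[>] 0, InCone vec T (x + ε • y)) :
    ∃ τ, Cell vec f T τ ∧ ∀ q ∈ τ, 0 ≤ coef vec τ q x ∧ (coef vec τ q x = 0 → 0 ≤ coef vec τ q y) := by
  classical
  have h1 : ∀ᶠ ε : ℝ in 𝓝[>] 0, ∃ τ ∈ cells vec f T, ∀ q ∈ τ, 0 ≤ coef vec τ q (x + ε • y) := by
    filter_upwards [hx] with ε hε
    obtain ⟨τ, hτ, h2⟩ := cover C hε
    exact ⟨τ, mem_cells.2 hτ, h2⟩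
  obtain ⟨τ, hτ, hfr⟩ : ∃ τ ∈ cells vec f T,
      ∃ᶠ ε : ℝ in 𝓝[>] 0, ∀ q ∈ τ, 0 ≤ coef vec τ q (x + ε • y) := by
    by_contra hcon
    have h2 : ∀ᶠ ε : ℝ in 𝓝[>] 0, ∀ τ ∈ cells vec f T, ¬ ∀ q ∈ τ, 0 ≤ coef vec τ q (x + ε • y) := by
      rw [Filter.eventually_all_finset]
      intro τ hτ
      exact Filter.not_frequently.1 (fun hf => hcon ⟨τ, hτ, hf⟩)
    obtain ⟨ε, ⟨τ, hτ, h3⟩, h4⟩ := (h1.and h2).exists
    exact h4 τ hτ h3
  refine ⟨τ, mem_cells.1 hτ, fun q hq => ?_⟩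
  have h2 : ∃ᶠ ε : ℝ in 𝓝[>] 0, 0 ≤ coef vec τ q x + ε * coef vec τ q y := by
    refine hfr.mono fun ε hε => ?_
    have := hε q hq
    rwa [map_add, map_smul, smul_eq_mul] at this
  constructor
  · by_contra hneg
    push Not at hneg
    have h3 : ∀ᶠ ε : ℝ in 𝓝[>] 0, coef vec τ q x + ε * coef vec τ q y < 0 := by
      have h4 : Tendsto (fun ε : ℝ => coef vec τ q x + ε * coef vec τ q y) (𝓝[>] 0)
          (𝓝 (coef vec τ q x + 0 * coef vec τ q y)) := by
        apply Tendsto.mono_left _ nhdsWithin_le_nhds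
        exact (continuous_const.add (continuous_id.mul continuous_const)).tendsto 0
      refine h4.eventually_lt_const ?_
      rw [zero_mul, add_zero]; exact hneg
    obtain ⟨ε, h5, h6⟩ := (h2.and_eventually h3).exists
    exact absurd h5 (not_le.2 h6)
  · intro h0
    obtain ⟨ε, h5, h6⟩ := (h2.and_eventually self_mem_nhdsWithin).exists
    rw [h0, zero_add] at h5
    have hε : (0 : ℝ) < ε := h6
    exact nonneg_of_mul_nonneg_right (by linarith) hε

end

end Pool.Agent.Helper486.Del
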