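import Pool.Agent.Helper486.Del.Min

namespace Pool.Agent.Helper486.Del

open Finset Filter Topology
open scoped RealInnerProductSpace

variable {T τ S : Finset E3} {f : E3 → ℝ}

/-- insertion of a point beyond one facet, near a leaf -/
lemma leaf_outside (hT : GP T) {y : E3} (hy : Leaf T y τ) :
    ∃ p τ', p ∉ T ∧ GP (insert p T) ∧
      (cells ve nsq (insert p T)).card = (cells ve nsq T).card + 1 ∧ Leaf (insert p T) p τ' := by
  classical
  have hyT : y ∈ T := hy.1.sub hy.2.1
  have hB := hy.1.isB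
  obtain ⟨c, hc, hcy⟩ := Finset.exists_mem_ne (show 1 < τ.card by rw [hB.1]; norm_num) y
  set Sg : ℝ := ∑ a ∈ τ.erase c, nsq (a - y) with hSg
  have hSg0 : 0 ≤ Sg := Finset.sum_nonneg fun a _ => nsq_nonneg _
  have hcy0 : 0 < nsq (c - y) := lt_of_le_of_ne (nsq_nonneg _) fun h =>
    hcy (sub_eq_zero.1 (nsq_eq_zero.1 h.symm))
  set δ : ℝ := nsq (c - y) / (Sg + 1) with hδ
  have hδ0 : 0 < δ := div_pos hcy0 (by linarith)
  have hδS : δ * Sg < nsq (c - y) := by
    rw [hδ, div_mul_eq_mul_div, div_lt_iff₀ (by linarith)]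
    nlinarith
  set v : E3 := δ • ∑ a ∈ τ.erase c, (a - y) - (c - y) with hv
  have hvv : ((v, 0) : V4) = δ • ∑ a ∈ τ.erase c, (ve a - ve y) - (ve c - ve y) := by
    rw [hv]
    apply Prod.ext
    · rw [Prod.fst_sub, Prod.smul_fst, Prod.fst_sum]; rfl
    · rw [Prod.snd_sub, Prod.smul_snd, Prod.snd_sum]; simp [ve]
  have hyc : y ∈ τ.erase c := Finset.mem_erase.2 ⟨hcy.symm, hy.2.1⟩
  have hcoef : ∀ q ∈ τ, q ≠ y → q ≠ c → coef ve τ q (v, 0) = δ := by
    intro q hq hqy hqc
    rw [hvv, map_sub, map_smul, map_sum, Finset.sum_eq_single q]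
    · rw [map_sub, map_sub, coef_self hB hq, coef_ne hB hq hy.2.1 hqy, coef_ne hB hq hc hqc,
        smul_eq_mul]
      ring
    · intro b hb hbq
      rw [map_sub, coef_ne hB hq (Finset.mem_of_mem_erase hb) (Ne.symm hbq),
        coef_ne hB hq hy.2.1 hqy, sub_zero]
    · intro h; exact absurd (Finset.mem_erase.2 ⟨hqc, hq⟩) h
  have hcoefc : coef ve τ c (v, 0) = -1 := by
    rw [hvv, map_sub, map_smul, map_sum, Finset.sum_eq_zero]
    · rw [map_sub, coef_self hB hc, coef_ne hB hc hy.2.1 hcy, smul_zero]; ring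
    · intro b hb
      rw [Finset.mem_erase] at hb
      rw [map_sub, coef_ne hB hc hb.2 (Ne.symm hb.1), coef_ne hB hc hy.2.1 hcy, sub_zero]
  set B : E3 → (V4 →ₗ[ℝ] ℝ) := fun x =>
    coef ve τ c (ve x) • coef ve τ y - coef ve τ y (ve x) • coef ve τ c with hBd
  set U : Set E3 := {z | coef ve τ c (ve z) < 0 ∧ (∀ q ∈ τ.erase c, 0 < coef ve τ q (ve z)) ∧
    (∀ σ ∈ cells ve nsq T, Af ve nsq σ (ve z) < nsq z) ∧
    ∀ x ∈ T.filter (fun x => 0 < coef ve τ c (ve x)), 0 < B x (ve z)} with hU
  have hUo : IsOpen U := by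
    have e1 : U = {z | coef ve τ c (ve z) < 0} ∩ ((⋂ q ∈ τ.erase c, {z | 0 < coef ve τ q (ve z)}) ∩
        ((⋂ σ ∈ cells ve nsq T, {z | Af ve nsq σ (ve z) < nsq z}) ∩
        ⋂ x ∈ T.filter (fun x => 0 < coef ve τ c (ve x)), {z | 0 < B x (ve z)})) := by
      ext z
      simp only [hU, Set.mem_inter_iff, Set.mem_iInter]
      rfl
    rw [e1]
    refine (isOpen_lt (cont_ve _) continuous_const).inter (IsOpen.inter ?_ (IsOpen.inter ?_ ?_))
    · exact isOpen_biInter_finset fun q _ => isOpen_lt continuous_const (cont_ve _)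
    · exact isOpen_biInter_finset fun σ _ => isOpen_lt (cont_ve _) cont_nsq
    · exact isOpen_biInter_finset fun x _ => isOpen_lt continuous_const (cont_ve _)
  have hUne : U.Nonempty := by
    have e1 : ∀ᶠ ε : ℝ in 𝓝[>] 0, ∀ q ∈ τ.erase c, 0 < coef ve τ q (ve (y + ε • v)) := by
      rw [Filter.eventually_all_finset]
      intro q hq
      rw [Finset.mem_erase] at hq
      by_cases hqy : q = y
      · have h1 : ∀ᶠ ε : ℝ in 𝓝[>] 0, 0 < coef ve τ q (ve y + ε • (v, 0)) := by
          apply (tendsto_line _ _ _).eventually_const_lt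
          rw [hqy, coef_self hB hy.2.1]; exact one_pos
        filter_upwards [h1] with ε hε
        rw [ve_line]; exact hε
      · filter_upwards [self_mem_nhdsWithin] with ε hε
        have hε' : (0 : ℝ) < ε := hε
        rw [ve_line, map_add, map_smul, hcoef q hq.2 hqy hq.1, coef_ne hB hq.2 hy.2.1 hqy, zero_add,
          smul_eq_mul]
        exact mul_pos hε' hδ0
    have e2 : ∀ᶠ ε : ℝ in 𝓝[>] 0, ∀ x ∈ T.filter (fun x => 0 < coef ve τ c (ve x)),
        0 < B x (ve (y + ε • v)) := by
      rw [Filter.eventually_all_finset]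
      intro x hx
      rw [Finset.mem_filter] at hx
      have h1 : ∀ᶠ ε : ℝ in 𝓝[>] 0, 0 < B x (ve y + ε • (v, 0)) := by
        apply (tendsto_line _ _ _).eventually_const_lt
        simp only [hBd, LinearMap.sub_apply, LinearMap.smul_apply, smul_eq_mul]
        rw [coef_self hB hy.2.1, coef_ne hB hc hy.2.1 hcy]
        linarith [hx.2]
      filter_upwards [h1] with ε hε
      rw [ve_line]; exact hε
    obtain ⟨ε, ⟨⟨h1, h2⟩, h3⟩, h4⟩ := (((e1.and e2).and (eventually_far_all hyT v)).and
      self_mem_nhdsWithin).exists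
    have hε : (0 : ℝ) < ε := h4
    refine ⟨y + ε • v, ?_, h1, fun σ hσ => ?_, h2⟩
    · rw [ve_line, map_add, map_smul, hcoefc, coef_ne hB hc hy.2.1 hcy, smul_eq_mul]
      linarith
    · rw [mem_cells] at hσ
      by_cases hyσ : y ∈ σ
      · have hστ := hy.2.2 σ hσ hyσ
        rw [hστ, ve_line, map_add, map_smul, Af_vec hB nsq hy.2.1, nsq_line, smul_eq_mul, hvv,
          map_sub, map_smul, map_sum, map_sub, Af_vec hB nsq hc, Af_vec hB nsq hy.2.1]
        have h5 : ∑ a ∈ τ.erase c, Af ve nsq τ (ve a - ve y) =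
            ∑ a ∈ τ.erase c, (nsq (a - y) + 2 * ⟪y, a - y⟫) := by
          refine Finset.sum_congr rfl fun a ha => ?_
          rw [map_sub, Af_vec hB nsq (Finset.mem_of_mem_erase ha), Af_vec hB nsq hy.2.1, nsq_sub,
            inner_sub_right, real_inner_comm a y]
          have : ⟪y, y⟫ = nsq y := rfl
          rw [this]; ring
        have h6 : ⟪y, v⟫ = δ * (∑ a ∈ τ.erase c, ⟪y, a - y⟫) - ⟪y, c - y⟫ := by
          rw [hv, inner_sub_right, inner_smul_right, inner_sum]
        have h7 : nsq c - nsq y = nsq (c - y) + 2 * ⟪y, c - y⟫ := by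
          rw [nsq_sub, inner_sub_right, real_inner_comm c y]
          have : ⟪y, y⟫ = nsq y := rfl
          rw [this]; ring
        rw [h5, h6, h7, Finset.sum_add_distrib, ← Finset.mul_sum, smul_eq_mul]
        have h8 : 0 < ε * (nsq (c - y) - δ * Sg) := mul_pos hε (by linarith)
        have h9 : 0 ≤ ε ^ 2 * nsq v := mul_nonneg (sq_nonneg _) (nsq_nonneg _)
        rw [← hSg]
        nlinarith
      · exact h3 σ hσ hyσ
  obtain ⟨p, hpU, hpT, hgp⟩ := exists_gp_point hT U hUo hUne
  have hpτ : p ∉ τ := fun h => hpT (hy.1.sub h)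
  obtain ⟨hp1, hp2, hp3, hp4⟩ := hpU
  have hB' := isB_exchange hB hc hpτ hp1.ne
  have hform : ∀ q ∈ τ.erase c, coef ve (insert p (τ.erase c)) q =
      coef ve τ q - (coef ve τ q (ve p) / coef ve τ c (ve p)) • coef ve τ c := by
    intro q hq
    have hqi : q ∈ insert p (τ.erase c) := Finset.mem_insert_of_mem hq
    rw [Finset.mem_erase] at hq
    apply ext_on hB'
    intro a ha
    rw [LinearMap.sub_apply, LinearMap.smul_apply, smul_eq_mul]
    rcases Finset.mem_insert.1 ha with rfl | ha'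
    · rw [coef_ne hB' hqi (Finset.mem_insert_self _ _) (fun h => hpτ (h ▸ hq.2)),
        div_mul_cancel₀ _ hp1.ne, sub_self]
    · rw [Finset.mem_erase] at ha'
      rw [coef_ne hB hc ha'.2 (Ne.symm ha'.1), mul_zero, sub_zero]
      by_cases haq : q = a
      · rw [haq, coef_self hB ha'.2, coef_self hB' ha]
      · rw [coef_ne hB hq.2 ha'.2 haq, coef_ne hB' hqi ha haq]
  have hcb := hy.nonneg hT.conf hc hcy
  have hnew : ∀ q ∈ τ.erase c, ∀ x ∈ T, 0 ≤ coef ve (insert p (τ.erase c)) q (ve x) := by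
    intro q hq x hx
    rw [hform q hq, LinearMap.sub_apply, LinearMap.smul_apply, smul_eq_mul]
    have hq' := Finset.mem_erase.1 hq
    have hpq := hp2 q hq
    have hcx := hcb x hx
    by_cases hqy : q = y
    · rcases hcx.lt_or_eq with h0 | h0
      · have h1 := hp4 x (Finset.mem_filter.2 ⟨hx, h0⟩)
        simp only [hBd, LinearMap.sub_apply, LinearMap.smul_apply, smul_eq_mul] at h1
        rw [hqy]
        rw [div_mul_eq_mul_div, le_sub_iff_add_le, zero_add, div_le_iff_of_neg hp1]
        linarith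
      · rw [← h0, mul_zero, sub_zero]
        -- `x` is a vertex of `τ`
        have hxτ : x ∈ τ := by
          by_contra hxτ
          have hsub : insert x (τ.erase c) ⊆ T := by
            apply Finset.insert_subset hx
            exact (Finset.erase_subset _ _).trans hy.1.sub
          have hcd : (insert x (τ.erase c)).card = 4 := by
            rw [Finset.card_insert_of_notMem (fun h => hxτ (Finset.mem_of_mem_erase h)),
              Finset.card_erase_of_mem hc, hB.1]
          have h3 := span_of_notInPlane (hT.four _ hsub hcd) (coef ve τ c) (fun a ha => by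
            rcases Finset.mem_insert.1 ha with rfl | ha
            · exact h0.symm
            · rw [Finset.mem_erase] at ha
              exact coef_ne hB hc ha.2 (Ne.symm ha.1))
          exact coef_ne_zero hB hc h3
        by_cases hqx : q = x
        · rw [hqx, coef_self hB hxτ]; norm_num
        · rw [coef_ne hB hq'.2 hxτ hqx]
    · have h1 := hy.nonneg hT.conf hq'.2 hqy x hx
      have h2 : coef ve τ q (ve p) / coef ve τ c (ve p) * coef ve τ c (ve x) ≤ 0 :=
        mul_nonpos_of_nonpos_of_nonneg (div_nonpos_of_nonneg_of_nonpos hpq.le hp1.le) hcx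
      linarith
  have hiff : ∀ σ, Cell ve nsq (insert p T) σ ↔ Cell ve nsq T σ ∨ σ = insert p (τ.erase c) :=
    fun σ => insert_outside hpT hy.1 hc hp1 (fun σ hσ => hp3 σ (mem_cells.2 hσ)) hcb hnew
  refine ⟨p, insert p (τ.erase c), hpT, hgp, ?_, (hiff _).2 (Or.inr rfl),
    Finset.mem_insert_self _ _, fun σ hσ hpσ => ?_⟩
  · have h1 : cells ve nsq (insert p T) = insert (insert p (τ.erase c)) (cells ve nsq T) := by
      ext σ
      rw [mem_cells, hiff, Finset.mem_insert, mem_cells]
      tauto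
    rw [h1, Finset.card_insert_of_notMem]
    intro h2
    exact hpT ((mem_cells.1 h2).sub (Finset.mem_insert_self _ _))
  · rcases (hiff σ).1 hσ with h1 | h1
    · exact absurd (h1.sub hpσ) hpT
    · exact h1

/-- four points with a tight functional are independent -/
lemma tight_isB (h1 : NotInPlane T) (hG : Gen ve nsq T) (hS : S ⊆ T) (hc : S.card = 4)
    {A : V4 →ₗ[ℝ] ℝ} (hA : ∀ q ∈ S, A (ve q) = nsq q) : IsB ve S := by
  classical
  apply isB_of_notInPlane hc
  rintro ⟨v, hv, c, hvc⟩
  obtain ⟨q, hq, hne⟩ : ∃ q ∈ T, mkA v (-c) (ve q) ≠ 0 := by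
    by_contra hcon
    push Not at hcon
    exact h1 ⟨v, hv, c, fun p hp => by have := hcon p hp; rw [mkA_ve] at this; linarith⟩
  have hz : ∀ p ∈ S, mkA v (-c) (ve p) = 0 := fun p hp => by rw [mkA_ve, hvc p hp]; ring
  have hqS : q ∉ S := fun h => hne (hz q h)
  have h2 := hG (A + ((nsq q - A (ve q)) / mkA v (-c) (ve q)) • mkA v (-c)) (insert q S)
    (Finset.insert_subset hq hS) (fun a ha => by
      rw [LinearMap.add_apply, LinearMap.smul_apply, smul_eq_mul]
      rcases Finset.mem_insert.1 ha with rfl | ha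
      · rw [div_mul_cancel₀ _ hne]; ring
      · rw [hz a ha, mul_zero, add_zero, hA a ha])
  rw [Finset.card_insert_of_notMem hqS, hc] at h2
  omega

lemma quad_ne' {a b c : ℝ} (h : c ≠ 0) :
    ∀ᶠ t : ℝ in 𝓝[>] 0, a + b * t + c * t ^ 2 ≠ 0 := by
  by_cases h1 : a + b + c = 0
  · -- then use a rescaled parameter
    by_cases ha : a = 0
    · by_cases hb : b = 0
      · rw [ha, hb] at h1
        simp at h1
        exact absurd h1 h
      · have h2 := quad_ne (a := b) (b := c) (c := 0 * 0 + 1 - b - c + 0) (by simp)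
        have hlim : Tendsto (fun t : ℝ => b + c * t) (𝓝[>] 0) (𝓝 (b + c * 0)) := by
          apply Tendsto.mono_left _ nhdsWithin_le_nhds
          exact Continuous.tendsto (by fun_prop) 0
        filter_upwards [hlim.eventually_ne (by simpa using hb), self_mem_nhdsWithin] with t ht ht2
        have ht' : (0 : ℝ) < t := ht2
        have : a + b * t + c * t ^ 2 = t * (b + c * t) := by rw [ha]; ring
        rw [this]
        exact mul_ne_zero ht'.ne' ht
    · have hlim : Tendsto (fun t : ℝ => a + b * t + c * t ^ 2) (𝓝[>] 0)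
          (𝓝 (a + b * 0 + c * 0 ^ 2)) := by
        apply Tendsto.mono_left _ nhdsWithin_le_nhds
        exact Continuous.tendsto (by fun_prop) 0
      exact hlim.eventually_ne (by simpa using ha)
  · exact quad_ne h1

/-- insertion of a point on an edge at a leaf -/
lemma leaf_edge (h1 : NotInPlane T) (h2 : NoFiveCospherical T) {y : E3} (hy : Leaf T y τ) :
    ∃ p τ', p ∉ T ∧ NotInPlane (insert p T) ∧ NoFiveCospherical (insert p T) ∧
      extremal (insert p T) = extremal T ∧
      (cells ve nsq (insert p T)).card = (cells ve nsq T).card + 1 ∧ Leaf (insert p T) y τ' := by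
  classical
  have C := conf_near h1 h2
  have hyT : y ∈ T := hy.1.sub hy.2.1
  have hB := hy.1.isB
  obtain ⟨a, ha, hay⟩ := Finset.exists_mem_ne (show 1 < τ.card by rw [hB.1]; norm_num) y
  have hay0 : nsq (a - y) ≠ 0 := fun h => hay (sub_eq_zero.1 (nsq_eq_zero.1 h))
  have e1 : ∀ᶠ ε : ℝ in 𝓝[>] 0, ∀ S ∈ T.powersetCard 4,
      FF (1, -Af ve nsq S) (y + ε • (a - y)) ≠ 0 := by
    rw [Filter.eventually_all_finset]
    intro S _
    filter_upwards [quad_ne' (a := FF (1, -Af ve nsq S) y)
      (b := 2 * (1 : ℝ) * ⟪y, a - y⟫ + (-Af ve nsq S) (a - y, 0)) (c := 1 * nsq (a - y))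
      (by rw [one_mul]; exact hay0)] with ε hε
    rw [FF_line]; exact hε
  have e2 : ∀ᶠ ε : ℝ in 𝓝[>] 0, ∀ x ∈ T, y + ε • (a - y) ≠ x := by
    rw [Filter.eventually_all_finset]
    intro x _
    by_cases hxy : x = y
    · filter_upwards [self_mem_nhdsWithin] with ε hε
      have hε' : (0 : ℝ) < ε := hε
      rw [hxy]
      intro h
      have h3 : ε • (a - y) = 0 := by simpa using h
      rcases smul_eq_zero.1 h3 with h4 | h4
      · exact hε'.ne' h4
      · exact hay (sub_eq_zero.1 h4)
    · exact (tend_line y (a - y)).eventually_ne (Ne.symm hxy)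
  have e3 : ∀ᶠ ε : ℝ in 𝓝[>] 0, ε < 1 := by
    have : Tendsto (fun ε : ℝ => ε) (𝓝[>] 0) (𝓝 0) := tendsto_id.mono_left nhdsWithin_le_nhds
    exact this.eventually_lt_const one_pos
  obtain ⟨ε, ⟨⟨⟨h3, h4⟩, h5⟩, h6⟩, h7⟩ := ((((e1.and e2).and e3).and
    (eventually_far_all hyT (a - y))).and self_mem_nhdsWithin).exists
  have hε : (0 : ℝ) < ε := h7
  set p := y + ε • (a - y) with hp
  have hpT : p ∉ T := fun h => h4 p h rfl
  have hpτ : p ∉ τ := fun h => hpT (hy.1.sub h)
  have hcy : coef ve τ y (ve p) = 1 - ε := by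
    rw [hp, ve_line, ve_sub, map_add, map_smul, map_sub, coef_self hB hy.2.1,
      coef_ne hB hy.2.1 ha hay.symm, smul_eq_mul]; ring
  have hca : coef ve τ a (ve p) = ε := by
    rw [hp, ve_line, ve_sub, map_add, map_smul, map_sub, coef_self hB ha,
      coef_ne hB ha hy.2.1 hay, smul_eq_mul]; ring
  have hcq : ∀ q ∈ τ, q ≠ y → q ≠ a → coef ve τ q (ve p) = 0 := by
    intro q hq hqy hqa
    rw [hp, ve_line, ve_sub, map_add, map_smul, map_sub, coef_ne hB hq ha hqa,
      coef_ne hB hq hy.2.1 hqy, smul_eq_mul]; ring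
  have hpos : ∀ q ∈ τ, 0 ≤ coef ve τ q (ve p) := by
    intro q hq
    by_cases hqy : q = y
    · rw [hqy, hcy]; linarith
    · by_cases hqa : q = a
      · rw [hqa, hca]; exact hε.le
      · rw [hcq q hq hqy hqa]
  have hiff : ∀ σ, Cell ve nsq (insert p T) σ ↔ (Cell ve nsq T σ ∧ σ ≠ τ) ∨
      ∃ q ∈ τ, 0 < coef ve τ q (ve p) ∧ σ = insert p (τ.erase q) := fun σ =>
    insert_conflict C hpT (by rw [hh_ve]; norm_num) hy.1
      (conflict_of_pos hB hpτ hpos)
      (fun σ h8 h9 => h6 σ h8 fun h => h9 (hy.2.2 σ h8 h))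
      (fun q hq => by
        by_cases hqy : q = y
        · left; rw [hqy, hcy]; linarith
        · by_cases hqa : q = a
          · left; rw [hqa, hca]; exact hε
          · right
            exact ⟨hcq q hq hqy hqa, hy.nonneg C hq hqy⟩)
  have hfil : τ.filter (fun q => 0 < coef ve τ q (ve p)) = {y, a} := by
    ext q
    rw [Finset.mem_filter, Finset.mem_insert, Finset.mem_singleton]
    constructor
    · rintro ⟨hq, hq0⟩
      by_contra hcon
      rw [not_or] at hcon
      rw [hcq q hq hcon.1 hcon.2] at hq0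
      exact lt_irrefl _ hq0
    · rintro (rfl | rfl)
      · exact ⟨hy.2.1, by rw [hcy]; linarith⟩
      · exact ⟨ha, by rw [hca]; exact hε⟩
  have hG : Gen ve nsq T := gen_of_noFive h2
  refine ⟨p, insert p (τ.erase a), hpT, notInPlane_mono (Finset.subset_insert _ _) h1, ?_, ?_, ?_,
    ?_, ?_, ?_⟩
  · apply noFive_of_gen
    intro A S hS hAS
    by_contra hcon
    push Not at hcon
    by_cases hpS : p ∈ S
    · have hc : 4 ≤ (S.erase p).card := by rw [Finset.card_erase_of_mem hpS]; omega
      obtain ⟨ρ, hρ, hρc⟩ := Finset.exists_subset_card_eq hc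
      have hρT : ρ ⊆ T := fun x hx => by
        have h1 := Finset.mem_erase.1 (hρ hx)
        exact (Finset.mem_insert.1 (hS h1.2)).resolve_left h1.1
      have htight : ∀ a ∈ ρ, A (ve a) = nsq a := fun a ha =>
        hAS a (Finset.mem_of_mem_erase (hρ ha))
      have hA := Af_eq (tight_isB h1 hG hρT hρc htight) htight
      apply h3 ρ (Finset.mem_powersetCard.2 ⟨hρT, hρc⟩)
      unfold FF
      simp only [one_mul, LinearMap.neg_apply]
      rw [← hA, hAS p hpS]; ring
    · have hST : S ⊆ T := fun x hx =>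
        (Finset.mem_insert.1 (hS hx)).resolve_left (fun h => hpS (h ▸ hx))
      have := hG A S hST hAS
      omega
  · exact extremal_insert ((inCone_of_coef hB hpos).mono hy.1.sub)
  · have h8 := card_conflict hpT hy.1 hiff
    rw [hfil, Finset.card_pair hay.symm] at h8
    omega
  · exact (hiff _).2 (Or.inr ⟨a, ha, by rw [hca]; exact hε, rfl⟩)
  · exact Finset.mem_insert_of_mem (Finset.mem_erase.2 ⟨hay.symm, hy.2.1⟩)
  · intro σ hσ hyσ
    rcases (hiff σ).1 hσ with h8 | ⟨q, hq, hq0, rfl⟩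
    · exact absurd (hy.2.2 σ h8.1 hyσ) h8.2
    · have hqy : q ≠ y := by
        rintro rfl
        rcases Finset.mem_insert.1 hyσ with h9 | h9
        · exact hpT (h9 ▸ hyT)
        · exact Finset.notMem_erase _ _ h9
      have hqa : q = a := by
        by_contra hqa
        rw [hcq q hq hqy hqa] at hq0
        exact lt_irrefl _ hq0
      rw [hqa]

end Pool.Agent.Helper486.Del
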