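import Pool.Agent.Helper486.Del.Rigid

namespace Pool.Agent.Helper486.Del

open Finset Filter Topology
open scoped RealInnerProductSpace

variable {T τ : Finset E3} {g : E3 → ℝ} {G : E3 → E3} {f : E3 → ℝ}

/-- cells containing an edge -/
noncomputable def St (f : E3 → ℝ) (T : Finset E3) (p q : E3) : Finset (Finset E3) :=
  (cells ve f T).filter (fun τ => p ∈ τ ∧ q ∈ τ)

lemma mem_St {p q : E3} : τ ∈ St f T p q ↔ Cell ve f T τ ∧ p ∈ τ ∧ q ∈ τ := by
  simp only [St, Finset.mem_filter, mem_cells]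

open Classical in
/-- link of an edge -/
noncomputable def Lk (f : E3 → ℝ) (T : Finset E3) (p q : E3) : Finset E3 :=
  T.filter (fun c => c ≠ p ∧ c ≠ q ∧ ∃ τ ∈ St f T p q, c ∈ τ)

lemma mem_Lk {p q c : E3} : c ∈ Lk f T p q ↔ c ≠ p ∧ c ≠ q ∧ ∃ τ ∈ St f T p q, c ∈ τ := by
  simp only [Lk, Finset.mem_filter, and_iff_right_iff_imp]
  rintro ⟨_, _, τ, hτ, hc⟩
  exact (mem_St.1 hτ).1.sub hc

/-- orientation sign -/
noncomputable def ep (p q : E3) (τ : Finset E3) (c : E3) : ℝ :=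
  Real.sign (∑ x ∈ τ, det3 (q - p) (c - p) (x - p))

lemma det3_self0 (u v : E3) : det3 u u v = 0 := by unfold det3; ring
lemma det3_zero2 (u v : E3) : det3 u 0 v = 0 := by simp [det3]

lemma sum_det {p q c z : E3} (hz : z ∉ ({p, q, c} : Finset E3)) (hc : ({p, q, c} : Finset E3).card = 3) :
    ∑ x ∈ insert z ({p, q, c} : Finset E3), det3 (q - p) (c - p) (x - p) =
      det3 (q - p) (c - p) (z - p) := by
  rw [Finset.sum_insert hz, Finset.sum_eq_zero, add_zero]
  intro x hx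
  simp only [Finset.mem_insert, Finset.mem_singleton] at hx
  rcases hx with rfl | rfl | rfl
  · rw [sub_self]; exact det3_zero _ _
  · exact det3_self1 _ _
  · exact det3_self2 _ _

lemma card_three {p q c : E3} (h1 : p ≠ q) (h2 : c ≠ p) (h3 : c ≠ q) :
    ({p, q, c} : Finset E3).card = 3 := by
  rw [Finset.card_eq_three]
  exact ⟨p, q, c, h1, h2.symm, h3.symm, rfl⟩

/-- the two orientation signs of a cell around an edge cancel -/
lemma ep_sum {p q : E3} (hpq : p ≠ q) (hτ : τ.card = 4) (hp : p ∈ τ) (hq : q ∈ τ) :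
    ∑ c ∈ (τ.erase p).erase q, ep p q τ c = 0 := by
  have hqp : q ∈ τ.erase p := Finset.mem_erase.2 ⟨hpq.symm, hq⟩
  have hcard : ((τ.erase p).erase q).card = 2 := by
    rw [Finset.card_erase_of_mem hqp, Finset.card_erase_of_mem hp, hτ]
  obtain ⟨c, d, hcd, he⟩ := Finset.card_eq_two.1 hcard
  have hc : c ∈ (τ.erase p).erase q := by rw [he]; simp
  have hd : d ∈ (τ.erase p).erase q := by rw [he]; simp
  simp only [Finset.mem_erase] at hc hd
  have hτe : τ = insert p (insert q {c, d}) := by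
    rw [← he, Finset.insert_erase hqp, Finset.insert_erase hp]
  have e1 : ∀ a : E3, ∑ x ∈ τ, det3 (q - p) (a - p) (x - p) =
      det3 (q - p) (a - p) (c - p) + det3 (q - p) (a - p) (d - p) := by
    intro a
    rw [← Finset.add_sum_erase _ _ hp, ← Finset.add_sum_erase _ _ hqp, he, Finset.sum_pair hcd,
      sub_self, det3_zero, det3_self1]
    ring
  rw [he, Finset.sum_pair hcd]
  unfold ep
  rw [e1, e1, det3_self2, det3_self2, zero_add, add_zero, det3_swap (q - p) (c - p) (d - p),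
    Real.sign_neg]
  ring

/-- specification of the two cells around a triangle -/
def TwoCells (f : E3 → ℝ) (T : Finset E3) (p q c : E3) (τ1 τ2 : Finset E3) (z1 z2 : E3) : Prop :=
  Cell ve f T τ1 ∧ Cell ve f T τ2 ∧ z1 ∉ ({p, q, c} : Finset E3) ∧
      z2 ∉ ({p, q, c} : Finset E3) ∧ τ1 = insert z1 {p, q, c} ∧ τ2 = insert z2 {p, q, c} ∧
      0 < det3 (q - p) (c - p) (z1 - p) ∧ det3 (q - p) (c - p) (z2 - p) < 0 ∧
      ∀ σ, Cell ve f T σ → ({p, q, c} : Finset E3) ⊆ σ → σ = τ1 ∨ σ = τ2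

lemma tele {p q : E3} (hpq : p ≠ q) (F : Finset E3 → ℝ) {t1 t2 : E3 → Finset E3} {z1 z2 : E3 → E3}
    (h2 : ∀ c ∈ Lk f T p q, TwoCells f T p q c (t1 c) (t2 c) (z1 c) (z2 c)) :
    ∑ c ∈ Lk f T p q, (F (t1 c) - F (t2 c)) = 0 := by
  have e1 : ∀ c ∈ Lk f T p q, F (t1 c) - F (t2 c) =
      ∑ τ ∈ (St f T p q).filter (fun τ => c ∈ τ), ep p q τ c * F τ := by
    intro c hc
    obtain ⟨c1, c2, hz1, hz2, ht1, ht2, d1, d2, hu⟩ := h2 c hc
    have hcL := mem_Lk.1 hc
    have hcard := card_three hpq hcL.1 hcL.2.1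
    have hne : t1 c ≠ t2 c := by
      intro he
      have hz : z1 c ∈ t2 c := by rw [← he, ht1]; exact Finset.mem_insert_self _ _
      rw [ht2] at hz
      rcases Finset.mem_insert.1 hz with hz | hz
      · rw [hz] at d1; linarith
      · exact hz1 hz
    have hset : (St f T p q).filter (fun τ => c ∈ τ) = {t1 c, t2 c} := by
      ext σ
      rw [Finset.mem_filter, mem_St, Finset.mem_insert, Finset.mem_singleton]
      constructor
      · rintro ⟨⟨hσ, hpσ, hqσ⟩, hcσ⟩
        refine hu σ hσ ?_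
        intro x hx
        simp only [Finset.mem_insert, Finset.mem_singleton] at hx
        rcases hx with rfl | rfl | rfl <;> assumption
      · rintro (rfl | rfl)
        · rw [ht1] at c1 ⊢
          exact ⟨⟨c1, by simp, by simp⟩, by simp⟩
        · rw [ht2] at c2 ⊢
          exact ⟨⟨c2, by simp, by simp⟩, by simp⟩
    rw [hset, Finset.sum_pair hne]
    have s1 : ep p q (t1 c) c = 1 := by
      unfold ep
      rw [ht1, sum_det hz1 hcard, Real.sign_of_pos d1]
    have s2 : ep p q (t2 c) c = -1 := by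
      unfold ep
      rw [ht2, sum_det hz2 hcard, Real.sign_of_neg d2]
    rw [s1, s2]; ring
  rw [Finset.sum_congr rfl e1]
  have e2 : ∑ c ∈ Lk f T p q, ∑ τ ∈ (St f T p q).filter (fun τ => c ∈ τ), ep p q τ c * F τ =
      ∑ τ ∈ St f T p q, ∑ c ∈ (τ.erase p).erase q, ep p q τ c * F τ := by
    apply Finset.sum_comm'
    intro c τ
    simp only [mem_Lk, Finset.mem_filter, Finset.mem_erase]
    constructor
    · rintro ⟨⟨h3, h4, _⟩, h5, h6⟩
      exact ⟨⟨h4, h3, h6⟩, h5⟩
    · rintro ⟨⟨h3, h4, h5⟩, h6⟩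
      exact ⟨⟨h4, h3, τ, h6, h5⟩, h6, h5⟩
  rw [e2]
  apply Finset.sum_eq_zero
  intro τ hτ
  have hτ' := mem_St.1 hτ
  rw [← Finset.sum_mul, ep_sum hpq hτ'.1.isB.1 hτ'.2.1 hτ'.2.2, zero_mul]

/-- the balance relation at an edge with an inner end point -/
lemma edge_balance (C : Conf ve nsq hh T) (hR : ∀ τ, Cell ve nsq T τ → Rel g G τ) {p q : E3}
    (hp : Inner ve T p) (hpq : p ≠ q) :
    ∃ (φ : E3 → ℝ) (s : ℝ), (∀ c ∈ Lk nsq T p q, 0 < φ c) ∧
      ∑ c ∈ Lk nsq T p q, φ c • (c - p) = s • (q - p) ∧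
      ∑ c ∈ Lk nsq T p q, φ c * (g c - g p) = s * (g q - g p) := by
  have h1 : ∀ c : E3, ∃ (τ1 τ2 : Finset E3) (z1 z2 : E3), c ∈ Lk nsq T p q →
      TwoCells nsq T p q c τ1 τ2 z1 z2 := by
    intro c
    by_cases hc : c ∈ Lk nsq T p q
    · obtain ⟨hcp, hcq, τ, hτ, hcτ⟩ := mem_Lk.1 hc
      have hτ' := mem_St.1 hτ
      obtain ⟨τ1, τ2, z1, z2, h⟩ := star_pair C hp (q := q) (c := c) hτ'.1 (by
        intro x hx
        simp only [Finset.mem_insert, Finset.mem_singleton] at hx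
        rcases hx with rfl | rfl | rfl
        · exact hτ'.2.1
        · exact hτ'.2.2
        · exact hcτ) (card_three hpq hcp hcq)
      exact ⟨τ1, τ2, z1, z2, fun _ => h⟩
    · exact ⟨∅, ∅, 0, 0, fun h => absurd h hc⟩
  choose t1 t2 z1 z2 h2 using h1
  set φ : E3 → ℝ := fun c => (gr nsq (t1 c) - gr nsq (t2 c)) (z1 c - p) /
    det3 (q - p) (c - p) (z1 c - p) with hφ
  have key : ∀ c ∈ Lk nsq T p q, 0 < φ c ∧
      (∀ x, gr nsq (t1 c) x - gr nsq (t2 c) x = φ c * det3 (q - p) (c - p) x) ∧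
      ∀ x y, BB g G (t1 c) x y - BB g G (t2 c) x y =
        φ c * det3 ((g q - g p) • (c - p) - (g c - g p) • (q - p)) x y := by
    intro c hc
    obtain ⟨c1, c2, hz1, hz2, ht1, ht2, d1, d2, hu⟩ := h2 c hc
    have hcL := mem_Lk.1 hc
    have p1 : p ∈ t1 c := by rw [ht1]; simp
    have q1 : q ∈ t1 c := by rw [ht1]; simp
    have k1 : c ∈ t1 c := by rw [ht1]; simp
    have w1 : z1 c ∈ t1 c := by rw [ht1]; simp
    have p2 : p ∈ t2 c := by rw [ht2]; simp
    have q2 : q ∈ t2 c := by rw [ht2]; simp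
    have k2 : c ∈ t2 c := by rw [ht2]; simp
    have w2 : z1 c ∉ t2 c := by
      rw [ht2]
      intro hz
      rcases Finset.mem_insert.1 hz with hz | hz
      · rw [hz] at d1; linarith
      · exact hz1 hz
    have hψq : (gr nsq (t1 c) - gr nsq (t2 c)) (q - p) = 0 := by
      rw [LinearMap.sub_apply, gr_sub c1.isB _ q1 p1, gr_sub c2.isB _ q2 p2, sub_self]
    have hψc : (gr nsq (t1 c) - gr nsq (t2 c)) (c - p) = 0 := by
      rw [LinearMap.sub_apply, gr_sub c1.isB _ k1 p1, gr_sub c2.isB _ k2 p2, sub_self]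
    have hψ : ∀ x, (gr nsq (t1 c) - gr nsq (t2 c)) x = φ c * det3 (q - p) (c - p) x :=
      fun x => functional_eq hψq hψc d1.ne' x
    refine ⟨?_, fun x => ?_, fun x y => ?_⟩
    · apply div_pos _ d1
      rw [LinearMap.sub_apply, gr_sub c1.isB _ w1 p1]
      have h3 := c2.lt (c1.sub w1) w2
      have h4 : Af ve nsq (t2 c) (ve (z1 c)) = gr nsq (t2 c) (z1 c - p) + nsq p := by
        have h5 : ve (z1 c) = ((z1 c - p, 0) : V4) + ve p := by simp [ve]
        rw [h5, map_add, Af_vec c2.isB nsq p2]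
        rfl
      rw [h4] at h3
      linarith
    · exact hψ x
    · have hanti : ∀ x y, (BB g G (t1 c) x - BB g G (t2 c) x) y =
          -(BB g G (t1 c) y - BB g G (t2 c) y) x := by
        intro x y
        rw [LinearMap.sub_apply, LinearMap.sub_apply, BB_anti c1.isB (hR _ c1) x y,
          BB_anti c2.isB (hR _ c2) x y]
        ring
      refine jump (β := fun x => BB g G (t1 c) x - BB g G (t2 c) x) hanti hψ ?_ ?_ d1.ne' x y
      · intro x
        simp only [LinearMap.sub_apply, BB_apply]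
        rw [gr_sub c1.isB _ q1 p1, gr_sub c2.isB _ q2 p2, LL_sub c1.isB q1 p1, LL_sub c2.isB q2 p2]
        ring
      · intro x
        simp only [LinearMap.sub_apply, BB_apply]
        rw [gr_sub c1.isB _ k1 p1, gr_sub c2.isB _ k2 p2, LL_sub c1.isB k1 p1, LL_sub c2.isB k2 p2]
        ring
  have hqp0 : q - p ≠ 0 := sub_ne_zero.2 hpq.symm
  -- first balance
  have b1 : ∀ x, det3 (q - p) (∑ c ∈ Lk nsq T p q, φ c • (c - p)) x = 0 := by
    intro x
    have h3 := tele hpq (fun τ => gr nsq τ x) h2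
    rw [Finset.sum_congr rfl (fun c hc => (key c hc).2.1 x)] at h3
    have h4 : det3 (q - p) (∑ c ∈ Lk nsq T p q, φ c • (c - p)) x =
        ∑ c ∈ Lk nsq T p q, φ c * det3 (q - p) (c - p) x := by
      have h5 : ∀ y, det3 (q - p) y x = -detL (q - p) x y := fun y => by
        rw [detL_apply]; exact det3_swap _ _ _
      rw [h5, map_sum, ← Finset.sum_neg_distrib]
      refine Finset.sum_congr rfl fun c _ => ?_
      rw [map_smul, smul_eq_mul, h5]; ring
    rw [h4]; exact h3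
  obtain ⟨s, hs⟩ := par_of_det hqp0 b1
  refine ⟨φ, s, fun c hc => (key c hc).1, hs, ?_⟩
  have b2 : ∑ c ∈ Lk nsq T p q, φ c • ((g q - g p) • (c - p) - (g c - g p) • (q - p)) = 0 := by
    apply zero_of_det
    intro x y
    have h3 := tele hpq (fun τ => BB g G τ x y) h2
    rw [Finset.sum_congr rfl (fun c hc => (key c hc).2.2 x y)] at h3
    have h5 : ∀ w, det3 w x y = detL x y w := fun w => by
      rw [detL_apply]; unfold det3; ring
    rw [h5, map_sum, ← h3]
    refine Finset.sum_congr rfl fun c _ => ?_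
    rw [map_smul, smul_eq_mul, h5]
  have b3 : ∑ c ∈ Lk nsq T p q, φ c • ((g q - g p) • (c - p) - (g c - g p) • (q - p)) =
      ((g q - g p) * s - ∑ c ∈ Lk nsq T p q, φ c * (g c - g p)) • (q - p) := by
    have h6 : ∀ c ∈ Lk nsq T p q, φ c • ((g q - g p) • (c - p) - (g c - g p) • (q - p)) =
        (g q - g p) • (φ c • (c - p)) - (φ c * (g c - g p)) • (q - p) := by
      intro c _
      rw [smul_sub, smul_smul, smul_smul, smul_smul, mul_comm (φ c) (g q - g p)]
    rw [Finset.sum_congr rfl h6, Finset.sum_sub_distrib, ← Finset.smul_sum, hs, ← Finset.sum_smul,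
      smul_smul, sub_smul]
  rw [b3] at b2
  have h7 := (smul_eq_zero.1 b2).resolve_right hqp0
  linarith

end Pool.Agent.Helper486.Del
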