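import Pool.Agent.Helper486.Del.MaxDefs

namespace Pool.Agent.Helper486.Del.Max1

open Finset Filter Topology
open scoped RealInnerProductSpace


lemma inner_E3 (v p : E3) : ⟪v, p⟫ = v 0 * p 0 + v 1 * p 1 + v 2 * p 2 := by
  rw [PiLp.inner_apply, Fin.sum_univ_three]
  simp [mul_comm]

lemma dist_E3 (p c : E3) :
    dist p c = √((p 0 - c 0) ^ 2 + (p 1 - c 1) ^ 2 + (p 2 - c 2) ^ 2) := by
  rw [EuclideanSpace.dist_eq, Fin.sum_univ_three]
  simp [Real.dist_eq, sq_abs]

/-- the value of `|x|^2 - A(x)` -/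
def PP (c0 c1 c2 d : ℝ) (x : E3) : ℝ :=
  x 0 ^ 2 + x 1 ^ 2 + x 2 ^ 2 - (c0 * x 0 + c1 * x 1 + c2 * x 2) - d

lemma mem_DT (T S : Finset E3) (hST : S ⊆ T) (hc : S.card = 4) (hn : NotInPlane S)
    (c0 c1 c2 d : ℝ) (h0 : ∀ p ∈ S, PP c0 c1 c2 d p = 0) (h1 : ∀ p ∈ T, 0 ≤ PP c0 c1 c2 d p) :
    S ∈ DT T := by
  refine ⟨hST, hc, hn, !₂[c0 / 2, c1 / 2, c2 / 2],
    √(d + (c0 / 2) ^ 2 + (c1 / 2) ^ 2 + (c2 / 2) ^ 2), ?_, ?_⟩
  · intro p hp
    rw [dist_E3]
    congr 1
    have := h0 p hp
    unfold PP at this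
    simp
    linear_combination this
  · intro p hp
    rw [dist_E3, not_lt]
    apply Real.sqrt_le_sqrt
    have := h1 p hp
    unfold PP at this
    simp
    nlinarith

/-- the points, indexed by `0..m` -/
noncomputable def pt (j : ℕ) (L : ℝ) (i : ℕ) : E3 := if i = 0 then aa L else gam (par j i)

lemma pt_zero (j : ℕ) (L : ℝ) : pt j L 0 = aa L := by simp [pt]

lemma pt_pos (j : ℕ) (L : ℝ) {i : ℕ} (hi : 1 ≤ i) : pt j L i = gam (par j i) := by
  have : i ≠ 0 := by omega
  simp [pt, this]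

lemma gam0 (t : ℝ) : (gam t) 0 = t := by simp [gam]
lemma gam1 (t : ℝ) : (gam t) 1 = t ^ 2 := by simp [gam]
lemma gam2 (t : ℝ) : (gam t) 2 = t ^ 3 := by simp [gam]
lemma aa0 (t : ℝ) : (aa t) 0 = t := by simp [aa]
lemma aa1 (t : ℝ) : (aa t) 1 = 0 := by simp [aa]
lemma aa2 (t : ℝ) : (aa t) 2 = 0 := by simp [aa]

lemma par_lt (j : ℕ) {i k : ℕ} (hi : 1 ≤ i) (hik : i < k) : par j i < par j k := by
  have hk : ¬ k ≤ 1 := by omega
  unfold par
  rw [if_neg hk]
  split_ifs with h
  · have : (0 : ℝ) < 3 ^ j := by positivity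
    have : (0 : ℝ) < 3 ^ k := by positivity
    linarith
  · exact pow_lt_pow_right₀ (by norm_num) hik

lemma par_le (j : ℕ) {i k : ℕ} (hi : 1 ≤ i) (hik : i ≤ k) : par j i ≤ par j k := by
  rcases eq_or_lt_of_le hik with h | h
  · rw [h]
  · exact (par_lt j hi h).le

lemma par_ne (j i : ℕ) : par j i ≠ 0 := by
  unfold par
  split_ifs with h
  · have : (0 : ℝ) < 3 ^ j := by positivity
    linarith
  · positivity

lemma par_pos (j : ℕ) {i : ℕ} (hi : 2 ≤ i) : 0 < par j i := by
  unfold par
  rw [if_neg (by omega)]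
  positivity

lemma pt_inj (j : ℕ) (L : ℝ) : Function.Injective (pt j L) := by
  have h0 : ∀ k, 1 ≤ k → pt j L 0 ≠ pt j L k := by
    intro k hk h
    rw [pt_zero, pt_pos j L hk] at h
    have h1 := congrArg (fun x : E3 => x 1) h
    simp only [aa1, gam1] at h1
    exact par_ne j k (pow_eq_zero_iff (two_ne_zero) |>.mp h1.symm)
  have h1 : ∀ i k, 1 ≤ i → i < k → pt j L i ≠ pt j L k := by
    intro i k hi hik h
    rw [pt_pos j L hi, pt_pos j L (by omega)] at h
    have h1 := congrArg (fun x : E3 => x 0) h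
    simp only [gam0] at h1
    exact absurd h1 (par_lt j hi hik).ne
  intro i k hik
  rcases lt_trichotomy i k with h | h | h
  · exfalso
    rcases Nat.eq_zero_or_pos i with h' | h'
    · subst h'; exact h0 k h hik
    · exact h1 i k h' h hik
  · exact h
  · exfalso
    rcases Nat.eq_zero_or_pos k with h' | h'
    · subst h'; exact h0 i h hik.symm
    · exact h1 k i h' h hik.symm

lemma TT_eq (m j : ℕ) (L : ℝ) : TT m j L = (Finset.range (m + 1)).image (pt j L) := by
  ext x
  simp only [TT, Finset.mem_insert, Finset.mem_image, Finset.mem_Icc, Finset.mem_range]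
  constructor
  · rintro (h | ⟨i, hi, h⟩)
    · exact ⟨0, by omega, by rw [pt_zero, h]⟩
    · exact ⟨i, by omega, by rw [pt_pos j L hi.1, h]⟩
  · rintro ⟨i, hi, h⟩
    rcases Nat.eq_zero_or_pos i with h' | h'
    · subst h'
      left
      rw [← h, pt_zero]
    · right
      exact ⟨i, ⟨h', by omega⟩, by rw [← h, pt_pos j L h']⟩

/-- sign of two consecutive factors -/
lemma two_sign (j : ℕ) {i l : ℕ} (hi : 1 ≤ i) (hl : 1 ≤ l) :
    0 ≤ (par j l - par j i) * (par j l - par j (i + 1)) := by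
  rcases Nat.lt_or_ge i l with h | h
  · have h1 := par_le j hi h.le
    have h2 := par_le j (i := i + 1) (k := l) (by omega) h
    exact mul_nonneg (by linarith) (by linarith)
  · have h1 := par_le j hl h
    have h2 := par_le j (i := l) (k := i + 1) hl (by omega)
    exact mul_nonneg_of_nonpos_of_nonpos (by linarith) (by linarith)

lemma quad_ev (b c : ℝ) : ∀ᶠ L : ℝ in atTop, 0 ≤ L ^ 2 + b * L + c := by
  filter_upwards [eventually_ge_atTop (|b| + |c| + 1)] with L hL
  have h1 : -|b| ≤ b := neg_abs_le b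
  have h2 : -|c| ≤ c := neg_abs_le c
  have h3 := abs_nonneg b
  have h4 := abs_nonneg c
  nlinarith

lemma PP_gam (c0 c1 c2 d t : ℝ) : PP c0 c1 c2 d (gam t) =
    t ^ 2 + t ^ 4 + t ^ 6 - (c0 * t + c1 * t ^ 2 + c2 * t ^ 3) - d := by
  unfold PP
  rw [gam0, gam1, gam2]
  ring

lemma PP_aa (c0 c1 c2 d L : ℝ) : PP c0 c1 c2 d (aa L) = L ^ 2 - c0 * L - d := by
  unfold PP
  rw [aa0, aa1, aa2]
  ring

lemma plane_gam (v : E3) (c t : ℝ) (h : ⟪v, gam t⟫ = c) : v 0 * t + v 1 * t ^ 2 + v 2 * t ^ 3 = c := by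
  rw [inner_E3, gam0, gam1, gam2] at h
  exact h

lemma plane_three (a b c d p q r : ℝ) (hpq : p ≠ q) (hpr : p ≠ r) (hqr : q ≠ r)
    (hp : a * p + b * p ^ 2 + c * p ^ 3 = d) (hq : a * q + b * q ^ 2 + c * q ^ 3 = d)
    (hr : a * r + b * r ^ 2 + c * r ^ 3 = d) :
    b = - c * (p + q + r) ∧ a = c * (p * q + p * r + q * r) ∧ d = c * (p * q * r) := by
  have h1 : a + b * (p + q) + c * (p ^ 2 + p * q + q ^ 2) = 0 := by
    apply mul_left_cancel₀ (sub_ne_zero.mpr hpq)
    linear_combination hp - hq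
  have h2 : a + b * (p + r) + c * (p ^ 2 + p * r + r ^ 2) = 0 := by
    apply mul_left_cancel₀ (sub_ne_zero.mpr hpr)
    linear_combination hp - hr
  have h3 : b + c * (p + q + r) = 0 := by
    apply mul_left_cancel₀ (sub_ne_zero.mpr hqr)
    linear_combination h1 - h2
  have hb : b = - c * (p + q + r) := by linear_combination h3
  have ha : a = c * (p * q + p * r + q * r) := by
    rw [hb] at h1
    linear_combination h1
  refine ⟨hb, ha, ?_⟩
  rw [hb, ha] at hp
  linear_combination -hp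

lemma E3_eq_zero (v : E3) (h0 : v 0 = 0) (h1 : v 1 = 0) (h2 : v 2 = 0) : v = 0 := by
  ext i
  fin_cases i
  · exact h0
  · exact h1
  · exact h2

/-- Family A -/
lemma famA (m j i k : ℕ) (hi : 1 ≤ i) (hik : i + 2 ≤ k) (hk : k + 1 ≤ m) :
    ∀ᶠ L : ℝ in atTop, (({i, i + 1, k, k + 1} : Finset ℕ).image (pt j L)) ∈ DT (TT m j L) := by
  set p := par j i with hp
  set q := par j (i + 1) with hq
  set r := par j k with hr
  set s := par j (k + 1) with hs
  have hpq : p < q := par_lt j hi (by omega)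
  have hqr : q < r := par_lt j (by omega) (by omega)
  have hrs : r < s := par_lt j (by omega) (by omega)
  set e1 := p + q + r + s with he1
  set e2 := p * q + p * r + p * s + q * r + q * s + r * s with he2
  set e3 := p * q * r + p * q * s + p * r * s + q * r * s with he3
  set e4 := p * q * r * s with he4
  set b := 1 + e1 ^ 2 - e2 with hb
  set C3 := e1 * b - e1 * e2 + e3 with hC3
  set C2 := 1 - e2 * b + e1 * e3 - e4 with hC2
  set C1 := e3 * b - e1 * e4 with hC1
  set C0 := - e4 * b with hC0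
  have hid : ∀ t, PP C1 C2 C3 C0 (gam t) =
      ((t - p) * (t - q)) * ((t - r) * (t - s)) * (t ^ 2 + e1 * t + b) := by
    intro t
    rw [PP_gam, hC1, hC2, hC3, hC0, hb, he4, he3, he2, he1]
    ring
  have hpos : ∀ t, 0 ≤ t ^ 2 + e1 * t + b := by
    intro t
    have h1 : 8 * e2 ≤ 3 * e1 ^ 2 := by
      rw [he1, he2]
      nlinarith [sq_nonneg (p - q), sq_nonneg (p - r), sq_nonneg (p - s), sq_nonneg (q - r),
        sq_nonneg (q - s), sq_nonneg (r - s)]
    rw [hb]
    nlinarith [sq_nonneg (t + e1 / 2), sq_nonneg e1]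
  filter_upwards [quad_ev (-C1) (-C0)] with L hL
  refine mem_DT _ _ ?_ ?_ ?_ C1 C2 C3 C0 ?_ ?_
  · rw [TT_eq]
    apply Finset.image_subset_image
    intro x hx
    simp only [Finset.mem_insert, Finset.mem_singleton] at hx
    rw [Finset.mem_range]
    omega
  · rw [Finset.card_image_of_injective _ (pt_inj j L)]
    rw [Finset.card_insert_of_notMem, Finset.card_insert_of_notMem, Finset.card_insert_of_notMem,
      Finset.card_singleton]
    · simp
    · simp only [Finset.mem_insert, Finset.mem_singleton]; omega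
    · simp only [Finset.mem_insert, Finset.mem_singleton]; omega
  · rintro ⟨v, hv, c, hc⟩
    have f1 := plane_gam v c p (by
      rw [hp, ← pt_pos j L hi]; exact hc _ (Finset.mem_image_of_mem _ (by simp)))
    have f2 := plane_gam v c q (by
      rw [hq, ← pt_pos j L (by omega)]; exact hc _ (Finset.mem_image_of_mem _ (by simp)))
    have f3 := plane_gam v c r (by
      rw [hr, ← pt_pos j L (by omega)]; exact hc _ (Finset.mem_image_of_mem _ (by simp)))
    have f4 := plane_gam v c s (by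
      rw [hs, ← pt_pos j L (by omega)]; exact hc _ (Finset.mem_image_of_mem _ (by simp)))
    obtain ⟨g1, g2, g3⟩ := plane_three _ _ _ _ p q r hpq.ne (hpq.trans hqr).ne hqr.ne f1 f2 f3
    obtain ⟨g1', g2', g3'⟩ := plane_three _ _ _ _ p q s hpq.ne (hpq.trans (hqr.trans hrs)).ne
      (hqr.trans hrs).ne f1 f2 f4
    have h2 : v 2 = 0 := by
      have : v 2 * (r - s) = 0 := by linear_combination g1 - g1'
      rcases mul_eq_zero.mp this with h | h
      · exact h
      · exact absurd h (sub_ne_zero.mpr hrs.ne)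
    apply hv
    apply E3_eq_zero
    · rw [g2, h2, zero_mul]
    · rw [g1, h2]; ring
    · exact h2
  · intro x hx
    rw [Finset.mem_image] at hx
    obtain ⟨l, hl, rfl⟩ := hx
    simp only [Finset.mem_insert, Finset.mem_singleton] at hl
    rw [pt_pos j L (by omega), hid]
    rcases hl with h | h | h | h
    · rw [h, ← hp]; ring
    · rw [h, ← hq]; ring
    · rw [h, ← hr]; ring
    · rw [h, ← hs]; ring
  · intro x hx
    rw [TT_eq, Finset.mem_image] at hx
    obtain ⟨l, hl, rfl⟩ := hx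
    rcases Nat.eq_zero_or_pos l with h | h
    · subst h
      rw [pt_zero, PP_aa]
      linarith
    · rw [pt_pos j L h, hid]
      exact mul_nonneg (mul_nonneg (two_sign j hi h) (two_sign j (by omega) h)) (hpos _)

/-- `mu → ∞` if `e2 > 0` -/
lemma mu_pos (e2 e3 r1 r0 M : ℝ) (he : 0 < e2) :
    ∀ᶠ L : ℝ in atTop, e2 * L - e3 ≠ 0 ∧ M ≤ (L ^ 2 - r1 * L - r0) / (e2 * L - e3) := by
  filter_upwards [quad_ev (- r1 - M * e2) (- r0 + M * e3), eventually_gt_atTop (e3 / e2)] with L h1 h2
  have h3 : 0 < e2 * L - e3 := by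
    rw [div_lt_iff₀ he] at h2
    linarith
  refine ⟨h3.ne', ?_⟩
  rw [le_div_iff₀ h3]
  linarith

/-- `mu → -∞` if `e2 < 0` -/
lemma mu_neg (e2 e3 r1 r0 M : ℝ) (he : e2 < 0) :
    ∀ᶠ L : ℝ in atTop, e2 * L - e3 ≠ 0 ∧ (L ^ 2 - r1 * L - r0) / (e2 * L - e3) ≤ M := by
  filter_upwards [mu_pos (-e2) (-e3) r1 r0 (-M) (by linarith)] with L h1
  obtain ⟨h2, h3⟩ := h1
  have h4 : -e2 * L - -e3 = -(e2 * L - e3) := by ring
  rw [h4] at h2 h3
  refine ⟨fun h => h2 (by rw [h]; ring), ?_⟩
  rw [div_neg] at h3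
  linarith

/-- The cells containing the far point. -/
lemma famBC (m j a b c : ℕ) (ha : 1 ≤ a) (hab : a < b) (hbc : b < c) (hcm : c ≤ m)
    (hsign : (0 < par j a * par j b + par j a * par j c + par j b * par j c ∧
        ∀ l, 1 ≤ l → l ≤ m →
        (par j l - par j a) * (par j l - par j b) * (par j l - par j c) ≤ 0) ∨
      (par j a * par j b + par j a * par j c + par j b * par j c < 0 ∧
        ∀ l, 1 ≤ l → l ≤ m →
        0 ≤ (par j l - par j a) * (par j l - par j b) * (par j l - par j c))) :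
    ∀ᶠ L : ℝ in atTop, (({0, a, b, c} : Finset ℕ).image (pt j L)) ∈ DT (TT m j L) := by
  set p := par j a with hp
  set q := par j b with hq
  set r := par j c with hr
  have hpq : p < q := par_lt j ha (by omega)
  have hqr : q < r := par_lt j (by omega) (by omega)
  set e1 := p + q + r with he1
  set e2 := p * q + p * r + q * r with he2
  set e3 := p * q * r with he3
  set h2 := e1 ^ 2 - e2 with hh2
  set h3 := e1 ^ 3 - 2 * e1 * e2 + e3 with hh3
  set r2 := 1 + e3 * e1 - e2 * (h2 + 1) + e1 * (h3 + e1) with hr2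
  set r1 := e3 * (h2 + 1) - e2 * (h3 + e1) with hr1
  set r0 := e3 * (h3 + e1) with hr0
  have hid : ∀ mu t, PP (r1 + mu * e2) (r2 - mu * e1) mu (r0 - mu * e3) (gam t) =
      ((t - p) * (t - q) * (t - r)) * ((t ^ 3 + e1 * t ^ 2 + (h2 + 1) * t + (h3 + e1)) - mu) := by
    intro mu t
    rw [PP_gam, hr1, hr2, hr0, hh3, hh2, he3, he2, he1]
    ring
  -- eventual sign
  have hev : ∀ᶠ L : ℝ in atTop, e2 * L - e3 ≠ 0 ∧ ∀ l ∈ Finset.Icc 1 m,
      0 ≤ ((par j l - p) * (par j l - q) * (par j l - r)) *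
        (((par j l) ^ 3 + e1 * (par j l) ^ 2 + (h2 + 1) * (par j l) + (h3 + e1)) -
          (L ^ 2 - r1 * L - r0) / (e2 * L - e3)) := by
    rcases hsign with ⟨hs, hN⟩ | ⟨hs, hN⟩
    · have h5 : ∀ᶠ L : ℝ in atTop, ∀ l ∈ Finset.Icc 1 m, e2 * L - e3 ≠ 0 ∧
          ((par j l) ^ 3 + e1 * (par j l) ^ 2 + (h2 + 1) * (par j l) + (h3 + e1)) ≤
          (L ^ 2 - r1 * L - r0) / (e2 * L - e3) := by
        rw [Filter.eventually_all_finset]
        intro l _
        exact mu_pos e2 e3 r1 r0 _ hs
      filter_upwards [h5, mu_pos e2 e3 r1 r0 0 hs] with L hL hL2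
      refine ⟨hL2.1, fun l hl => ?_⟩
      rw [Finset.mem_Icc] at hl
      apply mul_nonneg_of_nonpos_of_nonpos (hN l hl.1 hl.2)
      have := (hL l (Finset.mem_Icc.mpr hl)).2
      linarith
    · have h5 : ∀ᶠ L : ℝ in atTop, ∀ l ∈ Finset.Icc 1 m, e2 * L - e3 ≠ 0 ∧
          (L ^ 2 - r1 * L - r0) / (e2 * L - e3) ≤
          ((par j l) ^ 3 + e1 * (par j l) ^ 2 + (h2 + 1) * (par j l) + (h3 + e1)) := by
        rw [Filter.eventually_all_finset]
        intro l _
        exact mu_neg e2 e3 r1 r0 _ hs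
      filter_upwards [h5, mu_neg e2 e3 r1 r0 0 hs] with L hL hL2
      refine ⟨hL2.1, fun l hl => ?_⟩
      rw [Finset.mem_Icc] at hl
      apply mul_nonneg (hN l hl.1 hl.2)
      have := (hL l (Finset.mem_Icc.mpr hl)).2
      linarith
  filter_upwards [hev] with L hL
  obtain ⟨hne, hsg⟩ := hL
  set mu := (L ^ 2 - r1 * L - r0) / (e2 * L - e3) with hmu
  have hmu' : mu * (e2 * L - e3) = L ^ 2 - r1 * L - r0 := by
    rw [hmu]; exact div_mul_cancel₀ _ hne
  have haa : PP (r1 + mu * e2) (r2 - mu * e1) mu (r0 - mu * e3) (aa L) = 0 := by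
    rw [PP_aa]
    linear_combination -hmu'
  refine mem_DT _ _ ?_ ?_ ?_ (r1 + mu * e2) (r2 - mu * e1) mu (r0 - mu * e3) ?_ ?_
  · rw [TT_eq]
    apply Finset.image_subset_image
    intro x hx
    simp only [Finset.mem_insert, Finset.mem_singleton] at hx
    rw [Finset.mem_range]
    omega
  · rw [Finset.card_image_of_injective _ (pt_inj j L)]
    rw [Finset.card_insert_of_notMem, Finset.card_insert_of_notMem, Finset.card_insert_of_notMem,
      Finset.card_singleton]
    · simp only [Finset.mem_singleton]; omega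
    · simp only [Finset.mem_insert, Finset.mem_singleton]; omega
    · simp only [Finset.mem_insert, Finset.mem_singleton]; omega
  · rintro ⟨v, hv, c', hc⟩
    have f0 : v 0 * L = c' := by
      have := hc (aa L) (by
        rw [← pt_zero j L]; exact Finset.mem_image_of_mem _ (by simp))
      rw [inner_E3, aa0, aa1, aa2] at this
      linarith
    have f1 := plane_gam v c' p (by
      rw [hp, ← pt_pos j L ha]; exact hc _ (Finset.mem_image_of_mem _ (by simp)))
    have f2 := plane_gam v c' q (by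
      rw [hq, ← pt_pos j L (by omega)]; exact hc _ (Finset.mem_image_of_mem _ (by simp)))
    have f3 := plane_gam v c' r (by
      rw [hr, ← pt_pos j L (by omega)]; exact hc _ (Finset.mem_image_of_mem _ (by simp)))
    obtain ⟨g1, g2, g3⟩ := plane_three _ _ _ _ p q r hpq.ne (hpq.trans hqr).ne hqr.ne f1 f2 f3
    have h2' : v 2 = 0 := by
      have : v 2 * (e2 * L - e3) = 0 := by
        rw [he2, he3]
        linear_combination f0 - L * g2 + g3
      rcases mul_eq_zero.mp this with h | h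
      · exact h
      · exact absurd h hne
    apply hv
    apply E3_eq_zero
    · rw [g2, h2', zero_mul]
    · rw [g1, h2']; ring
    · exact h2'
  · intro x hx
    rw [Finset.mem_image] at hx
    obtain ⟨l, hl, rfl⟩ := hx
    simp only [Finset.mem_insert, Finset.mem_singleton] at hl
    rcases hl with h | h | h | h
    · rw [h, pt_zero, haa]
    · rw [h, pt_pos j L (by omega), hid, ← hp]; ring
    · rw [h, pt_pos j L (by omega), hid, ← hq]; ring
    · rw [h, pt_pos j L (by omega), hid, ← hr]; ring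
  · intro x hx
    rw [TT_eq, Finset.mem_image] at hx
    obtain ⟨l, hl, rfl⟩ := hx
    rcases Nat.eq_zero_or_pos l with h | h
    · subst h
      rw [pt_zero, haa]
    · rw [pt_pos j L h, hid]
      exact hsg l (Finset.mem_Icc.mpr ⟨h, by rw [Finset.mem_range] at hl; omega⟩)

lemma famB (m j i : ℕ) (hi : 2 ≤ i) (him : i + 2 ≤ m) :
    ∀ᶠ L : ℝ in atTop, (({0, i, i + 1, m} : Finset ℕ).image (pt j L)) ∈ DT (TT m j L) := by
  apply famBC m j i (i + 1) m (by omega) (by omega) (by omega) le_rfl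
  left
  constructor
  · have h1 := par_pos j hi
    have h2 := par_pos j (i := i + 1) (by omega)
    have h3 := par_pos j (i := m) (by omega)
    positivity
  · intro l hl hlm
    apply mul_nonpos_of_nonneg_of_nonpos (two_sign j (by omega) hl)
    have := par_le j hl hlm
    linarith

lemma famC (m j i : ℕ) (hi : 2 ≤ i) (hij : i + 1 ≤ j) (hjm : j ≤ m) :
    ∀ᶠ L : ℝ in atTop, (({0, 1, i, i + 1} : Finset ℕ).image (pt j L)) ∈ DT (TT m j L) := by
  apply famBC m j 1 i (i + 1) (by omega) (by omega) (by omega) (by omega)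
  right
  constructor
  · have e1 : par j 1 = -(3 ^ j) / 2 := by simp [par]
    have e2 : par j i = 3 ^ i := by unfold par; rw [if_neg (by omega)]
    have e3 : par j (i + 1) = 3 ^ (i + 1) := by unfold par; rw [if_neg (by omega)]
    rw [e1, e2, e3]
    have h1 : (3 : ℝ) ^ (i + 1) ≤ 3 ^ j := pow_le_pow_right₀ (by norm_num) hij
    have h2 : (0 : ℝ) < 3 ^ i := by positivity
    have h3 : (3 : ℝ) ^ (i + 1) = 3 * 3 ^ i := by ring
    rw [h3] at h1 ⊢
    nlinarith
  · intro l hl hlm
    have h1 := par_le j (i := 1) (k := l) le_rfl hl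
    have h2 := two_sign j (i := i) (l := l) (by omega) hl
    have : (par j l - par j 1) * (par j l - par j i) * (par j l - par j (i + 1)) =
      (par j l - par j 1) * ((par j l - par j i) * (par j l - par j (i + 1))) := by ring
    rw [this]
    exact mul_nonneg (by linarith) h2

/-- index sets of family A -/
def FA (m : ℕ) : Finset (Finset ℕ) :=
  ((Finset.range (m - 3)).sigma (fun a => Finset.range (a + 1))).image
    (fun x => {x.2 + 1, x.2 + 2, x.1 + 3, x.1 + 4})

/-- index sets of family B -/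
def FB (m : ℕ) : Finset (Finset ℕ) := (Finset.range (m - 3)).image (fun b => {0, b + 2, b + 3, m})

/-- index sets of family C -/
def FC (j : ℕ) : Finset (Finset ℕ) := (Finset.range (j - 2)).image (fun b => {0, 1, b + 2, b + 3})

lemma FA_card (m : ℕ) : (FA m).card = (m - 2) * (m - 3) / 2 := by
  unfold FA
  rw [Finset.card_image_of_injOn]
  · rw [Finset.card_sigma]
    simp only [Finset.card_range]
    rcases Nat.lt_or_ge m 3 with h | h
    · have h1 : m - 3 = 0 := by omega
      rw [h1]; simp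
    · obtain ⟨n, rfl⟩ : ∃ n, m = n + 3 := ⟨m - 3, by omega⟩
      have h1 : n + 3 - 3 = n := by omega
      have h2 : n + 3 - 2 = n + 1 := by omega
      rw [h1, h2]
      have h3 := Finset.sum_range_id (n + 1)
      rw [Finset.sum_range_succ'] at h3
      simpa using h3
  · rintro ⟨a, b⟩ hab ⟨a', b'⟩ hab' h
    simp only [Finset.coe_sigma, Set.mem_sigma_iff, Finset.mem_coe, Finset.mem_range] at hab hab'
    simp only at h
    have k1 : b + 1 ∈ ({b' + 1, b' + 2, a' + 3, a' + 4} : Finset ℕ) := by rw [← h]; simp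
    have k2 : b' + 1 ∈ ({b + 1, b + 2, a + 3, a + 4} : Finset ℕ) := by rw [h]; simp
    have k3 : a + 4 ∈ ({b' + 1, b' + 2, a' + 3, a' + 4} : Finset ℕ) := by rw [← h]; simp
    have k4 : a' + 4 ∈ ({b + 1, b + 2, a + 3, a + 4} : Finset ℕ) := by rw [h]; simp
    simp only [Finset.mem_insert, Finset.mem_singleton] at k1 k2 k3 k4
    have l1 : b' ≤ b := by omega
    have l2 : b ≤ b' := by omega
    have l3 : a ≤ a' := by omega
    have l4 : a' ≤ a := by omega
    have e1 : a = a' := by omega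
    have e2 : b = b' := by omega
    subst e1
    subst e2
    rfl

lemma FB_card (m : ℕ) : (FB m).card = m - 3 := by
  unfold FB
  rw [Finset.card_image_of_injOn, Finset.card_range]
  intro b hb b' hb' h
  simp only [Finset.coe_range, Set.mem_Iio] at hb hb'
  simp only at h
  have k1 : b + 2 ∈ ({0, b' + 2, b' + 3, m} : Finset ℕ) := by rw [← h]; simp
  have k2 : b' + 2 ∈ ({0, b + 2, b + 3, m} : Finset ℕ) := by rw [h]; simp
  simp only [Finset.mem_insert, Finset.mem_singleton] at k1 k2
  omega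

lemma FC_card (j : ℕ) : (FC j).card = j - 2 := by
  unfold FC
  rw [Finset.card_image_of_injOn, Finset.card_range]
  intro b hb b' hb' h
  simp only at h
  have k1 : b + 2 ∈ ({0, 1, b' + 2, b' + 3} : Finset ℕ) := by rw [← h]; simp
  have k2 : b' + 2 ∈ ({0, 1, b + 2, b + 3} : Finset ℕ) := by rw [h]; simp
  simp only [Finset.mem_insert, Finset.mem_singleton] at k1 k2
  omega

theorem cells_count (m j : ℕ) (hj : 3 ≤ j) (hjm : j ≤ m) :
    ∀ᶠ L : ℝ in atTop, (m - 2) * (m - 3) / 2 + (m - 3) + (j - 2) ≤ (DT (TT m j L)).ncard := by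
  have hA : ∀ᶠ L : ℝ in atTop, ∀ I ∈ FA m ∪ FB m ∪ FC j, I.image (pt j L) ∈ DT (TT m j L) := by
    rw [Filter.eventually_all_finset]
    intro I hI
    rw [Finset.mem_union, Finset.mem_union] at hI
    rcases hI with (hI | hI) | hI
    · unfold FA at hI
      rw [Finset.mem_image] at hI
      obtain ⟨⟨a, b⟩, hab, rfl⟩ := hI
      simp only [Finset.mem_sigma, Finset.mem_range] at hab
      exact famA m j (b + 1) (a + 3) (by omega) (by omega) (by omega)
    · unfold FB at hI
      rw [Finset.mem_image] at hI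
      obtain ⟨b, hb, rfl⟩ := hI
      rw [Finset.mem_range] at hb
      exact famB m j (b + 2) (by omega) (by omega)
    · unfold FC at hI
      rw [Finset.mem_image] at hI
      obtain ⟨b, hb, rfl⟩ := hI
      rw [Finset.mem_range] at hb
      exact famC m j (b + 2) (by omega) (by omega) hjm
  filter_upwards [hA] with L hL
  have hcard : (FA m ∪ FB m ∪ FC j).card = (m - 2) * (m - 3) / 2 + (m - 3) + (j - 2) := by
    rw [Finset.card_union_of_disjoint, Finset.card_union_of_disjoint, FA_card, FB_card, FC_card]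
    · rw [Finset.disjoint_left]
      intro I hI hI'
      unfold FA at hI
      unfold FB at hI'
      rw [Finset.mem_image] at hI hI'
      obtain ⟨⟨a, b⟩, hab, rfl⟩ := hI
      obtain ⟨b', hb', h⟩ := hI'
      have k : 0 ∈ ({b + 1, b + 2, a + 3, a + 4} : Finset ℕ) := by rw [← h]; simp
      simp at k
    · rw [Finset.disjoint_left]
      intro I hI hI'
      unfold FC at hI'
      rw [Finset.mem_image] at hI'
      obtain ⟨c, hc, h⟩ := hI'
      have k0 : 0 ∈ I := by rw [← h]; simp
      have k1 : 1 ∈ I := by rw [← h]; simp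
      rw [Finset.mem_union] at hI
      rcases hI with hI | hI
      · unfold FA at hI
        rw [Finset.mem_image] at hI
        obtain ⟨⟨a, b⟩, hab, rfl⟩ := hI
        simp at k0
      · unfold FB at hI
        rw [Finset.mem_image] at hI
        obtain ⟨b, hb, rfl⟩ := hI
        rw [Finset.mem_range] at hb
        simp only [Finset.mem_insert, Finset.mem_singleton] at k1
        omega
  have hfin : (DT (TT m j L)).Finite := by
    apply Set.Finite.subset (Finset.finite_toSet (TT m j L).powerset)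
    intro S hS
    rw [Finset.mem_coe, Finset.mem_powerset]
    exact hS.1
  rw [← hcard]
  have himg : ((FA m ∪ FB m ∪ FC j).image (fun I => I.image (pt j L))).card =
      (FA m ∪ FB m ∪ FC j).card :=
    Finset.card_image_of_injective _ (Finset.image_injective (pt_inj j L))
  rw [← himg, ← Set.ncard_coe_finset]
  apply Set.ncard_le_ncard _ hfin
  intro S hS
  rw [Finset.mem_coe, Finset.mem_image] at hS
  obtain ⟨I, hI, rfl⟩ := hS
  exact hL I hI

end Pool.Agent.Helper486.Del.Max1
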