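import Pool.Agent.Helper486.Del.MaxDefs

namespace Pool.Agent.Helper486.Del.Max2

open Finset Filter Topology
open scoped RealInnerProductSpace

theorem inner_mk (a b c x y z : ℝ) :
    ⟪(!₂[a, b, c] : E3), (!₂[x, y, z] : E3)⟫ = a * x + b * y + c * z := by
  simp [PiLp.inner_apply, Fin.sum_univ_three]
  ring

theorem expose (T : Finset E3) (p : E3) (hp : p ∈ T) (v : E3)
    (h : ∀ x ∈ T, x ≠ p → ⟪v, p⟫ < ⟪v, x⟫) : p ∈ extremal T := by
  have key : ∀ y ∈ convexHull ℝ (T : Set E3), ⟪v, p⟫ ≤ ⟪v, y⟫ ∧ (⟪v, y⟫ = ⟪v, p⟫ → y = p) := by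
    classical
    intro y hy
    by_cases hne : (T.erase p).Nonempty
    · have hT : (T : Set E3) = insert p (T.erase p : Set E3) := by
        rw [← Finset.coe_insert, Finset.insert_erase hp]
      rw [hT, convexHull_insert (by exact_mod_cast hne)] at hy
      rw [convexJoin_singleton_left] at hy
      simp only [Set.mem_iUnion] at hy
      obtain ⟨z, hz, hy⟩ := hy
      have hz' : ⟪v, p⟫ < ⟪v, z⟫ := by
        have hc : Convex ℝ {x : E3 | ⟪v, p⟫ < ⟪v, x⟫} :=
          convex_halfSpace_gt (innerₗ E3 v).isLinear _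
        have := convexHull_min (s := (T.erase p : Set E3)) (t := {x : E3 | ⟪v, p⟫ < ⟪v, x⟫})
          (by
            intro x hx
            have hx' : x ∈ T.erase p := hx
            rw [Finset.mem_erase] at hx'
            exact h x hx'.2 hx'.1) hc hz
        exact this
      obtain ⟨a, b, ha, hb, hab, rfl⟩ := hy
      rw [inner_add_right, inner_smul_right, inner_smul_right]
      have ha' : a = 1 - b := by linarith
      subst ha'
      constructor
      · nlinarith
      · intro he
        have hb0 : b = 0 := by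
          have : b * (⟪v, z⟫ - ⟪v, p⟫) = 0 := by linarith
          rcases mul_eq_zero.1 this with h1 | h1
          · exact h1
          · linarith
        simp [hb0]
    · have hT : (T : Set E3) = {p} := by
        ext x
        simp only [Finset.mem_coe, Set.mem_singleton_iff]
        constructor
        · intro hx
          by_contra hxp
          exact hne ⟨x, Finset.mem_erase.2 ⟨hxp, hx⟩⟩
        · rintro rfl
          exact hp
      rw [hT, convexHull_singleton] at hy
      rw [Set.mem_singleton_iff.1 hy]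
      simp
  refine mem_extremePoints.2 ⟨subset_convexHull ℝ _ hp, ?_⟩
  rintro x hx y hy ⟨a, b, ha, hb, hab, hxy⟩
  have kx := key x hx
  have ky := key y hy
  have e : a * ⟪v, x⟫ + b * ⟪v, y⟫ = ⟪v, p⟫ := by
    rw [← hxy, inner_add_right, inner_smul_right, inner_smul_right]
  have ha' : a = 1 - b := by linarith
  subst ha'
  have e1 : ⟪v, x⟫ = ⟪v, p⟫ := by
    apply le_antisymm _ kx.1
    by_contra hcon
    push Not at hcon
    have h1 : (1 - b) * ⟪v, p⟫ < (1 - b) * ⟪v, x⟫ := mul_lt_mul_of_pos_left hcon ha
    have h2 : b * ⟪v, p⟫ ≤ b * ⟪v, y⟫ := mul_le_mul_of_nonneg_left ky.1 hb.le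
    linarith
  have e2 : ⟪v, y⟫ = ⟪v, p⟫ := by
    apply le_antisymm _ ky.1
    by_contra hcon
    push Not at hcon
    have h1 : b * ⟪v, p⟫ < b * ⟪v, y⟫ := mul_lt_mul_of_pos_left hcon hb
    have h2 : (1 - b) * ⟪v, p⟫ ≤ (1 - b) * ⟪v, x⟫ := mul_le_mul_of_nonneg_left kx.1 ha.le
    linarith
  exact ⟨kx.2 e1, ky.2 e2⟩

theorem par_one (j : ℕ) : par j 1 = -(3 ^ j) / 2 := by simp [par]

theorem par_ge (j i : ℕ) (hi : 2 ≤ i) : par j i = 3 ^ i := by
  unfold par
  rw [if_neg (by omega)]

theorem pow3_ge (j : ℕ) (hj : 3 ≤ j) : (27 : ℝ) ≤ 3 ^ j := by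
  calc (27 : ℝ) = 3 ^ 3 := by norm_num
    _ ≤ 3 ^ j := pow_le_pow_right₀ (by norm_num) hj

theorem par_lt (j i k : ℕ) (hi : 1 ≤ i) (hik : i < k) : par j i < par j k := by
  rw [par_ge j k (by omega)]
  rcases Nat.lt_or_ge i 2 with h | h
  · obtain rfl : i = 1 := by omega
    rw [par_one]
    have h1 : (0 : ℝ) < 3 ^ j := by positivity
    have h2 : (0 : ℝ) < 3 ^ k := by positivity
    linarith
  · rw [par_ge j i h]
    exact pow_lt_pow_right₀ (by norm_num) hik

/-- a moment curve point is extreme as soon as a functional with positive first coordinate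
separates it from the others -/
theorem eventually_extremal (m j i : ℕ) (hi : i ∈ Finset.Icc 1 m) (a b c : ℝ) (ha : 0 < a)
    (h : ∀ k ∈ Finset.Icc 1 m, k ≠ i →
      a * par j i + b * par j i ^ 2 + c * par j i ^ 3 <
        a * par j k + b * par j k ^ 2 + c * par j k ^ 3) :
    ∀ᶠ L : ℝ in atTop, gam (par j i) ∈ extremal (TT m j L) := by
  have h1 : ∀ᶠ L : ℝ in atTop, a * par j i + b * par j i ^ 2 + c * par j i ^ 3 < a * L :=
    (tendsto_id.const_mul_atTop ha).eventually_gt_atTop _
  filter_upwards [h1] with L hL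
  refine expose _ _ ?_ !₂[a, b, c] ?_
  · unfold TT
    exact Finset.mem_insert_of_mem (Finset.mem_image_of_mem _ hi)
  · intro x hx hne
    unfold TT at hx
    rw [Finset.mem_insert, Finset.mem_image] at hx
    rcases hx with rfl | ⟨k, hk, rfl⟩
    · unfold gam aa
      rw [inner_mk, inner_mk]
      linarith
    · have hki : k ≠ i := by
        rintro rfl
        exact hne rfl
      unfold gam
      rw [inner_mk, inner_mk]
      exact h k hk hki

theorem ext_aa (m j : ℕ) : ∀ᶠ L : ℝ in atTop, aa L ∈ extremal (TT m j L) := by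
  have h1 : ∀ᶠ L : ℝ in atTop, ∀ i ∈ Finset.Icc 1 m, par j i < L := by
    rw [Filter.eventually_all_finset]
    intro i _
    exact eventually_gt_atTop _
  filter_upwards [h1] with L hL
  refine expose _ _ (Finset.mem_insert_self _ _) !₂[-1, 0, 0] ?_
  intro x hx hne
  unfold TT at hx
  rw [Finset.mem_insert, Finset.mem_image] at hx
  rcases hx with rfl | ⟨k, hk, rfl⟩
  · exact absurd rfl hne
  · unfold gam aa
    rw [inner_mk, inner_mk]
    have := hL k hk
    linarith

theorem ext_one (m j : ℕ) (hm : 1 ≤ m) :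
    ∀ᶠ L : ℝ in atTop, gam (par j 1) ∈ extremal (TT m j L) := by
  refine eventually_extremal m j 1 (by simp [hm]) 1 0 0 one_pos ?_
  intro k hk hk1
  rw [Finset.mem_Icc] at hk
  have := par_lt j 1 k le_rfl (by omega)
  linarith

theorem ext_top (m j : ℕ) (hj : 3 ≤ j) (hjm : j ≤ m) :
    ∀ᶠ L : ℝ in atTop, gam (par j m) ∈ extremal (TT m j L) := by
  filter_upwards [eventually_gt_atTop (0 : ℝ)] with L hL
  have hmpos : (0 : ℝ) < 3 ^ m := by positivity
  refine expose _ _ ?_ !₂[0, -1, 0] ?_
  · unfold TT
    exact Finset.mem_insert_of_mem (Finset.mem_image_of_mem _ (by simp; omega))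
  · intro x hx hne
    unfold TT at hx
    rw [Finset.mem_insert, Finset.mem_image] at hx
    rcases hx with rfl | ⟨k, hk, rfl⟩
    · unfold gam aa
      rw [inner_mk, inner_mk, par_ge j m (by omega)]
      have : (0 : ℝ) < (3 ^ m) ^ 2 := by positivity
      linarith
    · have hkm : k ≠ m := by
        rintro rfl
        exact hne rfl
      rw [Finset.mem_Icc] at hk
      unfold gam
      rw [inner_mk, inner_mk, par_ge j m (by omega)]
      have : par j k ^ 2 < (3 ^ m) ^ 2 := by
        apply sq_lt_sq'
        · rcases Nat.lt_or_ge k 2 with h | h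
          · obtain rfl : k = 1 := by omega
            rw [par_one]
            have : (3 : ℝ) ^ j ≤ 3 ^ m := pow_le_pow_right₀ (by norm_num) hjm
            linarith
          · rw [par_ge j k h]
            have : (0 : ℝ) < 3 ^ k := by positivity
            linarith
        · have := par_lt j k m hk.1 (by omega)
          rwa [par_ge j m (by omega)] at this
      linarith

theorem par_le (j i k : ℕ) (hi : 1 ≤ i) (hik : i ≤ k) : par j i ≤ par j k := by
  rcases Nat.eq_or_lt_of_le hik with h | h
  · rw [h]
  · exact (par_lt j i k hi h).le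

theorem par_ne (j i k : ℕ) (hi : 1 ≤ i) (hk : 1 ≤ k) (hik : i ≠ k) : par j i ≠ par j k := by
  rcases Nat.lt_or_gt_of_ne hik with h | h
  · exact (par_lt j i k hi h).ne
  · exact (par_lt j k i hk h).ne'

theorem ext_mid (m j i : ℕ) (hj : 3 ≤ j) (hji : j ≤ i) (him : i < m) :
    ∀ᶠ L : ℝ in atTop, gam (par j i) ∈ extremal (TT m j L) := by
  have e1 : par j i = 3 ^ i := par_ge j i (by omega)
  have e2 : par j (i + 1) = 3 * 3 ^ i := by rw [par_ge j (i + 1) (by omega)]; ring
  have hP : (3 : ℝ) ^ j ≤ 3 ^ i := pow_le_pow_right₀ (by norm_num) hji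
  have hJ := pow3_ge j hj
  refine eventually_extremal m j i (by simp; omega)
    (-2 * par j i + (par j 1 * par j i + par j 1 * par j (i + 1) + par j i * par j (i + 1)))
    (1 - (par j 1 + par j i + par j (i + 1))) 1 ?_ ?_
  · rw [e1, e2, par_one]
    nlinarith
  · intro k hk hki
    rw [Finset.mem_Icc] at hk
    have hpos : 0 < (par j k - par j i) ^ 2 := by
      have : par j k - par j i ≠ 0 := sub_ne_zero.2 (par_ne j k i hk.1 (by omega) hki)
      positivity
    have h0 : 0 ≤ par j k - par j 1 := sub_nonneg.2 (par_le j 1 k le_rfl hk.1)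
    have h1 : 0 ≤ (par j k - par j i) * (par j k - par j (i + 1)) := by
      rcases Nat.lt_or_ge i k with h | h
      · exact mul_nonneg (sub_nonneg.2 (par_le j i k (by omega) (by omega)))
          (sub_nonneg.2 (par_le j (i + 1) k (by omega) (by omega)))
      · exact mul_nonneg_of_nonpos_of_nonpos (sub_nonpos.2 (par_le j k i hk.1 (by omega)))
          (sub_nonpos.2 (par_le j k (i + 1) hk.1 (by omega)))
    have hprod := mul_nonneg h0 h1
    have key : ((-2 * par j i + (par j 1 * par j i + par j 1 * par j (i + 1) +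
        par j i * par j (i + 1))) * par j k + (1 - (par j 1 + par j i + par j (i + 1))) *
        par j k ^ 2 + 1 * par j k ^ 3) -
        ((-2 * par j i + (par j 1 * par j i + par j 1 * par j (i + 1) +
        par j i * par j (i + 1))) * par j i + (1 - (par j 1 + par j i + par j (i + 1))) *
        par j i ^ 2 + 1 * par j i ^ 3) = (par j k - par j i) ^ 2 +
        (par j k - par j 1) * ((par j k - par j i) * (par j k - par j (i + 1))) := by
      ring
    linarith

theorem ext_two (m j : ℕ) (hj : 3 ≤ j) (hjm : j ≤ m) :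
    ∀ᶠ L : ℝ in atTop, gam (par j 2) ∈ extremal (TT m j L) := by
  have e2 : par j 2 = 9 := by rw [par_ge j 2 le_rfl]; norm_num
  have em : par j m = 3 ^ m := par_ge j m (by omega)
  have hJ := pow3_ge j hj
  have hM : (0 : ℝ) < 3 ^ m := by positivity
  refine eventually_extremal m j 2 (by simp; omega)
    (-2 * par j 2 - (par j 1 * par j 2 + par j 1 * par j m + par j 2 * par j m))
    (1 + (par j 1 + par j 2 + par j m)) (-1) ?_ ?_
  · rw [e2, em, par_one]
    nlinarith
  · intro k hk hki
    rw [Finset.mem_Icc] at hk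
    have hpos : 0 < (par j k - par j 2) ^ 2 := by
      have : par j k - par j 2 ≠ 0 := sub_ne_zero.2 (par_ne j k 2 hk.1 (by omega) hki)
      positivity
    have hprod : (par j k - par j 1) * ((par j k - par j 2) * (par j k - par j m)) ≤ 0 := by
      rcases Nat.lt_or_ge 1 k with h | h
      · refine mul_nonpos_of_nonneg_of_nonpos (sub_nonneg.2 (par_le j 1 k le_rfl hk.1)) ?_
        exact mul_nonpos_of_nonneg_of_nonpos (sub_nonneg.2 (par_le j 2 k (by omega) (by omega)))
          (sub_nonpos.2 (par_le j k m hk.1 hk.2))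
      · obtain rfl : k = 1 := by omega
        simp
    have key : ((-2 * par j 2 - (par j 1 * par j 2 + par j 1 * par j m +
        par j 2 * par j m)) * par j k + (1 + (par j 1 + par j 2 + par j m)) *
        par j k ^ 2 + (-1) * par j k ^ 3) -
        ((-2 * par j 2 - (par j 1 * par j 2 + par j 1 * par j m +
        par j 2 * par j m)) * par j 2 + (1 + (par j 1 + par j 2 + par j m)) *
        par j 2 ^ 2 + (-1) * par j 2 ^ 3) = (par j k - par j 2) ^ 2 -
        (par j k - par j 1) * ((par j k - par j 2) * (par j k - par j m)) := by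
      ring
    linarith

theorem gam_inj {s t : ℝ} (h : gam s = gam t) : s = t := by
  have := congrArg (fun p : E3 => p 0) h
  simpa [gam] using this

theorem gam_ne_aa {t L : ℝ} (ht : t ≠ 0) : gam t ≠ aa L := by
  intro h
  have := congrArg (fun p : E3 => p 1) h
  simp [gam, aa] at this
  exact ht this

theorem par_ne_zero (j i : ℕ) : par j i ≠ 0 := by
  unfold par
  split_ifs
  · have : (0 : ℝ) < 3 ^ j := by positivity
    intro h
    linarith
  · positivity

theorem extremal_count (m j : ℕ) (hj : 3 ≤ j) (hjm : j ≤ m) :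
    ∀ᶠ L : ℝ in atTop, m + 4 - j ≤ (extremal (TT m j L)).ncard := by
  classical
  have hall : ∀ᶠ L : ℝ in atTop, ∀ i ∈ ({1, 2} ∪ Finset.Icc j m : Finset ℕ),
      gam (par j i) ∈ extremal (TT m j L) := by
    rw [Filter.eventually_all_finset]
    intro i hi
    simp only [Finset.mem_union, Finset.mem_insert, Finset.mem_singleton, Finset.mem_Icc] at hi
    rcases hi with (rfl | rfl) | hi
    · exact ext_one m j (by omega)
    · exact ext_two m j hj hjm
    · rcases Nat.eq_or_lt_of_le hi.2 with h | h
      · rw [h]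
        exact ext_top m j hj hjm
      · exact ext_mid m j i hj hi.1 h
  filter_upwards [hall, ext_aa m j] with L h1 h2
  set I : Finset ℕ := {1, 2} ∪ Finset.Icc j m with hI
  have hI1 : ∀ i ∈ I, 1 ≤ i := by
    intro i hi
    simp only [hI, Finset.mem_union, Finset.mem_insert, Finset.mem_singleton,
      Finset.mem_Icc] at hi
    omega
  have hIc : I.card = m + 3 - j := by
    rw [hI, Finset.card_union_of_disjoint]
    · simp
      omega
    · rw [Finset.disjoint_left]
      intro a ha hb
      simp only [Finset.mem_insert, Finset.mem_singleton, Finset.mem_Icc] at ha hb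
      omega
  set U : Finset E3 := insert (aa L) (I.image (fun i => gam (par j i))) with hU
  have hUc : U.card = m + 4 - j := by
    rw [hU, Finset.card_insert_of_notMem, Finset.card_image_of_injOn, hIc]
    · omega
    · intro a ha b hb hab
      by_contra hne
      exact par_ne j a b (hI1 a ha) (hI1 b hb) hne (gam_inj hab)
    · rw [Finset.mem_image]
      rintro ⟨i, -, hi⟩
      exact gam_ne_aa (par_ne_zero j i) hi
  have hsub : (U : Set E3) ⊆ extremal (TT m j L) := by
    intro x hx
    have hx' : x ∈ U := hx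
    rw [hU, Finset.mem_insert, Finset.mem_image] at hx'
    rcases hx' with rfl | ⟨i, hi, rfl⟩
    · exact h2
    · exact h1 i hi
  have hfin : (extremal (TT m j L)).Finite :=
    (TT m j L).finite_toSet.subset extremePoints_convexHull_subset
  calc m + 4 - j = (U : Set E3).ncard := by rw [Set.ncard_coe_finset, hUc]
    _ ≤ _ := Set.ncard_le_ncard hsub hfin

end Pool.Agent.Helper486.Del.Max2
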