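import Pool.Agent.Helper486.Del.MaxDefs

namespace Pool.Agent.Helper486.Del.Max3

open Finset Filter Topology
open scoped RealInnerProductSpace

lemma inner_gam (v : E3) (t : ℝ) : ⟪v, gam t⟫ = v 0 * t + v 1 * t ^ 2 + v 2 * t ^ 3 := by
  simp [PiLp.inner_apply, Fin.sum_univ_three, gam]
  ring

lemma inner_aa (v : E3) (L : ℝ) : ⟪v, aa L⟫ = v 0 * L := by
  simp [PiLp.inner_apply, Fin.sum_univ_three, aa]
  ring

lemma dist_gam {c : E3} {r t : ℝ} (h : dist (gam t) c = r) :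
    t ^ 6 + t ^ 4 + t ^ 2 = (2 * c 2) * t ^ 3 + (2 * c 1) * t ^ 2 + (2 * c 0) * t +
      (r ^ 2 - c 0 ^ 2 - c 1 ^ 2 - c 2 ^ 2) := by
  have h2 : dist (gam t) c ^ 2 = r ^ 2 := by rw [h]
  rw [EuclideanSpace.dist_eq, Real.sq_sqrt (Finset.sum_nonneg fun i _ => sq_nonneg _)] at h2
  simp only [Fin.sum_univ_three, Real.dist_eq, sq_abs, gam] at h2
  simp at h2
  linear_combination h2

lemma dist_aa {c : E3} {r L : ℝ} (h : dist (aa L) c = r) :
    L ^ 2 = (2 * c 0) * L + (r ^ 2 - c 0 ^ 2 - c 1 ^ 2 - c 2 ^ 2) := by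
  have h2 : dist (aa L) c ^ 2 = r ^ 2 := by rw [h]
  rw [EuclideanSpace.dist_eq, Real.sq_sqrt (Finset.sum_nonneg fun i _ => sq_nonneg _)] at h2
  simp only [Fin.sum_univ_three, Real.dist_eq, sq_abs, aa] at h2
  simp at h2
  linear_combination h2

lemma par_ne_zero (j i : ℕ) : par j i ≠ 0 := by
  unfold par
  split_ifs
  · have : (3 : ℝ) ^ j > 0 := by positivity
    intro h
    linarith
  · positivity

lemma par_inj {j i k : ℕ} (hi : 1 ≤ i) (hk : 1 ≤ k) (h : par j i = par j k) : i = k := by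
  unfold par at h
  have h3 : (3 : ℝ) ^ j > 0 := by positivity
  split_ifs at h with h1 h2 h2
  · omega
  · have : (3 : ℝ) ^ k > 0 := by positivity
    linarith
  · have : (3 : ℝ) ^ i > 0 := by positivity
    linarith
  · exact pow_right_injective₀ (by norm_num) (by norm_num) h

lemma gam_inj {s t : ℝ} (h : gam s = gam t) : s = t := by
  have := congrArg (fun x : E3 => x 0) h
  simpa [gam] using this

lemma aa_ne_gam {L t : ℝ} (ht : t ≠ 0) : aa L ≠ gam t := by
  intro h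
  have := congrArg (fun x : E3 => x 1) h
  simp [gam, aa] at this
  exact ht (pow_eq_zero_iff (two_ne_zero) |>.1 this.symm)

/-- the plane through three points of the curve -/
lemma plane3 {p q r a b d c : ℝ} (hpq : p ≠ q) (hpr : p ≠ r) (hqr : q ≠ r)
    (h1 : a * p + b * p ^ 2 + d * p ^ 3 = c) (h2 : a * q + b * q ^ 2 + d * q ^ 3 = c)
    (h3 : a * r + b * r ^ 2 + d * r ^ 3 = c) :
    b = -d * (p + q + r) ∧ a = d * (p * q + p * r + q * r) ∧ c = d * (p * q * r) := by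
  have e1 : a + b * (p + q) + d * (p ^ 2 + p * q + q ^ 2) = 0 :=
    mul_left_cancel₀ (sub_ne_zero.2 hpq) (by linear_combination h1 - h2)
  have e2 : a + b * (p + r) + d * (p ^ 2 + p * r + r ^ 2) = 0 :=
    mul_left_cancel₀ (sub_ne_zero.2 hpr) (by linear_combination h1 - h3)
  have e3 : b + d * (p + q + r) = 0 :=
    mul_left_cancel₀ (sub_ne_zero.2 hqr) (by linear_combination e1 - e2)
  have hb : b = -d * (p + q + r) := by linear_combination e3
  have ha : a = d * (p * q + p * r + q * r) := by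
    linear_combination e1 - (p + q) * e3
  refine ⟨hb, ha, ?_⟩
  rw [← h1, hb, ha]
  ring

lemma plane4 {p q r s a b d c : ℝ} (hpq : p ≠ q) (hpr : p ≠ r) (hqr : q ≠ r)
    (hps : p ≠ s) (hqs : q ≠ s) (hrs : r ≠ s)
    (h1 : a * p + b * p ^ 2 + d * p ^ 3 = c) (h2 : a * q + b * q ^ 2 + d * q ^ 3 = c)
    (h3 : a * r + b * r ^ 2 + d * r ^ 3 = c) (h4 : a * s + b * s ^ 2 + d * s ^ 3 = c) :
    a = 0 ∧ b = 0 ∧ d = 0 := by
  obtain ⟨hb, ha, hc⟩ := plane3 hpq hpr hqr h1 h2 h3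
  have hd : d = 0 := by
    have h5 : (s - p) * ((s - q) * ((s - r) * d)) = 0 := by
      rw [hb, ha, hc] at h4
      linear_combination h4
    rcases mul_eq_zero.1 h5 with h | h
    · exact absurd (sub_eq_zero.1 h).symm hps
    rcases mul_eq_zero.1 h with h | h
    · exact absurd (sub_eq_zero.1 h).symm hqs
    rcases mul_eq_zero.1 h with h | h
    · exact absurd (sub_eq_zero.1 h).symm hrs
    exact h
  refine ⟨?_, ?_, hd⟩
  · rw [ha, hd]; ring
  · rw [hb, hd]; ring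

/-- the sphere through four points of the curve: coefficients -/
lemma sphere4 {p q r s a b d c : ℝ} (hpq : p ≠ q) (hpr : p ≠ r) (hqr : q ≠ r)
    (hps : p ≠ s) (hqs : q ≠ s) (hrs : r ≠ s)
    (h1 : p ^ 6 + p ^ 4 + p ^ 2 = a * p ^ 3 + b * p ^ 2 + d * p + c)
    (h2 : q ^ 6 + q ^ 4 + q ^ 2 = a * q ^ 3 + b * q ^ 2 + d * q + c)
    (h3 : r ^ 6 + r ^ 4 + r ^ 2 = a * r ^ 3 + b * r ^ 2 + d * r + c)
    (h4 : s ^ 6 + s ^ 4 + s ^ 2 = a * s ^ 3 + b * s ^ 2 + d * s + c) :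
    ∀ t : ℝ, t ^ 6 + t ^ 4 + t ^ 2 - (a * t ^ 3 + b * t ^ 2 + d * t + c) =
      (t - p) * (t - q) * (t - r) * (t - s) *
        (t ^ 2 + (p + q + r + s) * t + (1 + (p + q + r + s) ^ 2 -
          (p * q + p * r + p * s + q * r + q * s + r * s))) := by
  -- the difference is a cubic with four roots
  set β : ℝ := 1 + (p + q + r + s) ^ 2 - (p * q + p * r + p * s + q * r + q * s + r * s) with hβ
  set e1 : ℝ := p + q + r + s with he1
  set e2 : ℝ := p * q + p * r + p * s + q * r + q * s + r * s with he2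
  set e3 : ℝ := p * q * r + p * q * s + p * r * s + q * r * s with he3
  set e4 : ℝ := p * q * r * s with he4
  have key : ∀ t : ℝ, t ^ 6 + t ^ 4 + t ^ 2 - (t - p) * (t - q) * (t - r) * (t - s) *
      (t ^ 2 + e1 * t + β) =
      (e1 * β - e1 * e2 + e3) * t ^ 3 + (1 - e2 * β + e1 * e3 - e4) * t ^ 2 +
        (e3 * β - e1 * e4) * t + (-(e4 * β)) := by
    intro t
    rw [hβ, he1, he2, he3, he4]
    ring
  have g : ∀ t : ℝ, (t - p) * (t - q) * (t - r) * (t - s) = 0 →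
      t ^ 6 + t ^ 4 + t ^ 2 = a * t ^ 3 + b * t ^ 2 + d * t + c →
      (d - (e3 * β - e1 * e4)) * t + (b - (1 - e2 * β + e1 * e3 - e4)) * t ^ 2 +
        (a - (e1 * β - e1 * e2 + e3)) * t ^ 3 = -c - e4 * β := by
    intro t ht h
    have hk := key t
    linear_combination hk - h + (t ^ 2 + e1 * t + β) * ht
  have k1 := g p (by ring) h1
  have k2 := g q (by ring) h2
  have k3 := g r (by ring) h3
  have k4 := g s (by ring) h4
  obtain ⟨z1, z2, z3⟩ := plane4 hpq hpr hqr hps hqs hrs k1 k2 k3 k4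
  have z4 : c = -(e4 * β) := by
    rw [z1, z2, z3] at k1
    linear_combination k1
  intro t
  have hk := key t
  linear_combination hk - t * z1 - t ^ 2 * z2 - t ^ 3 * z3 - z4

lemma sphere5 {p q r s u a b d c : ℝ} (hpq : p ≠ q) (hpr : p ≠ r) (hqr : q ≠ r)
    (hps : p ≠ s) (hqs : q ≠ s) (hrs : r ≠ s)
    (hpu : p ≠ u) (hqu : q ≠ u) (hru : r ≠ u) (hsu : s ≠ u)
    (h1 : p ^ 6 + p ^ 4 + p ^ 2 = a * p ^ 3 + b * p ^ 2 + d * p + c)
    (h2 : q ^ 6 + q ^ 4 + q ^ 2 = a * q ^ 3 + b * q ^ 2 + d * q + c)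
    (h3 : r ^ 6 + r ^ 4 + r ^ 2 = a * r ^ 3 + b * r ^ 2 + d * r + c)
    (h4 : s ^ 6 + s ^ 4 + s ^ 2 = a * s ^ 3 + b * s ^ 2 + d * s + c)
    (h5 : u ^ 6 + u ^ 4 + u ^ 2 = a * u ^ 3 + b * u ^ 2 + d * u + c) : False := by
  have h := sphere4 hpq hpr hqr hps hqs hrs h1 h2 h3 h4 u
  rw [sub_eq_zero.2 h5] at h
  have hpos : 0 < u ^ 2 + (p + q + r + s) * u + (1 + (p + q + r + s) ^ 2 -
      (p * q + p * r + p * s + q * r + q * s + r * s)) := by
    nlinarith [sq_nonneg (p + q + r + s + u), sq_nonneg u, sq_nonneg p, sq_nonneg q,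
      sq_nonneg r, sq_nonneg s]
  have h6 : (u - p) * (u - q) * (u - r) * (u - s) ≠ 0 :=
    mul_ne_zero (mul_ne_zero (mul_ne_zero (sub_ne_zero.2 hpu.symm) (sub_ne_zero.2 hqu.symm))
      (sub_ne_zero.2 hru.symm)) (sub_ne_zero.2 hsu.symm)
  exact (mul_ne_zero h6 hpos.ne') h.symm

lemma ev_plane (e f : ℝ) (hf : f ≠ 0) : ∀ᶠ L : ℝ in atTop, e * L - f ≠ 0 := by
  by_cases he : e = 0
  · refine Eventually.of_forall fun L => ?_
    rw [he, zero_mul, zero_sub]
    exact neg_ne_zero.2 hf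
  · filter_upwards [eventually_ne_atTop (f / e)] with L hL h
    apply hL
    rw [eq_div_iff he]
    linear_combination h

lemma ev_sphere (a b : ℝ) : ∀ᶠ L : ℝ in atTop, L ^ 2 ≠ a * L + b := by
  filter_upwards [eventually_gt_atTop (|a| + |b| + 1)] with L hL h
  have h1 := abs_nonneg a
  have h2 := abs_nonneg b
  have h3 := le_abs_self a
  have h4 := le_abs_self b
  have h5 : a * L ≤ |a| * L := mul_le_mul_of_nonneg_right h3 (by linarith)
  nlinarith

lemma exists4 {α : Type*} [DecidableEq α] {s : Finset α} (h : s.card = 4) :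
    ∃ a b c d : α, a ∈ s ∧ b ∈ s ∧ c ∈ s ∧ d ∈ s ∧ a ≠ b ∧ a ≠ c ∧ b ≠ c ∧ a ≠ d ∧ b ≠ d ∧
      c ≠ d := by
  obtain ⟨d, t, hd, rfl, ht⟩ := Finset.card_eq_succ.1 h
  obtain ⟨a, b, c, hab, hac, hbc, rfl⟩ := Finset.card_eq_three.1 ht
  simp only [Finset.mem_insert, Finset.mem_singleton, not_or] at hd
  exact ⟨a, b, c, d, by simp, by simp, by simp, by simp, hab, hac, hbc, Ne.symm hd.1,
    Ne.symm hd.2.1, Ne.symm hd.2.2⟩

lemma exists5 {α : Type*} [DecidableEq α] {s : Finset α} (h : s.card = 5) :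
    ∃ a b c d e : α, a ∈ s ∧ b ∈ s ∧ c ∈ s ∧ d ∈ s ∧ e ∈ s ∧ a ≠ b ∧ a ≠ c ∧ b ≠ c ∧ a ≠ d ∧
      b ≠ d ∧ c ≠ d ∧ a ≠ e ∧ b ≠ e ∧ c ≠ e ∧ d ≠ e := by
  obtain ⟨e, t, he, rfl, ht⟩ := Finset.card_eq_succ.1 h
  obtain ⟨a, b, c, d, ha, hb, hc, hd, hab, hac, hbc, had, hbd, hcd⟩ := exists4 ht
  exact ⟨a, b, c, d, e, by simp [ha], by simp [hb], by simp [hc], by simp [hd], by simp,
    hab, hac, hbc, had, hbd, hcd, fun h => he (h ▸ ha), fun h => he (h ▸ hb),
    fun h => he (h ▸ hc), fun h => he (h ▸ hd)⟩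

lemma curve_of_mem {m j : ℕ} {L : ℝ} {x : E3} (hx : x ∈ TT m j L) (hne : x ≠ aa L) :
    ∃ i ∈ Finset.Icc 1 m, x = gam (par j i) := by
  unfold TT at hx
  rcases Finset.mem_insert.1 hx with h | h
  · exact absurd h hne
  · obtain ⟨i, hi, rfl⟩ := Finset.mem_image.1 h
    exact ⟨i, hi, rfl⟩

lemma card_TT (m j : ℕ) (L : ℝ) : (TT m j L).card = m + 1 := by
  unfold TT
  rw [Finset.card_insert_of_notMem, Finset.card_image_of_injOn, Nat.card_Icc]
  · omega
  · intro i hi k hk h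
    rw [Finset.coe_Icc, Set.mem_Icc] at hi hk
    exact par_inj hi.1 hk.1 (gam_inj h)
  · intro h
    obtain ⟨i, _, h⟩ := Finset.mem_image.1 h
    exact aa_ne_gam (par_ne_zero j i) h.symm

theorem generic_TT (m j : ℕ) (hj : 3 ≤ j) (hjm : j ≤ m) :
    ∀ᶠ L : ℝ in atTop, (TT m j L).card = m + 1 ∧ NotInPlane (TT m j L) ∧
      NoFiveCospherical (TT m j L) ∧ NoFourCoplanar (TT m j L) := by
  -- finitely many conditions
  have hP : ∀ᶠ L : ℝ in atTop, ∀ i ∈ Finset.Icc 1 m, ∀ k ∈ Finset.Icc 1 m,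
      ∀ l ∈ Finset.Icc 1 m,
      (par j i * par j k + par j i * par j l + par j k * par j l) * L -
        (par j i * par j k * par j l) ≠ 0 := by
    rw [Filter.eventually_all_finset]
    intro i _
    rw [Filter.eventually_all_finset]
    intro k _
    rw [Filter.eventually_all_finset]
    intro l _
    exact ev_plane _ _ (mul_ne_zero (mul_ne_zero (par_ne_zero j i) (par_ne_zero j k))
      (par_ne_zero j l))
  have hS : ∀ᶠ L : ℝ in atTop, ∀ i ∈ Finset.Icc 1 m, ∀ k ∈ Finset.Icc 1 m,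
      ∀ l ∈ Finset.Icc 1 m, ∀ n ∈ Finset.Icc 1 m, ∀ a b c d : ℝ,
      par j i ≠ par j k → par j i ≠ par j l → par j k ≠ par j l → par j i ≠ par j n →
      par j k ≠ par j n → par j l ≠ par j n →
      (par j i) ^ 6 + (par j i) ^ 4 + (par j i) ^ 2 =
        a * (par j i) ^ 3 + b * (par j i) ^ 2 + d * (par j i) + c →
      (par j k) ^ 6 + (par j k) ^ 4 + (par j k) ^ 2 =
        a * (par j k) ^ 3 + b * (par j k) ^ 2 + d * (par j k) + c →
      (par j l) ^ 6 + (par j l) ^ 4 + (par j l) ^ 2 =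
        a * (par j l) ^ 3 + b * (par j l) ^ 2 + d * (par j l) + c →
      (par j n) ^ 6 + (par j n) ^ 4 + (par j n) ^ 2 =
        a * (par j n) ^ 3 + b * (par j n) ^ 2 + d * (par j n) + c →
      L ^ 2 ≠ d * L + c := by
    rw [Filter.eventually_all_finset]
    intro i _
    rw [Filter.eventually_all_finset]
    intro k _
    rw [Filter.eventually_all_finset]
    intro l _
    rw [Filter.eventually_all_finset]
    intro n _
    set p := par j i
    set q := par j k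
    set r := par j l
    set s := par j n
    -- the polynomial of the sphere at `0` and `1` determine `c` and `d`
    set G : ℝ → ℝ := fun t => (t - p) * (t - q) * (t - r) * (t - s) *
        (t ^ 2 + (p + q + r + s) * t + (1 + (p + q + r + s) ^ 2 -
          (p * q + p * r + p * s + q * r + q * s + r * s))) with hG
    have key : ∀ a b c d : ℝ, (∀ t : ℝ, t ^ 6 + t ^ 4 + t ^ 2 -
        (a * t ^ 3 + b * t ^ 2 + d * t + c) = G t) →
        c = -G 0 ∧ d = (-8 * G 1 + 8 * G (-1) + G 2 - G (-2)) / 12 := by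
      intro a b c d h
      have h0 := h 0
      have h1 := h 1
      have h2 := h (-1)
      have h3 := h 2
      have h4 := h (-2)
      constructor
      · linear_combination -h0
      · linear_combination (-8 / 12) * h1 + (8 / 12) * h2 + (1 / 12) * h3 - (1 / 12) * h4
    filter_upwards [ev_sphere ((-8 * G 1 + 8 * G (-1) + G 2 - G (-2)) / 12) (-G 0)]
      with L hL a b c d hpq hpr hqr hps hqs hrs h1 h2 h3 h4
    obtain ⟨hc, hd⟩ := key a b c d (sphere4 hpq hpr hqr hps hqs hrs h1 h2 h3 h4)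
    rw [hc, hd]
    exact hL
  filter_upwards [hP, hS] with L hPL hSL
  have hfour : NoFourCoplanar (TT m j L) := by
    intro S hST hS4 hpl
    obtain ⟨v, hv, c, hvc⟩ := hpl
    have hne : ∀ x ∈ S, ∀ y ∈ S, x ≠ y → ∀ s t : ℝ, x = gam s → y = gam t → s ≠ t := by
      intro x _ y _ hxy s t hs ht hst
      exact hxy (by rw [hs, ht, hst])
    have hv0 : ¬ (v 0 = 0 ∧ v 1 = 0 ∧ v 2 = 0) := by
      rintro ⟨h0, h1, h2⟩
      apply hv
      ext i
      fin_cases i
      · exact h0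
      · exact h1
      · exact h2
    by_cases ha : aa L ∈ S
    · have hcard : (S.erase (aa L)).card = 3 := by rw [Finset.card_erase_of_mem ha, hS4]
      obtain ⟨x, y, z, hxy, hxz, hyz, hS'⟩ := Finset.card_eq_three.1 hcard
      have hx : x ∈ S.erase (aa L) := by rw [hS']; simp
      have hy : y ∈ S.erase (aa L) := by rw [hS']; simp
      have hz : z ∈ S.erase (aa L) := by rw [hS']; simp
      rw [Finset.mem_erase] at hx hy hz
      obtain ⟨i, hi, hxi⟩ := curve_of_mem (hST hx.2) hx.1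
      obtain ⟨k, hk, hyk⟩ := curve_of_mem (hST hy.2) hy.1
      obtain ⟨l, hl, hzl⟩ := curve_of_mem (hST hz.2) hz.1
      have h1 := hvc x hx.2
      have h2 := hvc y hy.2
      have h3 := hvc z hz.2
      have h4 := hvc _ ha
      rw [hxi, inner_gam] at h1
      rw [hyk, inner_gam] at h2
      rw [hzl, inner_gam] at h3
      rw [inner_aa] at h4
      obtain ⟨hb, ha', hc⟩ := plane3 (hne x hx.2 y hy.2 hxy _ _ hxi hyk)
        (hne x hx.2 z hz.2 hxz _ _ hxi hzl) (hne y hy.2 z hz.2 hyz _ _ hyk hzl) h1 h2 h3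
      have h5 := hPL i hi k hk l hl
      have h6 : v 2 * ((par j i * par j k + par j i * par j l + par j k * par j l) * L -
        (par j i * par j k * par j l)) = 0 := by
        linear_combination h4 - L * ha' + hc
      have h7 : v 2 = 0 := (mul_eq_zero.1 h6).resolve_right h5
      apply hv0
      refine ⟨?_, ?_, h7⟩
      · rw [ha', h7]; ring
      · rw [hb, h7]; ring
    · obtain ⟨x, y, z, w, hx, hy, hz, hw, hxy, hxz, hyz, hxw, hyw, hzw⟩ := exists4 hS4
      have hna : ∀ x ∈ S, x ≠ aa L := fun x hx h => ha (h ▸ hx)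
      obtain ⟨i, hi, hxi⟩ := curve_of_mem (hST hx) (hna x hx)
      obtain ⟨k, hk, hyk⟩ := curve_of_mem (hST hy) (hna y hy)
      obtain ⟨l, hl, hzl⟩ := curve_of_mem (hST hz) (hna z hz)
      obtain ⟨n, hn, hwn⟩ := curve_of_mem (hST hw) (hna w hw)
      have h1 := hvc x hx
      have h2 := hvc y hy
      have h3 := hvc z hz
      have h4 := hvc w hw
      rw [hxi, inner_gam] at h1
      rw [hyk, inner_gam] at h2
      rw [hzl, inner_gam] at h3
      rw [hwn, inner_gam] at h4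
      exact hv0 (plane4 (hne x hx y hy hxy _ _ hxi hyk) (hne x hx z hz hxz _ _ hxi hzl)
        (hne y hy z hz hyz _ _ hyk hzl) (hne x hx w hw hxw _ _ hxi hwn)
        (hne y hy w hw hyw _ _ hyk hwn) (hne z hz w hw hzw _ _ hzl hwn) h1 h2 h3 h4)
  refine ⟨card_TT m j L, ?_, ?_, hfour⟩
  · rintro ⟨v, hv, c, hvc⟩
    obtain ⟨S, hST, hS4⟩ := Finset.exists_subset_card_eq (s := TT m j L) (n := 4)
      (by rw [card_TT]; omega)
    exact hfour S hST hS4 ⟨v, hv, c, fun p hp => hvc p (hST hp)⟩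
  · intro S hST hS5 hsp
    obtain ⟨c, r, hcr⟩ := hsp
    have hne : ∀ x ∈ S, ∀ y ∈ S, x ≠ y → ∀ s t : ℝ, x = gam s → y = gam t → s ≠ t := by
      intro x _ y _ hxy s t hs ht hst
      exact hxy (by rw [hs, ht, hst])
    by_cases ha : aa L ∈ S
    · have hcard : (S.erase (aa L)).card = 4 := by rw [Finset.card_erase_of_mem ha, hS5]
      obtain ⟨x, y, z, w, hx, hy, hz, hw, hxy, hxz, hyz, hxw, hyw, hzw⟩ := exists4 hcard
      rw [Finset.mem_erase] at hx hy hz hw
      obtain ⟨i, hi, hxi⟩ := curve_of_mem (hST hx.2) hx.1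
      obtain ⟨k, hk, hyk⟩ := curve_of_mem (hST hy.2) hy.1
      obtain ⟨l, hl, hzl⟩ := curve_of_mem (hST hz.2) hz.1
      obtain ⟨n, hn, hwn⟩ := curve_of_mem (hST hw.2) hw.1
      have h1 := hcr x hx.2
      have h2 := hcr y hy.2
      have h3 := hcr z hz.2
      have h4 := hcr w hw.2
      have h5 := hcr _ ha
      rw [hxi] at h1
      rw [hyk] at h2
      rw [hzl] at h3
      rw [hwn] at h4
      exact hSL i hi k hk l hl n hn _ _ _ _ (hne x hx.2 y hy.2 hxy _ _ hxi hyk)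
        (hne x hx.2 z hz.2 hxz _ _ hxi hzl)
        (hne y hy.2 z hz.2 hyz _ _ hyk hzl) (hne x hx.2 w hw.2 hxw _ _ hxi hwn)
        (hne y hy.2 w hw.2 hyw _ _ hyk hwn) (hne z hz.2 w hw.2 hzw _ _ hzl hwn)
        (dist_gam h1) (dist_gam h2) (dist_gam h3) (dist_gam h4) (dist_aa h5)
    · obtain ⟨x, y, z, w, u, hx, hy, hz, hw, hu, hxy, hxz, hyz, hxw, hyw, hzw, hxu, hyu, hzu,
        hwu⟩ := exists5 hS5
      have hna : ∀ x ∈ S, x ≠ aa L := fun x hx h => ha (h ▸ hx)
      obtain ⟨i, hi, hxi⟩ := curve_of_mem (hST hx) (hna x hx)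
      obtain ⟨k, hk, hyk⟩ := curve_of_mem (hST hy) (hna y hy)
      obtain ⟨l, hl, hzl⟩ := curve_of_mem (hST hz) (hna z hz)
      obtain ⟨n, hn, hwn⟩ := curve_of_mem (hST hw) (hna w hw)
      obtain ⟨o, ho, huo⟩ := curve_of_mem (hST hu) (hna u hu)
      have h1 := hcr x hx
      have h2 := hcr y hy
      have h3 := hcr z hz
      have h4 := hcr w hw
      have h5 := hcr u hu
      rw [hxi] at h1
      rw [hyk] at h2
      rw [hzl] at h3
      rw [hwn] at h4
      rw [huo] at h5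
      exact sphere5 (hne x hx y hy hxy _ _ hxi hyk)
        (hne x hx z hz hxz _ _ hxi hzl)
        (hne y hy z hz hyz _ _ hyk hzl) (hne x hx w hw hxw _ _ hxi hwn)
        (hne y hy w hw hyw _ _ hyk hwn) (hne z hz w hw hzw _ _ hzl hwn)
        (hne x hx u hu hxu _ _ hxi huo) (hne y hy u hu hyu _ _ hyk huo)
        (hne z hz u hu hzu _ _ hzl huo) (hne w hw u hu hwu _ _ hwn huo)
        (dist_gam h1) (dist_gam h2) (dist_gam h3) (dist_gam h4) (dist_gam h5)

end Pool.Agent.Helper486.Del.Max3
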