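import Pool.Agent.Helper486.Del.Chain
import Pool.Agent.Helper486.Del.Max1
import Pool.Agent.Helper486.Del.Max2
import Pool.Agent.Helper486.Del.Max3

namespace Pool.Agent.Helper486.Del

open Finset Filter Topology
open scoped RealInnerProductSpace

variable {T τ S : Finset E3}

/-- the starting configuration -/
noncomputable def T0 : Finset E3 :=
  insert 0 (Finset.univ.image (fun i : Fin 3 => EuclideanSpace.single i (1 : ℝ)))

lemma card_T0 : T0.card = 4 := by
  unfold T0
  rw [Finset.card_insert_of_notMem, Finset.card_image_of_injective, Finset.card_univ,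
    Fintype.card_fin]
  · intro i j hij
    by_contra hne
    have h1 := congrFun (congrArg WithLp.ofLp hij) i
    simp [hne] at h1
  · intro h
    rw [Finset.mem_image] at h
    obtain ⟨i, _, hi⟩ := h
    have h1 := congrFun (congrArg WithLp.ofLp hi) i
    simp at h1

lemma notInPlane_T0 : NotInPlane T0 := by
  rintro ⟨v, hv, c, hc⟩
  have h0 := hc 0 (by unfold T0; simp)
  rw [inner_zero_right] at h0
  apply hv
  ext i
  have h1 := hc (EuclideanSpace.single i (1 : ℝ)) (by unfold T0; simp)
  rw [← h0, EuclideanSpace.inner_single_right] at h1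
  simpa using h1

lemma gp_T0 : GP T0 where
  card := card_T0.ge
  nip := notInPlane_T0
  five := fun S hS hc => by
    have := Finset.card_le_card hS
    rw [hc, card_T0] at this
    omega
  four := fun S hS hc => by
    have : S = T0 := Finset.eq_of_subset_of_card_le hS (by rw [hc, card_T0])
    rw [this]; exact notInPlane_T0

lemma cells_T0 (hσ : Cell ve nsq T0 S) : S = T0 :=
  Finset.eq_of_subset_of_card_le hσ.sub (by rw [hσ.isB.1, card_T0])

/-- stacked configurations -/
lemma stacked (n : ℕ) (hn : 4 ≤ n) :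
    ∃ T y τ, GP T ∧ T.card = n ∧ (cells ve nsq T).card + 3 = n ∧ Leaf T y τ := by
  classical
  induction n, hn using Nat.le_induction with
  | base =>
    obtain ⟨τ, hτ⟩ := exists_cell gp_T0.conf
    have hτe := cells_T0 hτ
    obtain ⟨y, hy⟩ : τ.Nonempty := by rw [← Finset.card_pos, hτ.isB.1]; norm_num
    refine ⟨T0, y, τ, gp_T0, card_T0, ?_, hτ, hy, fun σ hσ _ => by rw [cells_T0 hσ, hτe]⟩
    have h1 : cells ve nsq T0 = {τ} := by
      ext σ
      rw [mem_cells, Finset.mem_singleton]
      exact ⟨fun h => by rw [cells_T0 h, hτe], fun h => h ▸ hτ⟩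
    rw [h1, Finset.card_singleton]
  | succ n _ ih =>
    obtain ⟨T, y, τ, hT, hc, hcells, hy⟩ := ih
    obtain ⟨p, τ', hpT, hgp, hcard, hleaf⟩ := leaf_outside hT hy
    exact ⟨insert p T, p, τ', hgp, by rw [Finset.card_insert_of_notMem hpT, hc],
      by rw [hcard]; omega, hleaf⟩

/-- all points of a stacked configuration are extremal -/
lemma stacked_extremal {n : ℕ} (hT : GP T) (hc : T.card = n)
    (hcells : (cells ve nsq T).card + 3 = n) : (extremal T).ncard = n := by
  have h1 := min_bound_gp hT.nip hT.five hT.four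
  rw [ncard_DT hT.five] at h1
  have h2 : (extremal T).ncard ≤ T.card := by
    rw [ncard_extremal]; exact Finset.card_le_card exF_sub
  omega

/-- minimal configurations in general position -/
lemma min_gp (n n' : ℕ) (h4 : 4 ≤ n') (hn : n' ≤ n) :
    ∃ T, GP T ∧ T.card = n ∧ (extremal T).ncard = n' ∧
      (cells ve nsq T).card + 2 * n' + 3 = 3 * n := by
  classical
  obtain ⟨T, y, τ, hT, hc, hcells, hy⟩ := stacked n' h4
  have hex := stacked_extremal hT hc hcells
  rcases hn.eq_or_lt with rfl | hlt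
  · exact ⟨T, hT, hc, hex, by omega⟩
  · have key : ∀ k, n' + 1 ≤ k → ∃ T p τ, GP T ∧ T.card = k ∧ (extremal T).ncard = n' ∧
        (cells ve nsq T).card + 2 * n' + 3 = 3 * k ∧ Hub T p τ := by
      intro k hk
      induction k, hk using Nat.le_induction with
      | base =>
        obtain ⟨p, hpT, hgp, hext, hcard, hhub⟩ := hub_of_leaf hT hy
        exact ⟨insert p T, p, τ, hgp, by rw [Finset.card_insert_of_notMem hpT, hc],
          by rw [hext, hex], by rw [hcard]; omega, hhub⟩
      | succ k _ ih =>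
        obtain ⟨T, p, τ, hT, hc, hex, hcells, hhub⟩ := ih
        obtain ⟨p', τ', hpT, hgp, hext, hcard, hhub'⟩ := hub_of_hub hT hhub
        exact ⟨insert p' T, p', τ', hgp, by rw [Finset.card_insert_of_notMem hpT, hc],
          by rw [hext, hex], by rw [hcard]; omega, hhub'⟩
    obtain ⟨T, p, τ, hT, hc, hex, hcells, _⟩ := key n hlt
    exact ⟨T, hT, hc, hex, hcells⟩

/-- minimal configurations for the literal convention -/
lemma min_lit (n n' : ℕ) (h4 : 4 ≤ n') (hn : n' ≤ n) :
    ∃ T y τ, NotInPlane T ∧ NoFiveCospherical T ∧ T.card = n ∧ (extremal T).ncard = n' ∧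
      (cells ve nsq T).card + 3 = n ∧ Leaf T y τ := by
  classical
  induction n, hn using Nat.le_induction with
  | base =>
    obtain ⟨T, y, τ, hT, hc, hcells, hy⟩ := stacked n' h4
    exact ⟨T, y, τ, hT.nip, hT.five, hc, stacked_extremal hT hc hcells, hcells, hy⟩
  | succ k _ ih =>
    obtain ⟨T, y, τ, h1, h2, hc, hex, hcells, hy⟩ := ih
    obtain ⟨p, τ', hpT, h1', h2', hext, hcard, hleaf⟩ := leaf_edge h1 h2 hy
    exact ⟨insert p T, y, τ', h1', h2', by rw [Finset.card_insert_of_notMem hpT, hc],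
      by rw [hext, hex], by rw [hcard]; omega, hleaf⟩

lemma count_identity (n n' : ℕ) (h4 : 4 ≤ n') (hn : n' ≤ n) :
    (n - 1 - 2) * (n - 1 - 3) / 2 + (n - 1 - 3) + (n + 3 - n' - 2) + n' =
      n * (n - 3) / 2 + 3 := by
  obtain ⟨k, rfl⟩ : ∃ k, n = k + 4 := ⟨n - 4, by omega⟩
  have e1 : k + 4 - 1 - 2 = k + 1 := by omega
  have e2 : k + 4 - 1 - 3 = k := by omega
  have e3 : k + 4 - 3 = k + 1 := by omega
  rw [e1, e2, e3]
  have h1 : (k + 4) * (k + 1) = (k + 1) * k + 2 * (2 * (k + 1)) := by ring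
  rw [h1, Nat.add_mul_div_left _ _ (by norm_num)]
  omega

/-- maximal configurations -/
lemma max_gp (n n' : ℕ) (h4 : 4 ≤ n') (hn : n' ≤ n) :
    ∃ T, T.card = n ∧ NotInPlane T ∧ NoFiveCospherical T ∧ NoFourCoplanar T ∧
      (extremal T).ncard = n' ∧ (DT T).ncard + n' = n * (n - 3) / 2 + 3 := by
  have hj : 3 ≤ n + 3 - n' := by omega
  have hjm : n + 3 - n' ≤ n - 1 := by omega
  obtain ⟨L, ⟨h1, h2⟩, h3, h5, h6, h7⟩ := (((Max1.cells_count (n - 1) (n + 3 - n') hj hjm).and
    (Max2.extremal_count (n - 1) (n + 3 - n') hj hjm)).and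
    (Max3.generic_TT (n - 1) (n + 3 - n') hj hjm)).exists
  have hc : (TT (n - 1) (n + 3 - n') L).card = n := by rw [h3]; omega
  have hub := max_bound h5 h6
  rw [hc] at hub
  have hid := count_identity n n' h4 hn
  exact ⟨_, hc, h5, h6, h7, by omega, by omega⟩

end Pool.Agent.Helper486.Del
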