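import Pool.Agent.Helper486.Del.Cells

namespace Pool.Agent.Helper486.Del

open Finset Filter Topology

set_option linter.unusedSectionVars false

variable {P V : Type} [DecidableEq P] [AddCommGroup V] [Module ℝ V]
variable [hV : Fact (Module.finrank ℝ V = 4)] {vec : P → V} {τ σ : Finset P}
variable {f : P → ℝ} {T : Finset P} {h : V →ₗ[ℝ] ℝ}

omit hV [DecidableEq P] in
lemma tendsto_line (A : V →ₗ[ℝ] ℝ) (x y : V) :
    Tendsto (fun ε : ℝ => A (x + ε • y)) (𝓝[>] 0) (𝓝 (A x)) := by
  have : Tendsto (fun ε : ℝ => A x + ε * A y) (𝓝[>] 0) (𝓝 (A x + 0 * A y)) := by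
    apply Tendsto.mono_left _ nhdsWithin_le_nhds
    exact (continuous_const.add (continuous_id.mul continuous_const)).tendsto 0
  rw [zero_mul, add_zero] at this
  refine this.congr fun ε => ?_
  rw [map_add, map_smul, smul_eq_mul]

/-- a point near `vec p` in the interior of a cell through `p` -/
lemma near_vertex_pos (hB : IsB vec σ) {p : P} (hp : p ∈ σ) {ε : ℝ} (hε : 0 < ε) :
    ∀ q ∈ σ, 0 < coef vec σ q (vec p + ε • ∑ a ∈ σ, vec a) := by
  intro q hq
  have h1 : coef vec σ q (∑ a ∈ σ, vec a) = 1 :=
    coef_unique hB (w := fun _ => 1) (by simp) q hq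
  rw [map_add, map_smul, h1, smul_eq_mul, mul_one]
  by_cases hqp : q = p
  · rw [hqp, coef_self hB hp]; linarith
  · rw [coef_ne hB hq hp hqp]; linarith

lemma Cell.restrict {p : P} (hσ : Cell vec f (insert p T) σ) (hp : p ∉ σ) : Cell vec f T σ := by
  refine ⟨fun q hq => ?_, hσ.isB, fun q hq hqσ => hσ.lt (Finset.mem_insert_of_mem hq) hqσ⟩
  exact (Finset.mem_insert.1 (hσ.sub hq)).resolve_left (fun h' => hp (h' ▸ hq))

lemma Cell.extend {p : P} (hσ : Cell vec f T σ) (hlt : Af vec f σ (vec p) < f p) :
    Cell vec f (insert p T) σ := by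
  refine ⟨hσ.sub.trans (Finset.subset_insert _ _), hσ.isB, fun q hq hqσ => ?_⟩
  rcases Finset.mem_insert.1 hq with rfl | hq
  · exact hlt
  · exact hσ.lt hq hqσ

/-- inserting a point in conflict with exactly one cell -/
theorem insert_conflict (C : Conf vec f h T) {p : P} (hp : p ∉ T) (hpos : 0 < h (vec p))
    (hτ : Cell vec f T τ) (hconf : f p < Af vec f τ (vec p))
    (hother : ∀ σ, Cell vec f T σ → σ ≠ τ → Af vec f σ (vec p) < f p)
    (hcone : ∀ q ∈ τ, 0 < coef vec τ q (vec p) ∨
      (coef vec τ q (vec p) = 0 ∧ ∀ x ∈ T, 0 ≤ coef vec τ q (vec x))) :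
    Cell vec f (insert p T) σ ↔ (Cell vec f T σ ∧ σ ≠ τ) ∨
      ∃ q ∈ τ, 0 < coef vec τ q (vec p) ∧ σ = insert p (τ.erase q) := by
  classical
  have hpτ : p ∉ τ := fun h' => hp (hτ.sub h')
  -- the new cells
  have hnew : ∀ q0 ∈ τ, 0 < coef vec τ q0 (vec p) →
      Cell vec f (insert p T) (insert p (τ.erase q0)) := by
    intro q0 hq0 hc0
    set s := (f p - Af vec f τ (vec p)) / coef vec τ q0 (vec p) with hs
    have hs0 : s < 0 := div_neg_of_neg_of_pos (by linarith) hc0
    have hsc : s * coef vec τ q0 (vec p) = f p - Af vec f τ (vec p) := by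
      rw [hs, div_mul_cancel₀ _ hc0.ne']
    have hB := isB_exchange hτ.isB hq0 hpτ hc0.ne'
    have hA : ∀ x, (Af vec f τ + s • coef vec τ q0) x = Af vec f τ x + s * coef vec τ q0 x :=
      fun x => by rw [LinearMap.add_apply, LinearMap.smul_apply, smul_eq_mul]
    refine cell_of_functional ?_ hB (Af vec f τ + s • coef vec τ q0) ?_ ?_
    · exact Finset.insert_subset_insert _ ((Finset.erase_subset _ _).trans hτ.sub)
    · intro a ha
      rw [hA]
      rcases Finset.mem_insert.1 ha with rfl | ha
      · rw [hsc]; ring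
      · rw [Finset.mem_erase] at ha
        rw [Af_vec hτ.isB f ha.2, coef_ne hτ.isB hq0 ha.2 (Ne.symm ha.1), mul_zero, add_zero]
    · intro q hq hqn
      rw [Finset.mem_insert, not_or] at hqn
      have hqT : q ∈ T := (Finset.mem_insert.1 hq).resolve_left hqn.1
      rw [hA]
      by_cases hqq : q = q0
      · rw [hqq, Af_vec hτ.isB f hq0, coef_self hτ.isB hq0]; linarith
      · have hqτ : q ∉ τ := fun h' => hqn.2 (Finset.mem_erase.2 ⟨hqq, h'⟩)
        rcases le_or_gt 0 (coef vec τ q0 (vec q)) with h0 | h0
        · have h1 := hτ.lt hqT hqτ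
          have h2 := mul_nonneg (neg_nonneg.2 hs0.le) h0
          linarith
        · obtain ⟨p0, hp0T, hp0τ, _, hcell, s2, hs2, hAf⟩ := pivot C.gen hτ hq0 ⟨q, hqT, h0⟩
          have hne : insert p0 (τ.erase q0) ≠ τ := fun h' =>
            hp0τ (h' ▸ Finset.mem_insert_self _ _)
          have h1 := hother _ hcell hne
          have h2 := hcell.le hqT
          rw [hAf] at h1 h2
          simp only [LinearMap.sub_apply, LinearMap.smul_apply, smul_eq_mul] at h1 h2
          have h3 : -s < s2 := by
            have h4 : (-s) * coef vec τ q0 (vec p) < s2 * coef vec τ q0 (vec p) := by linarith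
            exact lt_of_mul_lt_mul_right h4 hc0.le
          have h5 : s2 * coef vec τ q0 (vec q) < (-s) * coef vec τ q0 (vec q) :=
            mul_lt_mul_of_neg_right h3 h0
          linarith
  constructor
  · intro hσ
    by_cases hpσ : p ∈ σ
    · right
      have hev : ∀ᶠ ε : ℝ in 𝓝[>] 0, ∀ q ∈ τ,
          0 ≤ coef vec τ q (vec p + ε • ∑ a ∈ σ, vec a) := by
        rw [Filter.eventually_all_finset]
        intro q hq
        rcases hcone q hq with h1 | ⟨h1, h2⟩
        · filter_upwards [(tendsto_line (coef vec τ q) (vec p) (∑ a ∈ σ, vec a)).eventually_const_lt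
            h1] with ε hε
          exact hε.le
        · filter_upwards [self_mem_nhdsWithin] with ε hε
          have hε' : (0 : ℝ) < ε := hε
          rw [map_add, map_smul, h1, zero_add, smul_eq_mul, map_sum]
          refine mul_nonneg hε'.le (Finset.sum_nonneg fun a ha => ?_)
          rcases Finset.mem_insert.1 (hσ.sub ha) with rfl | haT
          · exact h1.ge
          · exact h2 a haT
      obtain ⟨ε, h1, h2⟩ := (hev.and self_mem_nhdsWithin).exists
      have hε : (0 : ℝ) < ε := h2
      set x := vec p + ε • ∑ a ∈ σ, vec a with hx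
      -- choose the facet
      obtain ⟨w0, hw0⟩ : (τ.filter (fun q => 0 < coef vec τ q (vec p))).Nonempty := by
        by_contra hcon
        rw [Finset.not_nonempty_iff_eq_empty, Finset.filter_eq_empty_iff] at hcon
        rw [apply_eq hτ.isB h (vec p), Finset.sum_eq_zero] at hpos
        · exact lt_irrefl _ hpos
        · intro q hq
          rcases hcone q hq with h3 | h3
          · exact absurd h3 (hcon hq)
          · rw [h3.1, zero_mul]
      obtain ⟨w, hw, hmin⟩ := Finset.exists_min_image
        (τ.filter (fun q => 0 < coef vec τ q (vec p)))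
        (fun q => coef vec τ q x / coef vec τ q (vec p)) ⟨w0, hw0⟩
      rw [Finset.mem_filter] at hw
      refine ⟨w, hw.1, hw.2, ?_⟩
      have hcell := hnew w hw.1 hw.2
      set l := coef vec τ w x / coef vec τ w (vec p) with hl
      have hl0 : 0 ≤ l := div_nonneg (h1 w hw.1) hw.2.le
      refine cell_unique hσ hcell (near_vertex_pos hσ.isB hpσ hε) (fun q hq => ?_)
      have hge : ∀ q ∈ τ, 0 ≤ coef vec τ q x - l * coef vec τ q (vec p) := by
        intro q hq
        rcases hcone q hq with h3 | h3
        · have h4 := hmin q (Finset.mem_filter.2 ⟨hq, h3⟩)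
          rw [le_div_iff₀ h3] at h4
          linarith
        · rw [h3.1, mul_zero, sub_zero]; exact h1 q hq
      have hw0' : coef vec τ w x - l * coef vec τ w (vec p) = 0 := by
        rw [hl, div_mul_cancel₀ _ hw.2.ne', sub_self]
      have hdec : ∑ a ∈ insert p (τ.erase w),
          (if a = p then l else coef vec τ a x - l * coef vec τ a (vec p)) • vec a = x := by
        have hpe : p ∉ τ.erase w := fun h' => hpτ (Finset.mem_of_mem_erase h')
        rw [Finset.sum_insert hpe, if_pos rfl]
        have e1 : ∑ a ∈ τ.erase w,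
            (if a = p then l else coef vec τ a x - l * coef vec τ a (vec p)) • vec a =
            ∑ a ∈ τ.erase w, (coef vec τ a x - l * coef vec τ a (vec p)) • vec a := by
          refine Finset.sum_congr rfl fun a ha => ?_
          have hap : a ≠ p := fun h' => hpe (h' ▸ ha)
          rw [if_neg hap]
        have e2 := Finset.add_sum_erase τ
          (fun a => (coef vec τ a x - l * coef vec τ a (vec p)) • vec a) hw.1
        simp only [hw0', zero_smul, zero_add] at e2
        rw [e1, e2]
        simp only [sub_smul, Finset.sum_sub_distrib, mul_smul]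
        rw [← Finset.smul_sum, coef_sum hτ.isB, coef_sum hτ.isB]
        abel
      rw [coef_unique hcell.isB hdec q hq]
      split_ifs with hqp
      · exact hl0
      · exact hge q (Finset.mem_of_mem_erase ((Finset.mem_insert.1 hq).resolve_left hqp))
    · left
      refine ⟨hσ.restrict hpσ, fun h' => ?_⟩
      have := hσ.lt (Finset.mem_insert_self _ _) hpσ
      rw [h'] at this
      linarith
  · rintro (⟨h1, h2⟩ | ⟨q, hq, hc, rfl⟩)
    · exact h1.extend (hother σ h1 h2)
    · exact hnew q hq hc

/-- inserting a point beyond exactly one facet -/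
theorem insert_outside {p c : P} (hp : p ∉ T)
    (hτ : Cell vec f T τ) (hc : c ∈ τ) (hcp : coef vec τ c (vec p) < 0)
    (hout : ∀ σ, Cell vec f T σ → Af vec f σ (vec p) < f p)
    (hcb : ∀ x ∈ T, 0 ≤ coef vec τ c (vec x))
    (hnew : ∀ q ∈ τ.erase c, ∀ x ∈ T, 0 ≤ coef vec (insert p (τ.erase c)) q (vec x)) :
    Cell vec f (insert p T) σ ↔ Cell vec f T σ ∨ σ = insert p (τ.erase c) := by
  classical
  have hpτ : p ∉ τ := fun h' => hp (hτ.sub h')
  have hcell : Cell vec f (insert p T) (insert p (τ.erase c)) := by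
    set s := (f p - Af vec f τ (vec p)) / coef vec τ c (vec p) with hs
    have hs0 : s < 0 := div_neg_of_pos_of_neg (by linarith [hout τ hτ]) hcp
    have hsc : s * coef vec τ c (vec p) = f p - Af vec f τ (vec p) := by
      rw [hs, div_mul_cancel₀ _ hcp.ne]
    have hB := isB_exchange hτ.isB hc hpτ hcp.ne
    have hA : ∀ x, (Af vec f τ + s • coef vec τ c) x = Af vec f τ x + s * coef vec τ c x :=
      fun x => by rw [LinearMap.add_apply, LinearMap.smul_apply, smul_eq_mul]
    refine cell_of_functional ?_ hB (Af vec f τ + s • coef vec τ c) ?_ ?_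
    · exact Finset.insert_subset_insert _ ((Finset.erase_subset _ _).trans hτ.sub)
    · intro a ha
      rw [hA]
      rcases Finset.mem_insert.1 ha with rfl | ha
      · rw [hsc]; ring
      · rw [Finset.mem_erase] at ha
        rw [Af_vec hτ.isB f ha.2, coef_ne hτ.isB hc ha.2 (Ne.symm ha.1), mul_zero, add_zero]
    · intro q hq hqn
      rw [Finset.mem_insert, not_or] at hqn
      have hqT : q ∈ T := (Finset.mem_insert.1 hq).resolve_left hqn.1
      rw [hA]
      by_cases hqq : q = c
      · rw [hqq, Af_vec hτ.isB f hc, coef_self hτ.isB hc]; linarith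
      · have hqτ : q ∉ τ := fun h' => hqn.2 (Finset.mem_erase.2 ⟨hqq, h'⟩)
        have h1 := hτ.lt hqT hqτ
        have h2 := mul_nonneg (neg_nonneg.2 hs0.le) (hcb q hqT)
        linarith
  constructor
  · intro hσ
    by_cases hpσ : p ∈ σ
    · right
      have hps : p ∈ insert p (τ.erase c) := Finset.mem_insert_self _ _
      have hev : ∀ᶠ ε : ℝ in 𝓝[>] 0,
          0 < coef vec (insert p (τ.erase c)) p (vec p + ε • ∑ a ∈ σ, vec a) := by
        apply (tendsto_line _ (vec p) (∑ a ∈ σ, vec a)).eventually_const_lt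
        rw [coef_self hcell.isB hps]
        exact one_pos
      obtain ⟨ε, h1, h2⟩ := (hev.and self_mem_nhdsWithin).exists
      have hε : (0 : ℝ) < ε := h2
      refine cell_unique hσ hcell (near_vertex_pos hσ.isB hpσ hε) (fun q hq => ?_)
      by_cases hqp : q = p
      · rw [hqp]; exact h1.le
      · have hqe : q ∈ τ.erase c := (Finset.mem_insert.1 hq).resolve_left hqp
        rw [map_add, map_smul, coef_ne hcell.isB hq hps hqp, zero_add, smul_eq_mul, map_sum]
        refine mul_nonneg hε.le (Finset.sum_nonneg fun a ha => ?_)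
        rcases Finset.mem_insert.1 (hσ.sub ha) with rfl | haT
        · rw [coef_ne hcell.isB hq hps hqp]
        · exact hnew q hqe a haT
    · left
      exact hσ.restrict hpσ
  · rintro (h1 | rfl)
    · exact h1.extend (hout σ h1)
    · exact hcell

end Pool.Agent.Helper486.Del
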