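import Pool.Agent.Helper486.Del.Bridge
import Pool.Agent.Helper486.Del.Insert

namespace Pool.Agent.Helper486.Del

open Finset Filter Topology
open scoped RealInnerProductSpace

variable {T τ S : Finset E3} {f : E3 → ℝ}

lemma cont_ve (A : V4 →ₗ[ℝ] ℝ) : Continuous fun x : E3 => A (ve x) := by
  have h1 : Continuous A := LinearMap.continuous_of_finiteDimensional A
  have h2 : Continuous ve := by unfold ve; fun_prop
  exact h1.comp h2

lemma cont_nsq : Continuous nsq := by
  unfold nsq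
  fun_prop

lemma tend_line (y v : E3) : Tendsto (fun ε : ℝ => y + ε • v) (𝓝[>] 0) (𝓝 y) := by
  have : Tendsto (fun ε : ℝ => y + ε • v) (𝓝[>] 0) (𝓝 (y + (0 : ℝ) • v)) := by
    apply Tendsto.mono_left _ nhdsWithin_le_nhds
    exact (continuous_const.add (continuous_id.smul continuous_const)).tendsto 0
  rwa [zero_smul, add_zero] at this

lemma ve_line (y v : E3) (ε : ℝ) : ve (y + ε • v) = ve y + ε • ((v, 0) : V4) := by
  simp [ve]

lemma ve_sub (a b : E3) : ((a - b, 0) : V4) = ve a - ve b := by simp [ve]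

lemma nsq_line (y v : E3) (ε : ℝ) : nsq (y + ε • v) = nsq y + 2 * ε * ⟪y, v⟫ + ε ^ 2 * nsq v := by
  unfold nsq
  rw [inner_add_left, inner_add_right, inner_add_right, inner_smul_left, inner_smul_left,
    inner_smul_right, inner_smul_right, real_inner_comm y v]
  simp only [conj_trivial]
  ring

/-- an eventually nonvanishing quadratic -/
lemma quad_ne {a b c : ℝ} (h : a + b + c ≠ 0) :
    ∀ᶠ t : ℝ in 𝓝[>] 0, a + b * t + c * t ^ 2 ≠ 0 := by
  have hlim : ∀ x y : ℝ, Tendsto (fun t : ℝ => x + y * t) (𝓝[>] 0) (𝓝 x) := by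
    intro x y
    have : Tendsto (fun t : ℝ => x + y * t) (𝓝[>] 0) (𝓝 (x + y * 0)) := by
      apply Tendsto.mono_left _ nhdsWithin_le_nhds
      exact (continuous_const.add (continuous_const.mul continuous_id)).tendsto 0
    rwa [mul_zero, add_zero] at this
  by_cases ha : a = 0
  · by_cases hb : b = 0
    · filter_upwards [self_mem_nhdsWithin] with t ht
      have ht' : (0 : ℝ) < t := ht
      rw [ha, hb, zero_mul, zero_add, zero_add]
      refine mul_ne_zero ?_ (pow_ne_zero 2 ht'.ne')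
      intro hc
      rw [ha, hb, hc] at h
      simp at h
    · filter_upwards [(hlim b c).eventually_ne hb, self_mem_nhdsWithin] with t ht ht2
      have ht' : (0 : ℝ) < t := ht2
      have : a + b * t + c * t ^ 2 = t * (b + c * t) := by rw [ha]; ring
      rw [this]
      exact mul_ne_zero ht'.ne' ht
  · have h2 : Tendsto (fun t : ℝ => a + b * t + c * t ^ 2) (𝓝[>] 0) (𝓝 (a + b * 0 + c * 0 ^ 2)) := by
      apply Tendsto.mono_left _ nhdsWithin_le_nhds
      exact (Continuous.tendsto (by fun_prop) 0)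
    apply h2.eventually_ne
    simpa using ha

/-- the quadratic functions to be avoided -/
noncomputable def FF (x : ℝ × (V4 →ₗ[ℝ] ℝ)) (p : E3) : ℝ := x.1 * nsq p + x.2 (ve p)

lemma cont_FF (x : ℝ × (V4 →ₗ[ℝ] ℝ)) : Continuous (FF x) :=
  (continuous_const.mul cont_nsq).add (cont_ve x.2)

lemma FF_line (x : ℝ × (V4 →ₗ[ℝ] ℝ)) (p w : E3) (t : ℝ) :
    FF x (p + t • w) = FF x p + (2 * x.1 * ⟪p, w⟫ + x.2 (w, 0)) * t + (x.1 * nsq w) * t ^ 2 := by
  unfold FF
  rw [nsq_line, ve_line, map_add, map_smul, smul_eq_mul]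
  ring

lemma dense_FF {x : ℝ × (V4 →ₗ[ℝ] ℝ)} {z : E3} (hz : FF x z ≠ 0) (U : Set E3) (hU : IsOpen U)
    (hne : U.Nonempty) : (U ∩ {p | FF x p ≠ 0}).Nonempty := by
  obtain ⟨p0, hp0⟩ := hne
  have h1 : ∀ᶠ t : ℝ in 𝓝[>] 0, FF x (p0 + t • (z - p0)) ≠ 0 := by
    have h2 := quad_ne (a := FF x p0) (b := 2 * x.1 * ⟪p0, z - p0⟫ + x.2 (z - p0, 0))
      (c := x.1 * nsq (z - p0)) (by
        have := FF_line x p0 (z - p0) 1
        rw [one_smul, add_sub_cancel] at this
        rw [this] at hz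
        simpa using hz)
    filter_upwards [h2] with t ht
    rw [FF_line]; exact ht
  have h2 : ∀ᶠ t : ℝ in 𝓝[>] 0, p0 + t • (z - p0) ∈ U :=
    (tend_line p0 (z - p0)).eventually (hU.mem_nhds hp0)
  obtain ⟨t, h3, h4⟩ := (h1.and h2).exists
  exact ⟨_, h4, h3⟩

lemma avoid (L : Set (ℝ × (V4 →ₗ[ℝ] ℝ))) (hL : L.Finite) (hz : ∀ x ∈ L, ∃ z, FF x z ≠ 0) :
    ∀ (U : Set E3), IsOpen U → U.Nonempty → ∃ p ∈ U, ∀ x ∈ L, FF x p ≠ 0 := by
  induction L, hL using Set.Finite.induction_on with
  | empty => exact fun U _ ⟨p, hp⟩ => ⟨p, hp, fun x hx => absurd hx (Set.notMem_empty x)⟩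
  | @insert x L hx hfin ih =>
    intro U hU hne
    obtain ⟨z, hz'⟩ := hz x (Set.mem_insert _ _)
    obtain ⟨p, hp, h1⟩ := ih (fun y hy => hz y (Set.mem_insert_of_mem _ hy))
      (U ∩ {p | FF x p ≠ 0}) (hU.inter ((cont_FF x).isOpen_preimage _ isOpen_ne))
      (dense_FF hz' U hU hne)
    refine ⟨p, hp.1, fun y hy => ?_⟩
    rcases Set.mem_insert_iff.1 hy with rfl | hy
    · exact hp.2
    · exact h1 y hy

/-- general position -/
structure GP (T : Finset E3) : Prop where
  card : 4 ≤ T.card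
  nip : NotInPlane T
  five : NoFiveCospherical T
  four : NoFourCoplanar T

lemma noFive_of_gen (h : Gen ve nsq T) : NoFiveCospherical T := by
  rintro S hS hc ⟨c, r, hr⟩
  obtain ⟨A, hA⟩ := sphere_fun c r
  have := h A S hS (fun q hq => by rw [hA, hr q hq]; ring)
  omega

lemma notInPlane_mono (hST : S ⊆ T) (h : NotInPlane S) : NotInPlane T := by
  rintro ⟨v, hv, c, hc⟩
  exact h ⟨v, hv, c, fun p hp => hc p (hST hp)⟩

/-- every open set contains a generic point -/
lemma exists_gp_point (hT : GP T) (U : Set E3) (hU : IsOpen U) (hne : U.Nonempty) :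
    ∃ p ∈ U, p ∉ T ∧ GP (insert p T) := by
  classical
  set L : Set (ℝ × (V4 →ₗ[ℝ] ℝ)) :=
    (fun x : Finset E3 × E3 => ((0 : ℝ), coef ve x.1 x.2)) ''
      (((T.powersetCard 4 ×ˢ T).filter (fun x => x.2 ∈ x.1) : Finset (Finset E3 × E3)) :
        Set (Finset E3 × E3)) ∪
    (fun τ : Finset E3 => ((1 : ℝ), -Af ve nsq τ)) '' (T.powersetCard 4 : Set (Finset E3)) with hL
  have hfin : L.Finite := ((Finset.finite_toSet _).image _).union ((Finset.finite_toSet _).image _)
  have hB : ∀ τ ∈ T.powersetCard 4, IsB ve τ := fun τ hτ => by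
    rw [Finset.mem_powersetCard] at hτ
    exact IsB_of_gp hT.four hτ.1 hτ.2
  obtain ⟨p, hpU, hp⟩ := avoid L hfin (by
    rintro x (⟨⟨τ, z⟩, hx, rfl⟩ | ⟨τ, hτ, rfl⟩)
    · simp only [Finset.coe_filter, Finset.mem_product, Set.mem_ofPred_eq] at hx
      refine ⟨z, ?_⟩
      unfold FF
      simp only [zero_mul, zero_add]
      rw [coef_self (hB τ hx.1.1) hx.2]
      exact one_ne_zero
    · have hτ' := hB τ hτ
      obtain ⟨a, ha, b, hb, hab⟩ := Finset.one_lt_card.1 (show 1 < τ.card by rw [hτ'.1]; norm_num)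
      refine ⟨a + (1 / 2 : ℝ) • (b - a), ?_⟩
      unfold FF
      simp only [one_mul]
      rw [LinearMap.neg_apply, ve_line, ve_sub, map_add, map_smul, map_sub, Af_vec hτ' nsq ha,
        Af_vec hτ' nsq hb, nsq_line, smul_eq_mul]
      have h1 := nsq_sub b a
      have h2 : ⟪a, b - a⟫ = ⟪b, a⟫ - nsq a := by
        rw [inner_sub_right, real_inner_comm b a]; rfl
      rw [h2]
      have h3 : nsq (b - a) ≠ 0 := fun h => hab (sub_eq_zero.1 (nsq_eq_zero.1 h)).symm
      intro h4
      apply h3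
      linarith) U hU hne
  have hp1 : ∀ τ ⊆ T, τ.card = 4 → ∀ z ∈ τ, coef ve τ z (ve p) ≠ 0 := by
    intro τ hτ hc z hz
    have := hp (0, coef ve τ z) (Or.inl ⟨(τ, z), by
      simp only [Finset.coe_filter, Finset.mem_product, Set.mem_ofPred_eq, Finset.mem_powersetCard]
      exact ⟨⟨⟨hτ, hc⟩, hτ hz⟩, hz⟩, rfl⟩)
    unfold FF at this
    simpa using this
  have hp2 : ∀ τ ⊆ T, τ.card = 4 → Af ve nsq τ (ve p) ≠ nsq p := by
    intro τ hτ hc he
    refine hp (1, -Af ve nsq τ) (Or.inr ⟨τ, by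
      rw [Finset.mem_coe, Finset.mem_powersetCard]; exact ⟨hτ, hc⟩, rfl⟩) ?_
    unfold FF
    simp only [one_mul, LinearMap.neg_apply]
    rw [he]; ring
  have hpT : p ∉ T := by
    intro hpT
    obtain ⟨τ, hsub, hτT, hτc⟩ := Finset.exists_subsuperset_card_eq
      (Finset.singleton_subset_iff.2 hpT) (by rw [Finset.card_singleton]; norm_num) hT.card
    have hpτ : p ∈ τ := hsub (Finset.mem_singleton_self p)
    obtain ⟨z, hz, hzp⟩ := Finset.exists_mem_ne (show 1 < τ.card by rw [hτc]; norm_num) p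
    exact hp1 τ hτT hτc z hz (coef_ne (IsB_of_gp hT.four hτT hτc) hz hpτ hzp)
  refine ⟨p, hpU, hpT, ?_, ?_, ?_, ?_⟩
  · exact hT.card.trans (Finset.card_le_card (Finset.subset_insert _ _))
  · exact notInPlane_mono (Finset.subset_insert _ _) hT.nip
  · apply noFive_of_gen
    intro A S hS hAS
    by_contra hcon
    push Not at hcon
    by_cases hpS : p ∈ S
    · have hc : 4 ≤ (S.erase p).card := by rw [Finset.card_erase_of_mem hpS]; omega
      obtain ⟨τ, hτ, hτc⟩ := Finset.exists_subset_card_eq hc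
      have hτT : τ ⊆ T := fun x hx => by
        have h1 := Finset.mem_erase.1 (hτ hx)
        exact (Finset.mem_insert.1 (hS h1.2)).resolve_left h1.1
      have hA := Af_eq (IsB_of_gp hT.four hτT hτc) (f := nsq) (A := A)
        (fun a ha => hAS a (Finset.mem_of_mem_erase (hτ ha)))
      apply hp2 τ hτT hτc
      rw [← hA]
      exact hAS p hpS
    · have hST : S ⊆ T := fun x hx =>
        (Finset.mem_insert.1 (hS hx)).resolve_left (fun h => hpS (h ▸ hx))
      have := gen_of_noFive hT.five A S hST hAS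
      omega
  · intro S hS hc
    by_cases hpS : p ∈ S
    · have hc3 : (S.erase p).card = 3 := by rw [Finset.card_erase_of_mem hpS, hc]
      have hsub : S.erase p ⊆ T := fun x hx => by
        have h1 := Finset.mem_erase.1 hx
        exact (Finset.mem_insert.1 (hS h1.2)).resolve_left h1.1
      obtain ⟨τ, hsub', hτT, hτc⟩ := Finset.exists_subsuperset_card_eq hsub
        (by rw [hc3]; norm_num) hT.card
      have hd : (τ \ S.erase p).card = 1 := by
        rw [Finset.card_sdiff_of_subset hsub', hτc, hc3]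
      obtain ⟨z, hz⟩ := Finset.card_eq_one.1 hd
      have hzm : z ∈ τ \ S.erase p := by rw [hz]; exact Finset.mem_singleton_self z
      rw [Finset.mem_sdiff] at hzm
      have hτe : τ.erase z = S.erase p := by
        symm
        apply Finset.eq_of_subset_of_card_le
        · intro x hx
          exact Finset.mem_erase.2 ⟨fun h => hzm.2 (h ▸ hx), hsub' hx⟩
        · rw [Finset.card_erase_of_mem hzm.1, hτc, hc3]
      have hpτ : p ∉ τ := fun h => hpT (hτT h)
      have hB' := isB_exchange (IsB_of_gp hT.four hτT hτc) hzm.1 hpτ (hp1 τ hτT hτc z hzm.1)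
      rw [hτe, Finset.insert_erase hpS] at hB'
      exact notInPlane_of_isB hB'
    · have hST : S ⊆ T := fun x hx =>
        (Finset.mem_insert.1 (hS hx)).resolve_left (fun h => hpS (h ▸ hx))
      exact hT.four S hST hc

end Pool.Agent.Helper486.Del
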