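import Pool.Agent.Helper486.Del.Perron

namespace Pool.Agent.Helper486.Del

open Finset Filter Topology
open scoped RealInnerProductSpace

variable {T τ I : Finset E3} {g : E3 → ℝ} {G : E3 → E3} {f : E3 → ℝ}

/-- vertices of a boundary facet are not inner -/
lemma not_inner_of_boundary {q a : E3} (hB : IsB ve τ) (hq : q ∈ τ)
    (hpos : ∀ x ∈ T, 0 ≤ coef ve τ q (ve x)) (ha : a ∈ τ) (haq : a ≠ q) : ¬ Inner ve T a := by
  intro hin
  obtain ⟨ε, h1, h2⟩ := ((hin (-ve q)).and self_mem_nhdsWithin).exists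
  have hε : (0 : ℝ) < ε := h2
  have h3 := h1.nonneg hpos
  rw [map_add, map_smul, map_neg, coef_ne hB hq ha (Ne.symm haq), coef_self hB hq, zero_add,
    smul_eq_mul] at h3
  linarith

lemma weight_le_zero (C : Conf ve nsq hh T) (hR : ∀ τ, Cell ve nsq T τ → Rel g G τ)
    (hI : ∀ p ∈ I, Inner ve T p) (hg : ∀ a, a ∉ I → g a = 0) : ∀ a ∈ T, g a ≤ 0 := by
  by_contra hcon
  push Not at hcon
  obtain ⟨a0, ha0, hpos0⟩ := hcon
  obtain ⟨p, hpT, hmax⟩ := Finset.exists_max_image T g ⟨a0, ha0⟩
  have hM : 0 < g p := lt_of_lt_of_le hpos0 (hmax a0 ha0)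
  have hin : ∀ a, g a = g p → Inner ve T a := by
    intro a ha
    apply hI
    by_contra hcon
    rw [hg a hcon] at ha
    linarith
  obtain ⟨τ1, hτ1, hcov⟩ := cover C (inCone_vec (vec := ve) hpT)
  have hp1 := vp_near T p hpT τ1 hτ1 hcov
  have hprop : ∀ a, g a = g p → ∀ τ, Cell ve nsq T τ → a ∈ τ → ∀ q ∈ τ, g q = g p := by
    intro a ha τ hτ haτ q hq
    rw [← ha]
    exact inner_max C hR (hin a ha) (fun q hq => by rw [ha]; exact hmax q hq) hτ haτ q hq
  have hZ := @conn E3 V4 _ _ _ _ ve nsq T hh C (fun τ => ∀ q ∈ τ, g q = g p) τ1 hτ1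
    (hprop p rfl τ1 hτ1 hp1) (fun τ τ' hτ hτ' hZτ hcard => by
      obtain ⟨a, ha⟩ : (τ ∩ τ').Nonempty := by rw [← Finset.card_pos, hcard]; norm_num
      rw [Finset.mem_inter] at ha
      exact hprop a (hZτ a ha.1) τ' hτ' ha.2)
  obtain ⟨τ, hτ, q, hq, hpos⟩ := exists_boundary C
  obtain ⟨a, ha⟩ : (τ.erase q).Nonempty := by
    rw [← Finset.card_pos, Finset.card_erase_of_mem hq, hτ.isB.1]; norm_num
  rw [Finset.mem_erase] at ha
  exact not_inner_of_boundary hτ.isB hq hpos ha.2 ha.1 (hin a (hZ hτ a ha.2))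

/-- a vertex joined to three fixed vertices of a cell is fixed -/
lemma fixed_vertex (hB : IsB ve τ) (hR : Rel g G τ) (hg : ∀ a ∈ τ, g a = 0) {q : E3} (hq : q ∈ τ)
    (h0 : ∀ a ∈ τ, a ≠ q → G a = 0) : G q = 0 := by
  have e1 : ∑ a ∈ τ, coef ve τ a (G q, 0) • a = G q := coef_sum_fst hB (G q, 0)
  have e2 : ∑ a ∈ τ, coef ve τ a (G q, 0) = 0 := coef_sum_snd hB (G q, 0)
  have e3 : ∀ a ∈ τ, ⟪G q, a - q⟫ = 0 := by
    intro a ha
    by_cases haq : a = q
    · rw [haq, sub_self, inner_zero_right]
    · have h1 := hR a ha q hq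
      rw [hg a ha, hg q hq, sub_zero, mul_zero, h0 a ha haq, zero_sub, inner_neg_right] at h1
      rw [real_inner_comm]
      linarith
  have e4 : ∑ a ∈ τ, coef ve τ a (G q, 0) • (a - q) = G q := by
    simp only [smul_sub, Finset.sum_sub_distrib]
    rw [← Finset.sum_smul, e1, e2, zero_smul, sub_zero]
  rw [← nsq_eq_zero]
  have e5 : nsq (G q) = ⟪G q, ∑ a ∈ τ, coef ve τ a (G q, 0) • (a - q)⟫ := by rw [e4]; rfl
  rw [e5, inner_sum]
  apply Finset.sum_eq_zero
  intro a ha
  rw [inner_smul_right, e3 a ha, mul_zero]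

/-- infinitesimal rigidity -/
lemma rigid (C : Conf ve nsq hh T) (hR : ∀ τ, Cell ve nsq T τ → Rel g G τ)
    (hI : ∀ p ∈ I, Inner ve T p) (hg : ∀ a, a ∉ I → g a = 0) (hG : ∀ a, a ∉ I → G a = 0) :
    ∀ a ∈ T, g a = 0 ∧ G a = 0 := by
  have h1 := weight_le_zero C hR hI hg
  have h2 := weight_le_zero (g := fun a => -g a) (G := fun a => -G a) C (fun τ hτ a ha b hb => by
    have := hR τ hτ a ha b hb
    have e1 : -G a - -G b = -(G a - G b) := by abel
    rw [e1, inner_neg_right, this]
    ring) hI (fun a ha => by rw [hg a ha, neg_zero])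
  have hg0 : ∀ a ∈ T, g a = 0 := fun a ha => by
    have := h1 a ha
    have := h2 a ha
    linarith
  obtain ⟨τ, hτ, q, hq, hpos⟩ := exists_boundary C
  have hZ := @conn E3 V4 _ _ _ _ ve nsq T hh C (fun τ => ∀ a ∈ τ, G a = 0) τ hτ
    (by
      have h3 : ∀ a ∈ τ, a ≠ q → G a = 0 := fun a ha haq => by
        apply hG
        intro haI
        exact not_inner_of_boundary hτ.isB hq hpos ha haq (hI a haI)
      intro a ha
      by_cases haq : a = q
      · rw [haq]
        exact fixed_vertex hτ.isB (hR τ hτ) (fun a ha => hg0 a (hτ.sub ha)) hq h3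
      · exact h3 a ha haq)
    (fun τ τ' hτ hτ' hZτ hcard => by
      intro a ha
      by_cases haτ : a ∈ τ
      · exact hZτ a haτ
      · refine fixed_vertex hτ'.isB (hR τ' hτ') (fun a ha => hg0 a (hτ'.sub ha)) ha ?_
        intro b hb hba
        have h4 : τ'.erase a = τ ∩ τ' := by
          symm
          apply Finset.eq_of_subset_of_card_le
          · intro x hx
            rw [Finset.mem_inter] at hx
            exact Finset.mem_erase.2 ⟨fun h => haτ (h ▸ hx.1), hx.2⟩
          · rw [Finset.card_erase_of_mem ha, hτ'.isB.1, hcard]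
        have h5 : b ∈ τ ∩ τ' := by rw [← h4]; exact Finset.mem_erase.2 ⟨hba, hb⟩
        exact hZτ b (Finset.mem_inter.1 h5).1)
  intro a ha
  obtain ⟨σ, hσ, hcov⟩ := cover C (inCone_vec (vec := ve) ha)
  exact ⟨hg0 a ha, hZ hσ a (vp_near T a ha σ hσ hcov)⟩

/-- extension by zero of the weights -/
noncomputable def exg (I : Finset E3) : (I → ℝ × E3) →ₗ[ℝ] (E3 → ℝ) where
  toFun u a := if h : a ∈ I then (u ⟨a, h⟩).1 else 0
  map_add' u v := by
    ext a
    simp only [Pi.add_apply, Prod.fst_add]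
    split_ifs <;> simp
  map_smul' c u := by
    ext a
    simp only [Pi.smul_apply, Prod.smul_fst, RingHom.id_apply]
    split_ifs <;> simp

/-- extension by zero of the vectors -/
noncomputable def exG (I : Finset E3) : (I → ℝ × E3) →ₗ[ℝ] (E3 → E3) where
  toFun u a := if h : a ∈ I then (u ⟨a, h⟩).2 else 0
  map_add' u v := by
    funext a
    simp only [Pi.add_apply, Prod.snd_add]
    split_ifs <;> simp
  map_smul' c u := by
    funext a
    simp only [Pi.smul_apply, Prod.smul_snd, RingHom.id_apply]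
    split_ifs <;> simp

/-- the length relation of an edge -/
noncomputable def relL (σ : Finset E3) : ((E3 → ℝ) × (E3 → E3)) →ₗ[ℝ] ℝ where
  toFun x := ∑ a ∈ σ, ∑ b ∈ σ, (⟪a - b, x.2 a - x.2 b⟫ - (nsq a - nsq b) * (x.1 a - x.1 b))
  map_add' x y := by
    rw [← Finset.sum_add_distrib]
    refine Finset.sum_congr rfl fun a _ => ?_
    rw [← Finset.sum_add_distrib]
    refine Finset.sum_congr rfl fun b _ => ?_
    simp only [Prod.fst_add, Prod.snd_add, Pi.add_apply]
    have : x.2 a + y.2 a - (x.2 b + y.2 b) = (x.2 a - x.2 b) + (y.2 a - y.2 b) := by abel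
    rw [this, inner_add_right]
    ring
  map_smul' c x := by
    rw [RingHom.id_apply, Finset.smul_sum]
    refine Finset.sum_congr rfl fun a _ => ?_
    rw [Finset.smul_sum]
    refine Finset.sum_congr rfl fun b _ => ?_
    simp only [Prod.smul_fst, Prod.smul_snd, Pi.smul_apply, smul_eq_mul]
    rw [← smul_sub, inner_smul_right]
    ring

theorem ed_ge (C : Conf ve nsq hh T) (hIT : I ⊆ T) (hI : ∀ p ∈ I, Inner ve T p) :
    4 * I.card ≤ (Ed ve nsq T I).card := by
  classical
  let Φ : (I → ℝ × E3) →ₗ[ℝ] (↥(Ed ve nsq T I) → ℝ) :=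
    LinearMap.pi (fun σ => (relL σ.1).comp ((exg I).prod (exG I)))
  have hinj : Function.Injective Φ := by
    rw [← LinearMap.ker_eq_bot, LinearMap.ker_eq_bot']
    intro u hu
    have hrel : ∀ τ, Cell ve nsq T τ → Rel (exg I u) (exG I u) τ := by
      intro τ hτ a ha b hb
      by_cases hab : a = b
      · rw [hab]; simp
      · by_cases hI' : a ∈ I ∨ b ∈ I
        · have hσ : ({a, b} : Finset E3) ∈ Ed ve nsq T I := by
            rw [mem_Ed]
            refine ⟨⟨?_, Finset.card_pair hab⟩, ⟨τ, hτ, ?_⟩, ?_⟩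
            · intro x hx
              simp only [Finset.mem_insert, Finset.mem_singleton] at hx
              rcases hx with rfl | rfl
              · exact hτ.sub ha
              · exact hτ.sub hb
            · intro x hx
              simp only [Finset.mem_insert, Finset.mem_singleton] at hx
              rcases hx with rfl | rfl
              · exact ha
              · exact hb
            · rcases hI' with h | h
              · exact ⟨a, by simp, h⟩
              · exact ⟨b, by simp, h⟩
          have h1 : relL {a, b} (exg I u, exG I u) = 0 := congrFun hu ⟨_, hσ⟩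
          have h2 : relL {a, b} (exg I u, exG I u) =
              2 * (⟪a - b, exG I u a - exG I u b⟫ - (nsq a - nsq b) * (exg I u a - exg I u b)) := by
            show ∑ x ∈ ({a, b} : Finset E3), ∑ y ∈ ({a, b} : Finset E3),
              (⟪x - y, exG I u x - exG I u y⟫ - (nsq x - nsq y) * (exg I u x - exg I u y)) = _
            rw [Finset.sum_pair hab, Finset.sum_pair hab, Finset.sum_pair hab]
            have e1 : ⟪b - a, exG I u b - exG I u a⟫ = ⟪a - b, exG I u a - exG I u b⟫ := by
              rw [← neg_sub a b, ← neg_sub (exG I u a), inner_neg_neg]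
            rw [e1]
            simp only [sub_self, inner_zero_left, zero_mul]
            ring
          rw [h2] at h1
          linarith
        · push Not at hI'
          have e1 : ∀ x, x ∉ I → exg I u x = 0 := fun x hx => by
            show (if h : x ∈ I then (u ⟨x, h⟩).1 else 0) = 0
            rw [dif_neg hx]
          have e2 : ∀ x, x ∉ I → exG I u x = 0 := fun x hx => by
            show (if h : x ∈ I then (u ⟨x, h⟩).2 else 0) = 0
            rw [dif_neg hx]
          rw [e1 a hI'.1, e1 b hI'.2, e2 a hI'.1, e2 b hI'.2]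
          simp
    have h0 := rigid C hrel hI (fun a ha => by
      show (if h : a ∈ I then (u ⟨a, h⟩).1 else 0) = 0
      rw [dif_neg ha]) (fun a ha => by
      show (if h : a ∈ I then (u ⟨a, h⟩).2 else 0) = 0
      rw [dif_neg ha])
    funext i
    have h1 := h0 i.1 (hIT i.2)
    have e1 : exg I u i.1 = (u i).1 := by
      show (if h : i.1 ∈ I then (u ⟨i.1, h⟩).1 else 0) = _
      rw [dif_pos i.2]
    have e2 : exG I u i.1 = (u i).2 := by
      show (if h : i.1 ∈ I then (u ⟨i.1, h⟩).2 else 0) = _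
      rw [dif_pos i.2]
    rw [e1, e2] at h1
    exact Prod.ext h1.1 h1.2
  have hfin := LinearMap.finrank_le_finrank_of_injective hinj
  rw [Module.finrank_pi_fintype, Module.finrank_fintype_fun_eq_card] at hfin
  simp only [Module.finrank_prod, Module.finrank_self, finrank_euclideanSpace_fin,
    Finset.sum_const, Finset.card_univ, Fintype.card_coe, smul_eq_mul] at hfin
  omega

/-- the lower bound theorem -/
theorem lower_bound_theorem (C : Conf ve nsq hh T) (hIT : I ⊆ T) (hI : ∀ p ∈ I, Inner ve T p)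
    (hI' : ∀ p ∈ T, p ∉ I → ¬ InCone ve (T.erase p) (ve p)) :
    T.card + 2 * I.card ≤ (cells ve nsq T).card + 3 := by
  have h1 := low_bound_ed C (vp_near T) hIT hI hI'
  have h2 := ed_ge C hIT hI
  omega

end Pool.Agent.Helper486.Del
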