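import Pool.Agent.Helper486.Del.Cells

namespace Pool.Agent.Helper486.Del

open Finset Filter Topology

set_option linter.unusedSectionVars false

variable {P V : Type} [DecidableEq P] [AddCommGroup V] [Module ℝ V]
variable [hV : Fact (Module.finrank ℝ V = 4)] {vec : P → V} {τ : Finset P}
variable {f : P → ℝ} {T : Finset P} {h : V →ₗ[ℝ] ℝ}

omit hV [DecidableEq P] in
/-- generic perturbation -/
lemma gen_perturb (Φ Ψ : Set (V →ₗ[ℝ] ℝ)) (hΦ : Φ.Finite) (hΨ : Ψ.Finite)
    (h0 : ∀ φ ∈ Φ, φ ≠ 0) {x : V} (hx : ∀ ψ ∈ Ψ, 0 < ψ x) :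
    ∃ x', (∀ ψ ∈ Ψ, 0 < ψ x') ∧ ∀ φ ∈ Φ, φ x' ≠ 0 := by
  induction Φ, hΦ using Set.Finite.induction_on with
  | empty => exact ⟨x, hx, fun φ hφ => absurd hφ (Set.notMem_empty φ)⟩
  | @insert φ Φ hφ hfin ih =>
    obtain ⟨x1, h1, h2⟩ := ih (fun φ' hφ' => h0 φ' (Set.mem_insert_of_mem _ hφ'))
    by_cases h3 : φ x1 = 0
    · obtain ⟨y, hy⟩ : ∃ y, φ y ≠ 0 := by
        by_contra hcon
        push Not at hcon
        exact h0 φ (Set.mem_insert _ _) (LinearMap.ext hcon)
      have hlim : ∀ ψ : V →ₗ[ℝ] ℝ, Tendsto (fun ε : ℝ => ψ (x1 + ε • y)) (𝓝[>] 0) (𝓝 (ψ x1)) := by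
        intro ψ
        have : Tendsto (fun ε : ℝ => ψ x1 + ε * ψ y) (𝓝[>] 0) (𝓝 (ψ x1 + 0 * ψ y)) := by
          apply Tendsto.mono_left _ nhdsWithin_le_nhds
          exact (continuous_const.add (continuous_id.mul continuous_const)).tendsto 0
        rw [zero_mul, add_zero] at this
        refine this.congr fun ε => ?_
        rw [map_add, map_smul, smul_eq_mul]
      have e1 : ∀ᶠ ε : ℝ in 𝓝[>] 0, ∀ ψ ∈ Ψ, 0 < ψ (x1 + ε • y) := by
        rw [Filter.eventually_all_finite hΨ]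
        exact fun ψ hψ => (hlim ψ).eventually_const_lt (h1 ψ hψ)
      have e2 : ∀ᶠ ε : ℝ in 𝓝[>] 0, ∀ φ' ∈ Φ, φ' (x1 + ε • y) ≠ 0 := by
        rw [Filter.eventually_all_finite hfin]
        exact fun φ' hφ' => (hlim φ').eventually_ne (h2 φ' hφ')
      obtain ⟨ε, ⟨h4, h5⟩, h6⟩ := ((e1.and e2).and self_mem_nhdsWithin).exists
      have hε : (0 : ℝ) < ε := h6
      refine ⟨x1 + ε • y, h4, fun φ' hφ' => ?_⟩
      rcases Set.mem_insert_iff.1 hφ' with rfl | hφ'
      · rw [map_add, map_smul, h3, zero_add, smul_eq_mul]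
        exact mul_ne_zero hε.ne' hy
      · exact h5 φ' hφ'
    · refine ⟨x1, h1, fun φ' hφ' => ?_⟩
      rcases Set.mem_insert_iff.1 hφ' with rfl | hφ'
      · exact h3
      · exact h2 φ' hφ'

lemma coef_ne_zero (hB : IsB vec τ) {q : P} (hq : q ∈ τ) : coef vec τ q ≠ 0 := by
  intro h0
  have := coef_self hB hq
  rw [h0, LinearMap.zero_apply] at this
  exact zero_ne_one this

/-- a generic point inside a given cell -/
lemma exists_generic {τ0 : Finset P} (h0 : Cell vec f T τ0) :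
    ∃ x0, (∀ q ∈ τ0, 0 < coef vec τ0 q x0) ∧
      ∀ τ, Cell vec f T τ → ∀ q ∈ τ, coef vec τ q x0 ≠ 0 := by
  obtain ⟨x', h1, h2⟩ := gen_perturb
    (⋃ τ ∈ {τ | Cell vec f T τ}, (fun q => coef vec τ q) '' (τ : Set P))
    ((fun q => coef vec τ0 q) '' (τ0 : Set P))
    (by
      refine Set.Finite.biUnion ?_ (fun τ _ => (Finset.finite_toSet τ).image _)
      exact (Finset.finite_toSet T.powerset).subset fun τ hτ => by
        simpa using (show Cell vec f T τ from hτ).sub)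
    ((Finset.finite_toSet τ0).image _)
    (by
      intro φ hφ
      simp only [Set.mem_iUnion] at hφ
      obtain ⟨τ, hτ, q, hq, rfl⟩ := hφ
      exact coef_ne_zero (show Cell vec f T τ from hτ).isB hq)
    (x := ∑ q ∈ τ0, vec q)
    (by
      rintro ψ ⟨q, hq, rfl⟩
      have := coef_unique h0.isB (w := fun _ => 1) (x := ∑ q ∈ τ0, vec q) (by simp) q hq
      simp only
      rw [this]; norm_num)
  refine ⟨x', fun q hq => h1 _ ⟨q, hq, rfl⟩, fun τ hτ q hq => ?_⟩
  apply h2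
  simp only [Set.mem_iUnion]
  exact ⟨τ, hτ, q, hq, rfl⟩

/-- vertices with negative coordinate -/
noncomputable def Neg (vec : P → V) (x : V) (τ : Finset P) : Finset P :=
  τ.filter (fun q => coef vec τ q x < 0)

lemma mem_Neg {x : V} {q : P} : q ∈ Neg vec x τ ↔ q ∈ τ ∧ coef vec τ q x < 0 := by
  simp [Neg]

lemma Neg_sub {x : V} : Neg vec x τ ⊆ τ := fun _ hq => (mem_Neg.1 hq).1

/-- setting for the counting arguments -/
structure Gpt (vec : P → V) (f : P → ℝ) (T τ0 : Finset P) (x0 : V) : Prop where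
  cell : Cell vec f T τ0
  pos : ∀ q ∈ τ0, 0 < coef vec τ0 q x0
  ne : ∀ τ, Cell vec f T τ → ∀ q ∈ τ, coef vec τ q x0 ≠ 0

variable {τ0 : Finset P} {x0 : V}

lemma Gpt.inCone (G : Gpt vec f T τ0 x0) : InCone vec T x0 :=
  (inCone_of_coef G.cell.isB fun q hq => (G.pos q hq).le).mono G.cell.sub

lemma Gpt.hpos (G : Gpt vec f T τ0 x0) (C : Conf vec f h T) : 0 < h x0 := by
  rw [apply_eq G.cell.isB h x0]
  apply Finset.sum_pos (fun q hq => mul_pos (G.pos q hq) (C.pos q (G.cell.sub hq)))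
  rw [← Finset.card_pos, G.cell.isB.1]; norm_num

lemma Gpt.neg_zero (G : Gpt vec f T τ0 x0) (hτ : Cell vec f T τ) (hN : Neg vec x0 τ = ∅) :
    τ = τ0 := by
  refine (cell_unique G.cell hτ G.pos fun q hq => ?_).symm
  by_contra hneg
  push Not at hneg
  have : q ∈ Neg vec x0 τ := mem_Neg.2 ⟨hq, hneg⟩
  rw [hN] at this
  exact absurd this (Finset.notMem_empty q)

/-- the last cell on the way from `x0` to `p` -/
lemma Gpt.minus (G : Gpt vec f T τ0 x0) (C : Conf vec f h T) {p : P} (hp : p ∈ T)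
    (hX : ∀ τ, Cell vec f T τ → (∀ q ∈ τ, 0 ≤ coef vec τ q (vec p)) → p ∈ τ) (hp0 : p ∉ τ0) :
    ∃ τ, Cell vec f T τ ∧ Neg vec x0 τ = {p} := by
  obtain ⟨τ, hτ, h1⟩ := cover2 C (x := vec p) (y := x0) (by
    filter_upwards [self_mem_nhdsWithin] with ε hε
    exact (inCone_vec hp).add (G.inCone.smul (le_of_lt hε)))
  have hpτ := hX τ hτ fun q hq => (h1 q hq).1
  refine ⟨τ, hτ, ?_⟩
  have h2 : ∀ q ∈ τ, q ≠ p → 0 < coef vec τ q x0 := fun q hq hqp =>
    lt_of_le_of_ne ((h1 q hq).2 (coef_ne hτ.isB hq hpτ hqp)) (Ne.symm (G.ne τ hτ q hq))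
  have h3 : coef vec τ p x0 < 0 := by
    by_contra hcon
    push Not at hcon
    have h4 : Neg vec x0 τ = ∅ := by
      rw [Finset.eq_empty_iff_forall_notMem]
      intro q hq
      rw [mem_Neg] at hq
      by_cases hqp : q = p
      · rw [hqp] at hq; exact absurd hq.2 (not_lt.2 hcon)
      · exact absurd hq.2 (not_lt.2 (h2 q hq.1 hqp).le)
    exact hp0 (G.neg_zero hτ h4 ▸ hpτ)
  ext q
  rw [mem_Neg, Finset.mem_singleton]
  constructor
  · rintro ⟨hq, hneg⟩
    by_contra hqp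
    exact absurd hneg (not_lt.2 (h2 q hq hqp).le)
  · rintro rfl
    exact ⟨hpτ, h3⟩

/-- number of cells of a given type -/
noncomputable def hk (vec : P → V) (f : P → ℝ) (T : Finset P) (x0 : V) (k : ℕ) : ℕ :=
  ((cells vec f T).filter (fun τ => (Neg vec x0 τ).card = k)).card

lemma sum_hk : hk vec f T x0 0 + hk vec f T x0 1 + hk vec f T x0 2 + hk vec f T x0 3 ≤
    (cells vec f T).card := by
  have h1 : (cells vec f T).card = ∑ k ∈ Finset.range 5, hk vec f T x0 k := by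
    unfold hk
    apply Finset.card_eq_sum_card_fiberwise
    intro τ hτ
    have hτ' := mem_cells.1 (Finset.mem_coe.1 hτ)
    simp only [Finset.coe_range, Set.mem_Iio]
    have := Finset.card_le_card (Finset.filter_subset (fun q => coef vec τ q x0 < 0) τ)
    rw [hτ'.isB.1] at this
    unfold Neg
    omega
  rw [h1]
  simp only [Finset.sum_range_succ, Finset.sum_range_zero, zero_add]
  omega

lemma Gpt.hk_zero (G : Gpt vec f T τ0 x0) : 1 ≤ hk vec f T x0 0 := by
  unfold hk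
  rw [Nat.succ_le_iff, Finset.card_pos]
  refine ⟨τ0, Finset.mem_filter.2 ⟨mem_cells.2 G.cell, ?_⟩⟩
  rw [Finset.card_eq_zero, Finset.eq_empty_iff_forall_notMem]
  intro q hq
  rw [mem_Neg] at hq
  exact absurd hq.2 (not_lt.2 (G.pos q hq.1).le)

lemma Gpt.hk_one (G : Gpt vec f T τ0 x0) (C : Conf vec f h T) {X : Finset P} (hXT : X ⊆ T)
    (hX : ∀ p ∈ X, ∀ τ, Cell vec f T τ → (∀ q ∈ τ, 0 ≤ coef vec τ q (vec p)) → p ∈ τ) :
    X.card ≤ hk vec f T x0 1 + 4 := by
  have h1 : (X \ τ0).card ≤ hk vec f T x0 1 := by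
    have h2 : ∀ p : P, ∃ τ, p ∈ X \ τ0 → Cell vec f T τ ∧ Neg vec x0 τ = {p} := by
      intro p
      by_cases hp : p ∈ X \ τ0
      · have hp' := Finset.mem_sdiff.1 hp
        obtain ⟨τ, h3⟩ := G.minus C (hXT hp'.1) (hX p hp'.1) hp'.2
        exact ⟨τ, fun _ => h3⟩
      · exact ⟨∅, fun h' => absurd h' hp⟩
    choose F hF using h2
    unfold hk
    refine Finset.card_le_card_of_injOn F (fun p hp => ?_) (fun p hp q hq hpq => ?_)
    · have h3 := hF p hp
      simp only [Finset.coe_filter, Set.mem_ofPred_eq]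
      exact ⟨mem_cells.2 h3.1, by rw [h3.2, Finset.card_singleton]⟩
    · have h3 := (hF p hp).2
      have h4 := (hF q hq).2
      rw [hpq, h4] at h3
      exact (Finset.singleton_injective h3).symm
  have h2 : X.card ≤ (X \ τ0).card + τ0.card := by
    exact Finset.card_le_card_sdiff_add_card (s := X) (t := τ0)
  rw [G.cell.isB.1] at h2
  omega

/-- lower bound for the number of cells -/
theorem low_bound (C : Conf vec f h T) {X : Finset P} (hXT : X ⊆ T)
    (hX : ∀ p ∈ X, ∀ τ, Cell vec f T τ → (∀ q ∈ τ, 0 ≤ coef vec τ q (vec p)) → p ∈ τ) :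
    X.card ≤ (cells vec f T).card + 3 := by
  obtain ⟨τ0, h0⟩ := exists_cell C
  obtain ⟨x0, h1, h2⟩ := exists_generic h0
  have G : Gpt vec f T τ0 x0 := ⟨h0, h1, h2⟩
  have h3 := G.hk_one C hXT hX
  have h4 := G.hk_zero
  have h5 := sum_hk (vec := vec) (f := f) (T := T) (x0 := x0)
  omega

/-- `p` is an inner point of `T` -/
def Inner (vec : P → V) (T : Finset P) (p : P) : Prop :=
  ∀ y : V, ∀ᶠ ε : ℝ in 𝓝[>] 0, InCone vec T (vec p + ε • y)

/-- the first cell after `p` on the way from `x0` -/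
lemma Gpt.plus (G : Gpt vec f T τ0 x0) (C : Conf vec f h T) {p : P}
    (hX : ∀ τ, Cell vec f T τ → (∀ q ∈ τ, 0 ≤ coef vec τ q (vec p)) → p ∈ τ)
    (hp : Inner vec T p) :
    ∃ τ, Cell vec f T τ ∧ p ∈ τ ∧ Neg vec x0 τ = τ.erase p := by
  obtain ⟨τ, hτ, h1⟩ := cover2 C (x := vec p) (y := -x0) (hp _)
  have hpτ := hX τ hτ fun q hq => (h1 q hq).1
  refine ⟨τ, hτ, hpτ, ?_⟩
  have h2 : ∀ q ∈ τ, q ≠ p → coef vec τ q x0 < 0 := fun q hq hqp => by
    have h3 := (h1 q hq).2 (coef_ne hτ.isB hq hpτ hqp)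
    rw [map_neg] at h3
    exact lt_of_le_of_ne (by linarith) (G.ne τ hτ q hq)
  have h3 : 0 < coef vec τ p x0 := by
    by_contra hcon
    push Not at hcon
    have h4 := G.hpos C
    rw [apply_eq hτ.isB h x0] at h4
    refine absurd h4 (not_lt.2 (Finset.sum_nonpos fun q hq => ?_))
    refine mul_nonpos_of_nonpos_of_nonneg ?_ (C.pos q (hτ.sub hq)).le
    by_cases hqp : q = p
    · rw [hqp]; exact hcon
    · exact (h2 q hq hqp).le
  ext q
  rw [mem_Neg, Finset.mem_erase]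
  constructor
  · rintro ⟨hq, hneg⟩
    exact ⟨fun h' => absurd hneg (not_lt.2 (h' ▸ h3.le)), hq⟩
  · rintro ⟨hqp, hq⟩
    exact ⟨hq, h2 q hq hqp⟩

/-- the vertex property -/
def VP (vec : P → V) (f : P → ℝ) (T : Finset P) : Prop :=
  ∀ p ∈ T, ∀ τ, Cell vec f T τ → (∀ q ∈ τ, 0 ≤ coef vec τ q (vec p)) → p ∈ τ

lemma Gpt.hk_three_ge (G : Gpt vec f T τ0 x0) (C : Conf vec f h T) (hvp : VP vec f T)
    {I : Finset P} (hIT : I ⊆ T) (hI : ∀ p ∈ I, Inner vec T p) : I.card ≤ hk vec f T x0 3 := by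
  have h2 : ∀ p : P, ∃ τ, p ∈ I → Cell vec f T τ ∧ p ∈ τ ∧ Neg vec x0 τ = τ.erase p := by
    intro p
    by_cases hp : p ∈ I
    · obtain ⟨τ, h3⟩ := G.plus C (hvp p (hIT hp)) (hI p hp)
      exact ⟨τ, fun _ => h3⟩
    · exact ⟨∅, fun h' => absurd h' hp⟩
  choose F hF using h2
  unfold hk
  refine Finset.card_le_card_of_injOn F (fun p hp => ?_) (fun p hp q hq hpq => ?_)
  · have h3 := hF p hp
    simp only [Finset.coe_filter, Set.mem_ofPred_eq]
    exact ⟨mem_cells.2 h3.1, by rw [h3.2.2, Finset.card_erase_of_mem h3.2.1, h3.1.isB.1]⟩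
  · have h3 := hF p hp
    have h4 := hF q hq
    by_contra hne
    have h5 : q ∈ (F p).erase p := Finset.mem_erase.2 ⟨Ne.symm hne, by rw [hpq]; exact h4.2.1⟩
    rw [← h3.2.2, hpq, h4.2.2] at h5
    exact absurd h5 (Finset.notMem_erase q _)

/-- each type-three cell comes from an inner point -/
lemma Gpt.hk_three_le (G : Gpt vec f T τ0 x0) (C : Conf vec f h T)
    {I : Finset P} (hI : ∀ p ∈ T, p ∉ I → ¬ InCone vec (T.erase p) (vec p)) :
    hk vec f T x0 3 ≤ I.card := by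
  unfold hk
  have h2 : ∀ τ : Finset P, ∃ p, (Cell vec f T τ ∧ (Neg vec x0 τ).card = 3) →
      p ∈ τ ∧ Neg vec x0 τ = τ.erase p := by
    intro τ
    by_cases hτ : Cell vec f T τ ∧ (Neg vec x0 τ).card = 3
    · obtain ⟨hτ, hc⟩ := hτ
      have h3 : (τ \ Neg vec x0 τ).card = 1 := by
        rw [Finset.card_sdiff_of_subset Neg_sub, hτ.isB.1, hc]
      obtain ⟨p, hp⟩ := Finset.card_eq_one.1 h3
      have hpm : p ∈ τ \ Neg vec x0 τ := by rw [hp]; exact Finset.mem_singleton_self p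
      rw [Finset.mem_sdiff] at hpm
      refine ⟨p, fun _ => ⟨hpm.1, ?_⟩⟩
      apply Finset.eq_of_subset_of_card_le
      · intro q hq
        refine Finset.mem_erase.2 ⟨fun h' => hpm.2 (h' ▸ hq), (mem_Neg.1 hq).1⟩
      · rw [Finset.card_erase_of_mem hpm.1, hτ.isB.1, hc]
    · obtain ⟨q, _⟩ : τ0.Nonempty := by rw [← Finset.card_pos, G.cell.isB.1]; norm_num
      exact ⟨q, fun h' => absurd h' hτ⟩
  choose F hF using h2
  have hpos : ∀ τ, Cell vec f T τ → (Neg vec x0 τ).card = 3 → 0 < coef vec τ (F τ) x0 := by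
    intro τ hτ hc
    obtain ⟨h1, h3⟩ := hF τ ⟨hτ, hc⟩
    by_contra hcon
    push Not at hcon
    have : F τ ∈ Neg vec x0 τ := mem_Neg.2 ⟨h1, lt_of_le_of_ne hcon (G.ne τ hτ _ h1)⟩
    rw [h3] at this
    exact absurd this (Finset.notMem_erase _ _)
  have hneg : ∀ τ, Cell vec f T τ → (Neg vec x0 τ).card = 3 → ∀ q ∈ τ, q ≠ F τ →
      coef vec τ q x0 < 0 := by
    intro τ hτ hc q hq hne
    obtain ⟨h1, h3⟩ := hF τ ⟨hτ, hc⟩
    have : q ∈ Neg vec x0 τ := by rw [h3]; exact Finset.mem_erase.2 ⟨hne, hq⟩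
    exact (mem_Neg.1 this).2
  refine Finset.card_le_card_of_injOn F (fun τ hτ => ?_) (fun τ hτ τ' hτ' heq => ?_)
  · simp only [Finset.coe_filter, Set.mem_ofPred_eq] at hτ
    have hτc := mem_cells.1 hτ.1
    obtain ⟨h1, h3⟩ := hF τ ⟨hτc, hτ.2⟩
    set p := F τ with hp
    rw [Finset.mem_coe]
    by_contra hpI
    apply hI p (hτc.sub h1) hpI
    have hp0 := hpos τ hτc hτ.2
    have hq0 := hneg τ hτc hτ.2
    -- `vec p` scaled is `x0` minus negative part
    have e1 : coef vec τ p x0 • vec p = x0 + ∑ q ∈ τ.erase p, (-(coef vec τ q x0)) • vec q := by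
      conv_rhs => rw [← coef_sum hτc.isB x0]
      rw [← Finset.add_sum_erase _ _ h1, add_assoc, ← Finset.sum_add_distrib]
      have : ∀ q ∈ τ.erase p, coef vec τ q (∑ a ∈ τ, coef vec τ a x0 • vec a) = coef vec τ q x0 := by
        intro q _
        rw [coef_sum hτc.isB x0]
      rw [Finset.sum_eq_zero, add_zero]
      intro q hq
      rw [← this q hq]
      rw [Finset.add_sum_erase _ (fun a => coef vec τ a x0 • vec a) h1, this q hq]
      rw [neg_smul, add_neg_cancel]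
    obtain ⟨w, hw0, hwx⟩ := G.inCone
    have e2 : x0 = w p • vec p + ∑ q ∈ T.erase p, w q • vec q := by
      rw [Finset.add_sum_erase _ (fun q => w q • vec q) (hτc.sub h1), hwx]
    have e3 : (coef vec τ p x0 - w p) • vec p = ∑ q ∈ T.erase p,
        (w q + if q ∈ τ then -(coef vec τ q x0) else 0) • vec q := by
      rw [sub_smul, e1]
      nth_rewrite 1 [e2]
      simp only [add_smul, Finset.sum_add_distrib, ite_smul, zero_smul]
      rw [Finset.sum_ite_mem]
      have : T.erase p ∩ τ = τ.erase p := by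
        ext q
        simp only [Finset.mem_inter, Finset.mem_erase]
        constructor
        · rintro ⟨⟨h4, _⟩, h5⟩; exact ⟨h4, h5⟩
        · rintro ⟨h4, h5⟩; exact ⟨⟨h4, hτc.sub h5⟩, h5⟩
      rw [this]
      abel
    have hcone : InCone vec (T.erase p) ((coef vec τ p x0 - w p) • vec p) := by
      refine ⟨_, fun q hq => ?_, e3.symm⟩
      have h4 := Finset.mem_erase.1 hq
      have h5 := hw0 q h4.2
      split_ifs with h6
      · have := hq0 q h6 h4.1
        linarith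
      · linarith
    have hc0 : 0 < coef vec τ p x0 - w p := by
      obtain ⟨q1, hq1⟩ : (τ.erase p).Nonempty := by
        rw [← Finset.card_pos, Finset.card_erase_of_mem h1, hτc.isB.1]; norm_num
      rw [Finset.mem_erase] at hq1
      have h6 := congrArg h e3
      rw [map_smul, map_sum, smul_eq_mul] at h6
      have h7 : 0 < ∑ q ∈ T.erase p, h ((w q + if q ∈ τ then -(coef vec τ q x0) else 0) • vec q) := by
        apply Finset.sum_pos'
        · intro q hq
          have h4 := Finset.mem_erase.1 hq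
          have h5 := hw0 q h4.2
          rw [map_smul, smul_eq_mul]
          refine mul_nonneg ?_ (C.pos q h4.2).le
          split_ifs with h6
          · have := hq0 q h6 h4.1
            linarith
          · linarith
        · refine ⟨q1, Finset.mem_erase.2 ⟨hq1.1, hτc.sub hq1.2⟩, ?_⟩
          rw [map_smul, smul_eq_mul, if_pos hq1.2]
          refine mul_pos ?_ (C.pos q1 (hτc.sub hq1.2))
          have := hq0 q1 hq1.2 hq1.1
          have := hw0 q1 (hτc.sub hq1.2)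
          linarith
      rw [← h6] at h7
      exact pos_of_mul_pos_left h7 (C.pos p (hτc.sub h1)).le
    have := hcone.smul (inv_nonneg.2 hc0.le)
    rwa [smul_smul, inv_mul_cancel₀ hc0.ne', one_smul] at this
  · simp only [Finset.coe_filter, Set.mem_ofPred_eq] at hτ hτ'
    have hτc := mem_cells.1 hτ.1
    have hτc' := mem_cells.1 hτ'.1
    obtain ⟨h1, h3⟩ := hF τ ⟨hτc, hτ.2⟩
    obtain ⟨h1', h3'⟩ := hF τ' ⟨hτc', hτ'.2⟩
    have e1 : ∀ σ, Cell vec f T σ → (Neg vec x0 σ).card = 3 → ∀ᶠ ε : ℝ in 𝓝[>] 0,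
        ∀ q ∈ σ, 0 < coef vec σ q (vec (F σ) - ε • x0) := by
      intro σ hσ hc
      rw [Filter.eventually_all_finset]
      intro q hq
      obtain ⟨k1, _⟩ := hF σ ⟨hσ, hc⟩
      by_cases hqp : q = F σ
      · have hlim : Tendsto (fun ε : ℝ => 1 - ε * coef vec σ (F σ) x0) (𝓝[>] 0)
            (𝓝 (1 - 0 * coef vec σ (F σ) x0)) := by
          apply Tendsto.mono_left _ nhdsWithin_le_nhds
          exact (continuous_const.sub (continuous_id.mul continuous_const)).tendsto 0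
        have := hlim.eventually_const_lt (show (0 : ℝ) < 1 - 0 * coef vec σ (F σ) x0 by norm_num)
        filter_upwards [this] with ε hε
        rw [hqp, map_sub, map_smul, coef_self hσ.isB k1, smul_eq_mul]
        exact hε
      · filter_upwards [self_mem_nhdsWithin] with ε hε
        have hε' : (0 : ℝ) < ε := hε
        rw [map_sub, map_smul, coef_ne hσ.isB hq k1 hqp, smul_eq_mul]
        have := mul_pos hε' (neg_pos.2 (hneg σ hσ hc q hq hqp))
        linarith
    obtain ⟨ε, h4, h5⟩ := ((e1 τ hτc hτ.2).and (e1 τ' hτc' hτ'.2)).exists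
    rw [← heq] at h5
    exact cell_unique hτc hτc' h4 (fun q hq => (h5 q hq).le)

/-- edges with an inner end point -/
noncomputable def Ed (vec : P → V) (f : P → ℝ) (T I : Finset P) : Finset (Finset P) := by
  classical exact
  (T.powersetCard 2).filter (fun σ => (∃ τ, Cell vec f T τ ∧ σ ⊆ τ) ∧ ∃ p ∈ σ, p ∈ I)

lemma mem_Ed {I σ : Finset P} : σ ∈ Ed vec f T I ↔
    (σ ⊆ T ∧ σ.card = 2) ∧ (∃ τ, Cell vec f T τ ∧ σ ⊆ τ) ∧ ∃ p ∈ σ, p ∈ I := by
  simp only [Ed, Finset.mem_filter, Finset.mem_powersetCard]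

/-- an edge of a cell inside another cell -/
lemma edge_mem {a b : P} {τ1 : Finset P} (h1 : Cell vec f T τ1) (ha : a ∈ τ1) (hb : b ∈ τ1)
    (hτ : Cell vec f T τ) (hx : ∀ q ∈ τ, 0 ≤ coef vec τ q (vec a + vec b)) : a ∈ τ ∧ b ∈ τ := by
  have e1 : f a + f b ≤ Af vec f τ (vec a + vec b) := by
    have h2 : Af vec f τ1 (vec a + vec b) = f a + f b := by
      rw [map_add, Af_vec h1.isB f ha, Af_vec h1.isB f hb]
    rw [← h2, apply_eq hτ.isB (Af vec f τ1), Af_apply]
    refine Finset.sum_le_sum fun q hq => ?_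
    rw [mul_comm (f q)]
    exact mul_le_mul_of_nonneg_left (h1.le (hτ.sub hq)) (hx q hq)
  rw [map_add] at e1
  have e2 := hτ.le (h1.sub ha)
  have e3 := hτ.le (h1.sub hb)
  exact ⟨hτ.mem_of_eq (h1.sub ha) (by linarith), hτ.mem_of_eq (h1.sub hb) (by linarith)⟩

lemma Gpt.ed_le (G : Gpt vec f T τ0 x0) (C : Conf vec f h T)
    {I : Finset P} (hI : ∀ p ∈ I, Inner vec T p) :
    (Ed vec f T I).card ≤ hk vec f T x0 2 + 3 * hk vec f T x0 3 := by
  classical
  have key : ∀ σ ∈ Ed vec f T I, ∃ τ ∈ cells vec f T, σ ⊆ τ ∧ τ \ σ ⊆ Neg vec x0 τ := by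
    intro σ hσ
    obtain ⟨⟨hσT, hσc⟩, ⟨τ1, hτ1, hσ1⟩, p, hpσ, hpI⟩ := mem_Ed.1 hσ
    obtain ⟨b, hb⟩ : ∃ b, σ = {p, b} := by
      have h1 : (σ.erase p).card = 1 := by rw [Finset.card_erase_of_mem hpσ, hσc]
      obtain ⟨b, hb⟩ := Finset.card_eq_one.1 h1
      exact ⟨b, by rw [← Finset.insert_erase hpσ, hb]⟩
    have hbσ : b ∈ σ := by rw [hb]; simp
    obtain ⟨τ, hτ, h1⟩ := cover2 C (x := vec p + vec b) (y := -x0) (by
      filter_upwards [hI p hpI (-x0)] with ε hε
      have := hε.add (inCone_vec (hσT hbσ))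
      rwa [add_right_comm] at this)
    obtain ⟨hpτ, hbτ⟩ := edge_mem hτ1 (hσ1 hpσ) (hσ1 hbσ) hτ (fun q hq => (h1 q hq).1)
    refine ⟨τ, mem_cells.2 hτ, ?_, fun q hq => ?_⟩
    · rw [hb, Finset.insert_subset_iff, Finset.singleton_subset_iff]
      exact ⟨hpτ, hbτ⟩
    · rw [Finset.mem_sdiff, hb, Finset.mem_insert, Finset.mem_singleton, not_or] at hq
      have h2 := (h1 q hq.1).2 (by
        rw [map_add, coef_ne hτ.isB hq.1 hpτ hq.2.1, coef_ne hτ.isB hq.1 hbτ hq.2.2, add_zero])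
      rw [map_neg] at h2
      exact mem_Neg.2 ⟨hq.1, lt_of_le_of_ne (by linarith) (G.ne τ hτ q hq.1)⟩
  have hsub : Ed vec f T I ⊆ (cells vec f T).biUnion
      (fun τ => (τ.powersetCard 2).filter (fun σ => τ \ Neg vec x0 τ ⊆ σ)) := by
    intro σ hσ
    obtain ⟨τ, hτ, h1, h2⟩ := key σ hσ
    rw [Finset.mem_biUnion]
    refine ⟨τ, hτ, Finset.mem_filter.2 ⟨Finset.mem_powersetCard.2 ⟨h1, (mem_Ed.1 hσ).1.2⟩, ?_⟩⟩
    intro q hq
    rw [Finset.mem_sdiff] at hq
    by_contra hqσ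
    exact hq.2 (h2 (Finset.mem_sdiff.2 ⟨hq.1, hqσ⟩))
  have hcount : ∀ τ ∈ cells vec f T,
      ((τ.powersetCard 2).filter (fun σ => τ \ Neg vec x0 τ ⊆ σ)).card ≤
        (if (Neg vec x0 τ).card = 2 then 1 else 0) + 3 * (if (Neg vec x0 τ).card = 3 then 1 else 0) := by
    intro τ hτ
    have hτ' := mem_cells.1 hτ
    have hsubN : Neg vec x0 τ ⊆ τ := Finset.filter_subset _ _
    have hP : (τ \ Neg vec x0 τ).card = 4 - (Neg vec x0 τ).card := by
      rw [Finset.card_sdiff_of_subset hsubN, hτ'.isB.1]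
    have hN4 : (Neg vec x0 τ).card ≤ 3 := by
      by_contra hcon
      push Not at hcon
      have h1 : Neg vec x0 τ = τ := Finset.eq_of_subset_of_card_le hsubN (by rw [hτ'.isB.1]; exact hcon)
      have h4 := G.hpos C
      rw [apply_eq hτ'.isB h x0] at h4
      refine absurd h4 (not_lt.2 (Finset.sum_nonpos fun q hq => ?_))
      rw [← h1] at hq
      have hq' := mem_Neg.1 hq
      exact mul_nonpos_of_nonpos_of_nonneg hq'.2.le (C.pos q (hτ'.sub hq'.1)).le
    have hcases : (Neg vec x0 τ).card ≤ 1 ∨ (Neg vec x0 τ).card = 2 ∨ (Neg vec x0 τ).card = 3 := by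
      omega
    rcases hcases with hc | hc | hc
    · have h0 : (τ.powersetCard 2).filter (fun σ => τ \ Neg vec x0 τ ⊆ σ) = ∅ := by
        rw [Finset.eq_empty_iff_forall_notMem]
        intro σ hσ
        rw [Finset.mem_filter, Finset.mem_powersetCard] at hσ
        have := Finset.card_le_card hσ.2
        rw [hP, hσ.1.2] at this
        omega
      rw [h0, Finset.card_empty]; exact Nat.zero_le _
    · have h0 : (τ.powersetCard 2).filter (fun σ => τ \ Neg vec x0 τ ⊆ σ) ⊆ {τ \ Neg vec x0 τ} := by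
        intro σ hσ
        rw [Finset.mem_filter, Finset.mem_powersetCard] at hσ
        rw [Finset.mem_singleton]
        exact (Finset.eq_of_subset_of_card_le hσ.2 (by rw [hP, hσ.1.2, hc])).symm
      rw [if_pos hc]
      have := Finset.card_le_card h0
      rw [Finset.card_singleton] at this
      omega
    · rw [hc] at hP
      obtain ⟨p, hp⟩ := Finset.card_eq_one.1 hP
      have h0 : (τ.powersetCard 2).filter (fun σ => τ \ Neg vec x0 τ ⊆ σ) ⊆
          (Neg vec x0 τ).image (fun q => {p, q}) := by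
        intro σ hσ
        rw [Finset.mem_filter, Finset.mem_powersetCard, hp, Finset.singleton_subset_iff] at hσ
        obtain ⟨⟨hστ, hσc⟩, hpσ⟩ := hσ
        have h1 : (σ.erase p).card = 1 := by rw [Finset.card_erase_of_mem hpσ, hσc]
        obtain ⟨b, hb⟩ := Finset.card_eq_one.1 h1
        have hbσ : b ∈ σ.erase p := by rw [hb]; exact Finset.mem_singleton_self b
        rw [Finset.mem_erase] at hbσ
        rw [Finset.mem_image]
        refine ⟨b, ?_, by rw [← hb, Finset.insert_erase hpσ]⟩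
        by_contra hbN
        have : b ∈ τ \ Neg vec x0 τ := Finset.mem_sdiff.2 ⟨hστ hbσ.2, hbN⟩
        rw [hp, Finset.mem_singleton] at this
        exact hbσ.1 this
      have h1 := (Finset.card_le_card h0).trans Finset.card_image_le
      rw [hc] at h1
      rw [if_pos hc]
      omega
  calc (Ed vec f T I).card ≤ _ := Finset.card_le_card hsub
    _ ≤ ∑ τ ∈ cells vec f T, ((τ.powersetCard 2).filter (fun σ => τ \ Neg vec x0 τ ⊆ σ)).card :=
        Finset.card_biUnion_le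
    _ ≤ ∑ τ ∈ cells vec f T, ((if (Neg vec x0 τ).card = 2 then 1 else 0) +
          3 * (if (Neg vec x0 τ).card = 3 then 1 else 0)) := Finset.sum_le_sum hcount
    _ = hk vec f T x0 2 + 3 * hk vec f T x0 3 := by
        rw [Finset.sum_add_distrib, ← Finset.mul_sum]
        unfold hk
        rw [Finset.card_filter, Finset.card_filter]

/-- the count used for the lower bound theorem -/
theorem low_bound_ed (C : Conf vec f h T) (hvp : VP vec f T) {I : Finset P} (hIT : I ⊆ T)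
    (hI : ∀ p ∈ I, Inner vec T p)
    (hI' : ∀ p ∈ T, p ∉ I → ¬ InCone vec (T.erase p) (vec p)) :
    T.card + (Ed vec f T I).card ≤ (cells vec f T).card + 2 * I.card + 3 := by
  obtain ⟨τ0, h0⟩ := exists_cell C
  obtain ⟨x0, h1, h2⟩ := exists_generic h0
  have G : Gpt vec f T τ0 x0 := ⟨h0, h1, h2⟩
  have h3 := G.hk_one C (Finset.Subset.refl T) hvp
  have h4 := G.hk_zero
  have h5 := sum_hk (vec := vec) (f := f) (T := T) (x0 := x0)
  have h6 := G.hk_three_ge C hvp hIT hI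
  have h7 := G.hk_three_le C hI'
  have h8 := G.ed_le C hI
  omega

end Pool.Agent.Helper486.Del
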