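import Pool.Agent.Helper486.Del.Defs

namespace Pool.Agent.Helper486.Del

/-- moment curve -/
def gam (t : ℝ) : E3 := !₂[t, t ^ 2, t ^ 3]

/-- the parameters `t_1 < t_2 < ... < t_m` -/
noncomputable def par (j i : ℕ) : ℝ := if i ≤ 1 then -(3 ^ j) / 2 else 3 ^ i

/-- the far point -/
def aa (L : ℝ) : E3 := !₂[L, 0, 0]

/-- the point set -/
noncomputable def TT (m j : ℕ) (L : ℝ) : Finset E3 :=
  insert (aa L) ((Finset.Icc 1 m).image (fun i => gam (par j i)))

end Pool.Agent.Helper486.Del
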