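import Pool.Agent.Helper486.Del.Generic

namespace Pool.Agent.Helper486.Del

open Finset Filter Topology
open scoped RealInnerProductSpace

variable {T τ S : Finset E3} {f : E3 → ℝ}

/-- `y` is a vertex of exactly one cell -/
def Leaf (T : Finset E3) (y : E3) (τ : Finset E3) : Prop :=
  Cell ve nsq T τ ∧ y ∈ τ ∧ ∀ σ, Cell ve nsq T σ → y ∈ σ → σ = τ

lemma Leaf.nonneg (hC : Conf ve nsq hh T) {y : E3} (h : Leaf T y τ) {q : E3} (hq : q ∈ τ)
    (hqy : q ≠ y) : ∀ x ∈ T, 0 ≤ coef ve τ q (ve x) := by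
  by_contra hcon
  push Not at hcon
  obtain ⟨p0, _, hp0τ, _, hcell, _⟩ := pivot hC.gen h.1 hq hcon
  have := h.2.2 _ hcell (Finset.mem_insert_of_mem (Finset.mem_erase.2 ⟨hqy.symm, h.2.1⟩))
  exact hp0τ (this ▸ Finset.mem_insert_self _ _)

lemma extremal_insert {p : E3} (hp : InCone ve T (ve p)) : extremal (insert p T) = extremal T := by
  have h1 : convexHull ℝ ((insert p T : Finset E3) : Set E3) = convexHull ℝ (T : Set E3) := by
    apply Set.Subset.antisymm
    · apply convexHull_min _ (convex_convexHull ℝ _)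
      rw [Finset.coe_insert]
      exact Set.insert_subset (inCone_iff.1 hp) (subset_convexHull ℝ _)
    · exact convexHull_mono (by rw [Finset.coe_insert]; exact Set.subset_insert _ _)
  unfold extremal
  rw [h1]

/-- number of cells after an insertion in conflict with one cell -/
lemma card_conflict {p : E3} (hp : p ∉ T) (hτ : Cell ve nsq T τ)
    (hiff : ∀ σ, Cell ve nsq (insert p T) σ ↔ (Cell ve nsq T σ ∧ σ ≠ τ) ∨
      ∃ q ∈ τ, 0 < coef ve τ q (ve p) ∧ σ = insert p (τ.erase q)) :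
    (cells ve nsq (insert p T)).card + 1 =
      (cells ve nsq T).card + (τ.filter (fun q => 0 < coef ve τ q (ve p))).card := by
  classical
  have hpτ : p ∉ τ := fun h' => hp (hτ.sub h')
  have h1 : cells ve nsq (insert p T) = ((cells ve nsq T).erase τ) ∪
      ((τ.filter (fun q => 0 < coef ve τ q (ve p))).image (fun q => insert p (τ.erase q))) := by
    ext σ
    rw [mem_cells, hiff, Finset.mem_union, Finset.mem_erase, mem_cells, Finset.mem_image]
    constructor
    · rintro (⟨h1, h2⟩ | ⟨q, hq, hc, rfl⟩)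
      · exact Or.inl ⟨h2, h1⟩
      · exact Or.inr ⟨q, Finset.mem_filter.2 ⟨hq, hc⟩, rfl⟩
    · rintro (⟨h1, h2⟩ | ⟨q, hq, rfl⟩)
      · exact Or.inl ⟨h2, h1⟩
      · rw [Finset.mem_filter] at hq
        exact Or.inr ⟨q, hq.1, hq.2, rfl⟩
  have hdisj : Disjoint ((cells ve nsq T).erase τ)
      ((τ.filter (fun q => 0 < coef ve τ q (ve p))).image (fun q => insert p (τ.erase q))) := by
    rw [Finset.disjoint_left]
    intro σ hσ hσ'
    rw [Finset.mem_erase, mem_cells] at hσ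
    rw [Finset.mem_image] at hσ'
    obtain ⟨q, _, rfl⟩ := hσ'
    exact hp (hσ.2.sub (Finset.mem_insert_self _ _))
  rw [h1, Finset.card_union_of_disjoint hdisj, Finset.card_erase_of_mem (mem_cells.2 hτ),
    Finset.card_image_of_injOn]
  · have : 0 < (cells ve nsq T).card := Finset.card_pos.2 ⟨τ, mem_cells.2 hτ⟩
    omega
  · intro a ha b hb hab
    simp only [Finset.coe_filter, Set.mem_ofPred_eq] at ha hb
    by_contra hne
    have h2 : b ∈ insert p (τ.erase a) := Finset.mem_insert_of_mem (Finset.mem_erase.2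
      ⟨Ne.symm hne, hb.1⟩)
    have hab' : insert p (τ.erase a) = insert p (τ.erase b) := hab
    rw [hab'] at h2
    rcases Finset.mem_insert.1 h2 with h3 | h3
    · exact hpτ (h3 ▸ hb.1)
    · exact Finset.notMem_erase b τ h3

/-- an inner vertex with exactly four cells around it -/
structure Hub (T : Finset E3) (p : E3) (τ : Finset E3) : Prop where
  mem : p ∈ T
  isB : IsB ve τ
  notMem : p ∉ τ
  sub : τ ⊆ T
  pos : ∀ q ∈ τ, 0 < coef ve τ q (ve p)
  cell : ∀ q ∈ τ, Cell ve nsq T (insert p (τ.erase q))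
  all : ∀ σ, Cell ve nsq T σ → p ∈ σ → ∃ q ∈ τ, σ = insert p (τ.erase q)

lemma GP.conf (h : GP T) : Conf ve nsq hh T := conf_near h.nip h.five

/-- points strictly inside a cell are strictly inside its circumscribed ball -/
lemma conflict_of_pos (hB : IsB ve τ) {p : E3} (hp : p ∉ τ) (hpos : ∀ q ∈ τ, 0 ≤ coef ve τ q (ve p)) :
    nsq p < Af ve nsq τ (ve p) := by
  have h1 := Af_nsq hB p
  have h2 : 0 < ∑ a ∈ τ, coef ve τ a (ve p) * nsq (a - p) := by
    obtain ⟨a, ha, hpa⟩ : ∃ a ∈ τ, 0 < coef ve τ a (ve p) := by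
      by_contra hcon
      push Not at hcon
      have h3 := coef_sum_snd hB (ve p)
      have h4 : ∑ a ∈ τ, coef ve τ a (ve p) ≤ 0 := Finset.sum_nonpos hcon
      rw [h3] at h4
      have h5 : (ve p).2 = 1 := rfl
      rw [h5] at h4
      linarith
    apply Finset.sum_pos' (fun a ha => mul_nonneg (hpos a ha) (nsq_nonneg _))
    refine ⟨a, ha, mul_pos hpa (lt_of_le_of_ne (nsq_nonneg _) fun h => ?_)⟩
    have := nsq_eq_zero.1 h.symm
    exact hp (sub_eq_zero.1 this ▸ ha)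
  linarith

/-- insertion of a generic inner point -/
lemma insert_interior (hT : GP T) (hτ : Cell ve nsq T τ) {x : E3}
    (hx1 : ∀ q ∈ τ, 0 < coef ve τ q (ve x))
    (hx2 : ∀ σ, Cell ve nsq T σ → σ ≠ τ → Af ve nsq σ (ve x) < nsq x) :
    ∃ p, p ∉ T ∧ GP (insert p T) ∧ extremal (insert p T) = extremal T ∧
      (cells ve nsq (insert p T)).card = (cells ve nsq T).card + 3 ∧ Hub (insert p T) p τ := by
  classical
  set U : Set E3 := {z | (∀ q ∈ τ, 0 < coef ve τ q (ve z)) ∧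
    ∀ σ ∈ (cells ve nsq T).erase τ, Af ve nsq σ (ve z) < nsq z} with hU
  have hUo : IsOpen U := by
    have e1 : U = (⋂ q ∈ τ, {z | 0 < coef ve τ q (ve z)}) ∩
        ⋂ σ ∈ (cells ve nsq T).erase τ, {z | Af ve nsq σ (ve z) < nsq z} := by
      ext z
      simp only [hU, Set.mem_inter_iff, Set.mem_iInter]
      rfl
    rw [e1]
    apply IsOpen.inter
    · exact isOpen_biInter_finset fun q _ => isOpen_lt continuous_const (cont_ve _)
    · exact isOpen_biInter_finset fun σ _ => isOpen_lt (cont_ve _) cont_nsq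
  obtain ⟨p, hpU, hpT, hgp⟩ := exists_gp_point hT U hUo ⟨x, hx1, fun σ hσ => by
    rw [Finset.mem_erase, mem_cells] at hσ
    exact hx2 σ hσ.2 hσ.1⟩
  have hpτ : p ∉ τ := fun h => hpT (hτ.sub h)
  have hiff : ∀ σ, Cell ve nsq (insert p T) σ ↔ (Cell ve nsq T σ ∧ σ ≠ τ) ∨
      ∃ q ∈ τ, 0 < coef ve τ q (ve p) ∧ σ = insert p (τ.erase q) := fun σ =>
    insert_conflict hT.conf hpT (by rw [hh_ve]; norm_num) hτ
      (conflict_of_pos hτ.isB hpτ fun q hq => (hpU.1 q hq).le)
      (fun σ h1 h2 => hpU.2 σ (Finset.mem_erase.2 ⟨h2, mem_cells.2 h1⟩))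
      (fun q hq => Or.inl (hpU.1 q hq))
  refine ⟨p, hpT, hgp, ?_, ?_, ?_⟩
  · exact extremal_insert ((inCone_of_coef hτ.isB fun q hq => (hpU.1 q hq).le).mono hτ.sub)
  · have h1 := card_conflict hpT hτ hiff
    rw [Finset.filter_true_of_mem (fun q hq => hpU.1 q hq), hτ.isB.1] at h1
    omega
  · refine ⟨Finset.mem_insert_self _ _, hτ.isB, hpτ, hτ.sub.trans (Finset.subset_insert _ _),
      hpU.1, fun q hq => (hiff _).2 (Or.inr ⟨q, hq, hpU.1 q hq, rfl⟩), fun σ hσ hpσ => ?_⟩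
    rcases (hiff σ).1 hσ with h1 | ⟨q, hq, _, h1⟩
    · exact absurd (h1.1.sub hpσ) hpT
    · exact ⟨q, hq, h1⟩

/-- cells not containing `p` stay conflict-free near `p` -/
lemma eventually_far (hσ : Cell ve nsq T S) {p : E3} (hp : p ∈ T) (hpS : p ∉ S) (v : E3) :
    ∀ᶠ ε : ℝ in 𝓝[>] 0, Af ve nsq S (ve (p + ε • v)) < nsq (p + ε • v) := by
  have h1 : ∀ᶠ z in 𝓝 p, Af ve nsq S (ve z) < nsq z :=
    (isOpen_lt (cont_ve _) cont_nsq).mem_nhds (hσ.lt hp hpS)
  exact (tend_line p v).eventually h1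

lemma eventually_far_all {p : E3} (hp : p ∈ T) (v : E3) :
    ∀ᶠ ε : ℝ in 𝓝[>] 0, ∀ σ, Cell ve nsq T σ → p ∉ σ →
      Af ve nsq σ (ve (p + ε • v)) < nsq (p + ε • v) := by
  classical
  have h1 : ∀ᶠ ε : ℝ in 𝓝[>] 0, ∀ σ ∈ (cells ve nsq T).filter (fun σ => p ∉ σ),
      Af ve nsq σ (ve (p + ε • v)) < nsq (p + ε • v) := by
    rw [Filter.eventually_all_finset]
    intro σ hσ
    rw [Finset.mem_filter, mem_cells] at hσ
    exact eventually_far hσ.1 hp hσ.2 v
  filter_upwards [h1] with ε hε σ h2 h3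
  exact hε σ (Finset.mem_filter.2 ⟨mem_cells.2 h2, h3⟩)

/-- first inner point, near a leaf -/
lemma hub_of_leaf (hT : GP T) {y : E3} (hy : Leaf T y τ) :
    ∃ p, p ∉ T ∧ GP (insert p T) ∧ extremal (insert p T) = extremal T ∧
      (cells ve nsq (insert p T)).card = (cells ve nsq T).card + 3 ∧ Hub (insert p T) p τ := by
  classical
  set v : E3 := ∑ a ∈ τ, (a - y) with hv
  have hvv : ((v, 0) : V4) = ∑ a ∈ τ, (ve a - ve y) := by
    rw [hv]
    apply Prod.ext
    · rw [Prod.fst_sum]; rfl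
    · rw [Prod.snd_sum]; simp [ve]
  have hcoef : ∀ q ∈ τ, q ≠ y → coef ve τ q (v, 0) = 1 := by
    intro q hq hqy
    rw [hvv, map_sum, Finset.sum_eq_single q]
    · rw [map_sub, coef_self hy.1.isB hq, coef_ne hy.1.isB hq hy.2.1 hqy, sub_zero]
    · intro b hb hbq
      rw [map_sub, coef_ne hy.1.isB hq hb (Ne.symm hbq), coef_ne hy.1.isB hq hy.2.1 hqy, sub_zero]
    · intro h; exact absurd hq h
  have hyT : y ∈ T := hy.1.sub hy.2.1
  have e1 : ∀ᶠ ε : ℝ in 𝓝[>] 0, ∀ q ∈ τ, 0 < coef ve τ q (ve (y + ε • v)) := by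
    rw [Filter.eventually_all_finset]
    intro q hq
    by_cases hqy : q = y
    · have h1 : ∀ᶠ ε : ℝ in 𝓝[>] 0, 0 < coef ve τ q (ve y + ε • (v, 0)) := by
        apply (tendsto_line _ _ _).eventually_const_lt
        rw [hqy, coef_self hy.1.isB hy.2.1]; exact one_pos
      filter_upwards [h1] with ε hε
      rw [ve_line]; exact hε
    · filter_upwards [self_mem_nhdsWithin] with ε hε
      have hε' : (0 : ℝ) < ε := hε
      rw [ve_line, map_add, map_smul, hcoef q hq hqy, coef_ne hy.1.isB hq hy.2.1 hqy, zero_add,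
        smul_eq_mul, mul_one]
      exact hε'
  obtain ⟨ε, h1, h2⟩ := (e1.and (eventually_far_all hyT v)).exists
  exact insert_interior hT hy.1 h1 fun σ hσ hne => h2 σ hσ fun h => hne (hy.2.2 σ hσ h)

/-- further inner points, near the previous one -/
lemma hub_of_hub (hT : GP T) {p : E3} (hp : Hub T p τ) :
    ∃ p' τ', p' ∉ T ∧ GP (insert p' T) ∧ extremal (insert p' T) = extremal T ∧
      (cells ve nsq (insert p' T)).card = (cells ve nsq T).card + 3 ∧ Hub (insert p' T) p' τ' := by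
  classical
  obtain ⟨q0, hq0⟩ : τ.Nonempty := by rw [← Finset.card_pos, hp.isB.1]; norm_num
  set ρ := insert p (τ.erase q0) with hρ
  have hρc := hp.cell q0 hq0
  have hpρ : p ∈ ρ := Finset.mem_insert_self _ _
  have hq0p : q0 ≠ p := fun h => hp.notMem (h ▸ hq0)
  have hμ0 := hp.pos q0 hq0
  -- coordinates of `p - q0` in `ρ`
  have hdec : ∑ a ∈ ρ, (if a = p then 1 - (coef ve τ q0 (ve p))⁻¹ else
      (coef ve τ q0 (ve p))⁻¹ * coef ve τ a (ve p)) • ve a = ((p - q0, 0) : V4) := by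
    have hpe : p ∉ τ.erase q0 := fun h' => hp.notMem (Finset.mem_of_mem_erase h')
    rw [hρ, Finset.sum_insert hpe, if_pos rfl]
    have e1 : ∑ a ∈ τ.erase q0, (if a = p then 1 - (coef ve τ q0 (ve p))⁻¹ else
        (coef ve τ q0 (ve p))⁻¹ * coef ve τ a (ve p)) • ve a =
        (coef ve τ q0 (ve p))⁻¹ • ∑ a ∈ τ.erase q0, coef ve τ a (ve p) • ve a := by
      rw [Finset.smul_sum]
      refine Finset.sum_congr rfl fun a ha => ?_
      have hap : a ≠ p := fun h' => hpe (h' ▸ ha)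
      rw [if_neg hap, mul_smul]
    have e2 := Finset.add_sum_erase τ (fun a => coef ve τ a (ve p) • ve a) hq0
    rw [coef_sum hp.isB] at e2
    have e3 : ∑ a ∈ τ.erase q0, coef ve τ a (ve p) • ve a =
        ve p - coef ve τ q0 (ve p) • ve q0 := eq_sub_of_add_eq' e2
    rw [e1, e3, smul_sub, smul_smul, inv_mul_cancel₀ hμ0.ne', one_smul, ve_sub, sub_smul, one_smul]
    abel
  have hcoef : ∀ q ∈ ρ, q ≠ p → 0 < coef ve ρ q (p - q0, 0) := by
    intro q hq hqp
    rw [coef_unique hρc.isB hdec q hq, if_neg hqp]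
    exact mul_pos (inv_pos.2 hμ0)
      (hp.pos q (Finset.mem_of_mem_erase ((Finset.mem_insert.1 hq).resolve_left hqp)))
  have e1 : ∀ᶠ ε : ℝ in 𝓝[>] 0, ∀ q ∈ ρ, 0 < coef ve ρ q (ve (p + ε • (p - q0))) := by
    rw [Filter.eventually_all_finset]
    intro q hq
    by_cases hqp : q = p
    · have h1 : ∀ᶠ ε : ℝ in 𝓝[>] 0, 0 < coef ve ρ q (ve p + ε • (p - q0, 0)) := by
        apply (tendsto_line _ _ _).eventually_const_lt
        rw [hqp, coef_self hρc.isB hpρ]; exact one_pos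
      filter_upwards [h1] with ε hε
      rw [ve_line]; exact hε
    · filter_upwards [self_mem_nhdsWithin] with ε hε
      have hε' : (0 : ℝ) < ε := hε
      rw [ve_line, map_add, map_smul, coef_ne hρc.isB hq hpρ hqp, zero_add, smul_eq_mul]
      exact mul_pos hε' (hcoef q hq hqp)
  obtain ⟨ε, ⟨h1, h2⟩, h3⟩ := ((e1.and (eventually_far_all hp.mem (p - q0))).and
    self_mem_nhdsWithin).exists
  have hε : (0 : ℝ) < ε := h3
  obtain ⟨p', hp'⟩ := insert_interior hT hρc h1 fun σ hσ hne => by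
    by_cases hpσ : p ∈ σ
    · obtain ⟨q1, hq1, hσe⟩ := hp.all σ hσ hpσ
      have hq01 : q1 ≠ q0 := by
        rintro rfl
        exact hne hσe
      have hq0σ : q0 ∈ σ := by
        rw [hσe]; exact Finset.mem_insert_of_mem (Finset.mem_erase.2 ⟨hq01.symm, hq0⟩)
      rw [ve_line, ve_sub, map_add, map_smul, map_sub, Af_vec hσ.isB nsq hpσ,
        Af_vec hσ.isB nsq hq0σ, nsq_line, smul_eq_mul]
      have h4 : ⟪p, p - q0⟫ = (nsq p - nsq q0 + nsq (p - q0)) / 2 := by
        rw [nsq_sub, inner_sub_right]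
        have : ⟪p, p⟫ = nsq p := rfl
        rw [this]; ring
      rw [h4]
      have h5 : 0 < nsq (p - q0) := lt_of_le_of_ne (nsq_nonneg _) fun h =>
        hq0p (sub_eq_zero.1 (nsq_eq_zero.1 h.symm)).symm
      have h6 := mul_pos hε h5
      have h7 := mul_pos (pow_pos hε 2) h5
      nlinarith
    · exact h2 σ hσ hpσ
  exact ⟨p', ρ, hp'⟩

end Pool.Agent.Helper486.Del
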