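import Pool.Agent.Helper486.Del.Edge

namespace Pool.Agent.Helper486.Del

open Finset Filter Topology
open scoped RealInnerProductSpace

variable {T τ : Finset E3} {g : E3 → ℝ} {G : E3 → E3} {f : E3 → ℝ}

lemma Lk_symm {p a b : E3} (hap : a ≠ p) (h : b ∈ Lk f T p a) : a ∈ Lk f T p b := by
  obtain ⟨h1, h2, τ, hτ, hb⟩ := mem_Lk.1 h
  obtain ⟨h3, h4, h5⟩ := mem_St.1 hτ
  exact mem_Lk.2 ⟨hap, h2.symm, τ, mem_St.2 ⟨h3, h4, hb⟩, h5⟩

/-- independent directions inside a cell -/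
lemma dir_indep (hB : IsB ve τ) {p a b : E3} (hp : p ∈ τ) (ha : a ∈ τ) (hb : b ∈ τ) (hap : a ≠ p)
    (hab : a ≠ b) {x y : ℝ} (h : x • (a - p) + y • (b - p) = 0) : x = 0 := by
  have h1 := congrArg (gr (fun z => if z = a then 1 else 0) τ) h
  rw [map_add, map_smul, map_smul, gr_sub hB _ ha hp, gr_sub hB _ hb hp, map_zero] at h1
  simpa [hap.symm, hab.symm] using h1

/-- a maximum of the weight at an inner point propagates to its neighbours -/
lemma inner_max (C : Conf ve nsq hh T) (hR : ∀ τ, Cell ve nsq T τ → Rel g G τ) {p : E3}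
    (hp : Inner ve T p) (hM : ∀ q ∈ T, g q ≤ g p) (hτ : Cell ve nsq T τ)
    (hpτ : p ∈ τ) : ∀ q ∈ τ, g q = g p := by
  classical
  by_contra hcon
  push Not at hcon
  obtain ⟨q0, hq0τ, hq0⟩ := hcon
  have hq0p : q0 ≠ p := fun h => hq0 (by rw [h])
  set R : E3 → E3 → Prop := fun a b => a ≠ p ∧ b ∈ Lk nsq T p a with hRdef
  have hRsymm : Std.Symm R := ⟨by
    rintro a b ⟨hap, hb⟩
    exact ⟨(mem_Lk.1 hb).1, Lk_symm hap hb⟩⟩
  have hRT : ∀ {a b}, R a b → b ∈ T := by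
    rintro a b ⟨_, hb⟩
    obtain ⟨_, _, τ, hτ, hc⟩ := mem_Lk.1 hb
    exact (mem_St.1 hτ).1.sub hc
  have hq0T : q0 ∈ T := hτ.sub hq0τ
  have hKT : ∀ {a}, Relation.ReflTransGen R q0 a → a ∈ T := by
    intro a ha
    induction ha with
    | refl => exact hq0T
    | tail _ h _ => exact hRT h
  have hKp : ∀ {a}, Relation.ReflTransGen R q0 a → a ≠ p := by
    intro a ha
    induction ha with
    | refl => exact hq0p
    | tail _ h _ => exact (mem_Lk.1 h.2).1
  have hbal := fun (q : E3) (hqp : q ≠ p) => edge_balance C hR hp hqp.symm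
  -- positivity on the component
  have hy : ∀ {a}, Relation.ReflTransGen R q0 a → g a < g p := by
    intro a ha
    induction ha with
    | refl => exact lt_of_le_of_ne (hM q0 hq0T) hq0
    | @tail a b hqa hab ih =>
      refine lt_of_le_of_ne (hM b (hRT hab)) fun he => ?_
      have hbp : b ≠ p := (mem_Lk.1 hab.2).1
      obtain ⟨φ, s, h1, _, h3⟩ := hbal b hbp
      rw [he, sub_self, mul_zero] at h3
      have h4 : ∀ c ∈ Lk nsq T p b, 0 ≤ -(φ c * (g c - g p)) := by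
        intro c hc
        have h5 : g c ≤ g p := hM c (hRT ⟨hbp, hc⟩)
        have := mul_nonneg (h1 c hc).le (sub_nonneg.2 h5)
        linarith
      have h6 : ∑ c ∈ Lk nsq T p b, -(φ c * (g c - g p)) = 0 := by
        rw [Finset.sum_neg_distrib, h3, neg_zero]
      have h7 := (Finset.sum_eq_zero_iff_of_nonneg h4).1 h6 a (Lk_symm hab.1 hab.2)
      have h8 := h1 a (Lk_symm hab.1 hab.2)
      have h9 : g a - g p = 0 := by
        rcases mul_eq_zero.1 (neg_eq_zero.1 h7) with h | h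
        · exact absurd h h8.ne'
        · exact h
      linarith
  -- a neighbour of `q0`
  obtain ⟨c1, hc1τ, hc1p, hc1q⟩ : ∃ c1 ∈ τ, c1 ≠ p ∧ c1 ≠ q0 := by
    by_contra hcon
    push Not at hcon
    have : τ ⊆ {p, q0} := by
      intro x hx
      by_cases hxp : x = p
      · simp [hxp]
      · simp [hcon x hx hxp]
    have := (Finset.card_le_card this).trans Finset.card_le_two
    rw [hτ.isB.1] at this
    omega
  have hR1 : R q0 c1 := ⟨hq0p, mem_Lk.2 ⟨hc1p, hc1q, τ, mem_St.2 ⟨hτ, hpτ, hq0τ⟩, hc1τ⟩⟩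
  set ξ : E3 := nsq (c1 - p) • (q0 - p) - ⟪q0 - p, c1 - p⟫ • (c1 - p) with hξ
  have hn1 : 0 < nsq (c1 - p) := lt_of_le_of_ne (nsq_nonneg _) fun h =>
    (sub_ne_zero.2 hc1p) (nsq_eq_zero.1 h.symm)
  have e1 : ⟪ξ, c1 - p⟫ = 0 := by
    rw [hξ, inner_sub_left, inner_smul_left, inner_smul_left]
    simp only [conj_trivial, nsq]
    ring
  have hξ0 : ξ ≠ 0 := by
    intro h0
    have h1 : nsq (c1 - p) • (q0 - p) + (-⟪q0 - p, c1 - p⟫) • (c1 - p) = 0 := by
      rw [neg_smul, ← sub_eq_add_neg, ← hξ, h0]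
    exact hn1.ne' (dir_indep hτ.isB hpτ hq0τ hc1τ hq0p hc1q.symm h1)
  have e2 : 0 < ⟪ξ, q0 - p⟫ := by
    have h1 : nsq ξ = nsq (c1 - p) * ⟪ξ, q0 - p⟫ := by
      have h2 : nsq ξ = ⟪ξ, nsq (c1 - p) • (q0 - p) - ⟪q0 - p, c1 - p⟫ • (c1 - p)⟫ := by
        rw [← hξ]; rfl
      rw [h2, inner_sub_right, inner_smul_right, inner_smul_right, e1, mul_zero, sub_zero]
    have h2 : 0 < nsq ξ := lt_of_le_of_ne (nsq_nonneg _) fun h => hξ0 (nsq_eq_zero.1 h.symm)
    rw [h1] at h2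
    exact pos_of_mul_pos_right h2 hn1.le |> fun h => h
  -- the minimal ratio
  set K' := T.filter (fun c => Relation.ReflTransGen R q0 c ∧ 0 < ⟪ξ, c - p⟫) with hK'
  obtain ⟨c', hc', hmin⟩ := Finset.exists_min_image K' (fun c => (g p - g c) / ⟪ξ, c - p⟫)
    ⟨q0, Finset.mem_filter.2 ⟨hq0T, Relation.ReflTransGen.refl, e2⟩⟩
  rw [hK', Finset.mem_filter] at hc'
  set t := (g p - g c') / ⟪ξ, c' - p⟫ with ht
  have ht0 : 0 < t := div_pos (sub_pos.2 (hy hc'.2.1)) hc'.2.2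
  have hu : ∀ {a}, Relation.ReflTransGen R q0 a → 0 ≤ (g p - g a) - t * ⟪ξ, a - p⟫ := by
    intro a ha
    rcases le_or_gt ⟪ξ, a - p⟫ 0 with h0 | h0
    · have h1 := hy ha
      have h2 := mul_nonneg ht0.le (neg_nonneg.2 h0)
      linarith
    · have h1 := hmin a (Finset.mem_filter.2 ⟨hKT ha, ha, h0⟩)
      rw [le_div_iff₀ h0] at h1
      linarith
  have hu0 : (g p - g c') - t * ⟪ξ, c' - p⟫ = 0 := by
    rw [ht, div_mul_cancel₀ _ hc'.2.2.ne']; ring
  have hall : ∀ {a}, Relation.ReflTransGen R c' a → (g p - g a) - t * ⟪ξ, a - p⟫ = 0 := by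
    intro a ha
    induction ha with
    | refl => exact hu0
    | @tail a b hca hab ih =>
      have hqa : Relation.ReflTransGen R q0 a := hc'.2.1.trans hca
      obtain ⟨φ, s, h1, h2, h3⟩ := hbal a (hKp hqa)
      have h4 : ∑ c ∈ Lk nsq T p a, φ c * ⟪ξ, c - p⟫ = s * ⟪ξ, a - p⟫ := by
        have := congrArg (fun x => ⟪ξ, x⟫) h2
        simp only [inner_sum, inner_smul_right] at this
        exact this
      have h5 : ∑ c ∈ Lk nsq T p a, φ c * ((g p - g c) - t * ⟪ξ, c - p⟫) = 0 := by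
        have h6 : ∀ c ∈ Lk nsq T p a, φ c * ((g p - g c) - t * ⟪ξ, c - p⟫) =
            -(φ c * (g c - g p)) - t * (φ c * ⟪ξ, c - p⟫) := fun c _ => by ring
        rw [Finset.sum_congr rfl h6, Finset.sum_sub_distrib, Finset.sum_neg_distrib, h3,
          ← Finset.mul_sum, h4]
        have : -(s * (g a - g p)) - t * (s * ⟪ξ, a - p⟫) = s * ((g p - g a) - t * ⟪ξ, a - p⟫) := by
          ring
        rw [this, ih, mul_zero]
      have h6 : ∀ c ∈ Lk nsq T p a, 0 ≤ φ c * ((g p - g c) - t * ⟪ξ, c - p⟫) := fun c hc =>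
        mul_nonneg (h1 c hc).le (hu (hqa.tail ⟨hKp hqa, hc⟩))
      have h7 := (Finset.sum_eq_zero_iff_of_nonneg h6).1 h5 b hab.2
      exact (mul_eq_zero.1 h7).resolve_left (h1 b hab.2).ne'
  have hcq : Relation.ReflTransGen R c' q0 :=
    (Relation.ReflTransGen.stdSymm (r := R)).symm _ _ hc'.2.1
  have hfin := hall (hcq.tail hR1)
  rw [e1, mul_zero, sub_zero] at hfin
  have := hy (Relation.ReflTransGen.refl.tail hR1 : Relation.ReflTransGen R q0 c1)
  linarith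

end Pool.Agent.Helper486.Del
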