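import Pool.Agent.Helper486.Del.Base

namespace Pool.Agent.Helper486.Del

open Finset Filter Topology
open scoped RealInnerProductSpace

/-- determinant of three vectors -/
def det3 (x y z : E3) : ℝ :=
  x 0 * (y 1 * z 2 - y 2 * z 1) - x 1 * (y 0 * z 2 - y 2 * z 0) + x 2 * (y 0 * z 1 - y 1 * z 0)

/-- determinant as a functional of the last vector -/
def detL (u v : E3) : E3 →ₗ[ℝ] ℝ where
  toFun z := det3 u v z
  map_add' x y := by simp [det3]; ring
  map_smul' c x := by simp [det3]; ring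

lemma detL_apply (u v z : E3) : detL u v z = det3 u v z := rfl

lemma det3_self1 (u v : E3) : det3 u v u = 0 := by unfold det3; ring
lemma det3_self2 (u v : E3) : det3 u v v = 0 := by unfold det3; ring
lemma det3_swap (u v w : E3) : det3 u w v = -det3 u v w := by unfold det3; ring
lemma det3_zero (u v : E3) : det3 u v 0 = 0 := by simp [det3]

lemma cramer (u v w x : E3) :
    det3 u v w • x = det3 x v w • u + det3 u x w • v + det3 u v x • w := by
  ext i
  simp only [PiLp.smul_apply, PiLp.add_apply, smul_eq_mul]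
  fin_cases i <;> (unfold det3; simp only [Fin.zero_eta, Fin.mk_one, Fin.reduceFinMk]; ring)

lemma functional_eq {ψ : E3 →ₗ[ℝ] ℝ} {u v w : E3} (hu : ψ u = 0) (hv : ψ v = 0)
    (hD : det3 u v w ≠ 0) (x : E3) : ψ x = ψ w / det3 u v w * det3 u v x := by
  have h := congrArg ψ (cramer u v w x)
  simp only [map_add, map_smul, smul_eq_mul, hu, hv, mul_zero, zero_add] at h
  field_simp
  linarith

lemma jump {β : E3 → (E3 →ₗ[ℝ] ℝ)} (hanti : ∀ x y, β x y = -β y x) {ψ : E3 →ₗ[ℝ] ℝ} {φ a b : ℝ}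
    {u v w : E3} (hψ : ∀ x, ψ x = φ * det3 u v x) (hu : ∀ x, β x u = ψ x * a)
    (hv : ∀ x, β x v = ψ x * b) (hD : det3 u v w ≠ 0) (x y : E3) :
    β x y = φ * det3 (a • v - b • u) x y := by
  have h1 := congrArg (β x) (cramer u v w y)
  have h2 := congrArg (β w) (cramer u v w x)
  simp only [map_add, map_smul, smul_eq_mul] at h1 h2
  rw [hu, hv] at h1 h2
  have h3 : β w w = 0 := by have := hanti w w; linarith
  rw [h3, mul_zero, add_zero] at h2
  rw [hanti x w] at h1
  rw [hψ] at h1 h2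
  have p1 : det3 u v x * det3 y v w - det3 u v y * det3 x v w = det3 u v w * det3 v x y := by
    unfold det3; ring
  have p2 : det3 u v x * det3 u y w - det3 u v y * det3 u x w = -(det3 u v w * det3 u x y) := by
    unfold det3; ring
  have p3 : det3 (a • v - b • u) x y = a * det3 v x y - b * det3 u x y := by
    simp only [det3, PiLp.sub_apply, PiLp.smul_apply, smul_eq_mul]; ring
  rw [p3]
  have h4 : det3 u v w * (det3 u v w * β x y) =
      det3 u v w * (det3 u v w * (φ * (a * det3 v x y - b * det3 u x y))) := by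
    rw [h1]
    have h5 : det3 u v w * (det3 u v y * -(β w) x) = -(det3 u v y * (det3 u v w * (β w) x)) := by ring
    rw [mul_add, h5, h2]
    linear_combination (φ * det3 u v w * a) * p1 + (φ * det3 u v w * b) * p2
  exact mul_left_cancel₀ hD (mul_left_cancel₀ hD h4)

lemma par_of_det {u X : E3} (hu : u ≠ 0) (h : ∀ x, det3 u X x = 0) : ∃ s : ℝ, X = s • u := by
  have h0 : u 1 * X 2 - u 2 * X 1 = 0 := by
    have := h (WithLp.toLp 2 ![1, 0, 0])
    simp [det3] at this; linarith
  have h1 : u 0 * X 2 - u 2 * X 0 = 0 := by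
    have := h (WithLp.toLp 2 ![0, 1, 0])
    simp [det3] at this; linarith
  have h2 : u 0 * X 1 - u 1 * X 0 = 0 := by
    have := h (WithLp.toLp 2 ![0, 0, 1])
    simp [det3] at this; linarith
  obtain ⟨i, hi⟩ : ∃ i, u i ≠ 0 := by
    by_contra hcon
    push Not at hcon
    exact hu (by ext i; simpa using hcon i)
  fin_cases i
  · have hi : u 0 ≠ 0 := hi
    refine ⟨X 0 / u 0, ?_⟩
    ext j
    simp only [PiLp.smul_apply, smul_eq_mul]
    fin_cases j
    · show X 0 = X 0 / u 0 * u 0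
      field_simp
    · show X 1 = X 0 / u 0 * u 1
      field_simp; linarith
    · show X 2 = X 0 / u 0 * u 2
      field_simp; linarith
  · have hi : u 1 ≠ 0 := hi
    refine ⟨X 1 / u 1, ?_⟩
    ext j
    simp only [PiLp.smul_apply, smul_eq_mul]
    fin_cases j
    · show X 0 = X 1 / u 1 * u 0
      field_simp; linarith
    · show X 1 = X 1 / u 1 * u 1
      field_simp
    · show X 2 = X 1 / u 1 * u 2
      field_simp; linarith
  · have hi : u 2 ≠ 0 := hi
    refine ⟨X 2 / u 2, ?_⟩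
    ext j
    simp only [PiLp.smul_apply, smul_eq_mul]
    fin_cases j
    · show X 0 = X 2 / u 2 * u 0
      field_simp; linarith
    · show X 1 = X 2 / u 2 * u 1
      field_simp; linarith
    · show X 2 = X 2 / u 2 * u 2
      field_simp

lemma zero_of_det {Y : E3} (h : ∀ x y, det3 Y x y = 0) : Y = 0 := by
  ext i
  fin_cases i
  · have := h (WithLp.toLp 2 ![0, 1, 0]) (WithLp.toLp 2 ![0, 0, 1])
    simpa [det3] using this
  · have := h (WithLp.toLp 2 ![1, 0, 0]) (WithLp.toLp 2 ![0, 0, 1])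
    simpa [det3] using this
  · have := h (WithLp.toLp 2 ![1, 0, 0]) (WithLp.toLp 2 ![0, 1, 0])
    simpa [det3] using this

variable {T τ : Finset E3} {g : E3 → ℝ} {G : E3 → E3}

/-- gradient of the interpolation of `f` on a cell -/
noncomputable def gr (f : E3 → ℝ) (τ : Finset E3) : E3 →ₗ[ℝ] ℝ :=
  (Af ve f τ).comp (LinearMap.inl ℝ E3 ℝ)

/-- linear part of the interpolation of a vector field on a cell -/
noncomputable def LL (G : E3 → E3) (τ : Finset E3) : E3 →ₗ[ℝ] E3 :=
  ∑ a ∈ τ, ((coef ve τ a).comp (LinearMap.inl ℝ E3 ℝ)).smulRight (G a)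

lemma gr_apply (f : E3 → ℝ) (x : E3) : gr f τ x = ∑ a ∈ τ, f a * coef ve τ a (x, 0) := by
  unfold gr
  rw [LinearMap.comp_apply, LinearMap.inl_apply, Af_apply]

lemma LL_apply (x : E3) : LL G τ x = ∑ a ∈ τ, coef ve τ a (x, 0) • G a := by
  unfold LL
  rw [LinearMap.sum_apply]
  rfl

lemma gr_sub (hB : IsB ve τ) (f : E3 → ℝ) {a b : E3} (ha : a ∈ τ) (hb : b ∈ τ) :
    gr f τ (a - b) = f a - f b := by
  have : ((a - b, 0) : V4) = ve a - ve b := by simp [ve]
  unfold gr
  rw [LinearMap.comp_apply, LinearMap.inl_apply, this, map_sub, Af_vec hB f ha, Af_vec hB f hb]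

lemma LL_sub (hB : IsB ve τ) {a b : E3} (ha : a ∈ τ) (hb : b ∈ τ) :
    LL G τ (a - b) = G a - G b := by
  have : ((a - b, 0) : V4) = ve a - ve b := by simp [ve]
  have key : ∀ c ∈ τ, ∑ x ∈ τ, coef ve τ x (ve c) • G x = G c := by
    intro c hc
    rw [Finset.sum_eq_single c]
    · rw [coef_self hB hc, one_smul]
    · intro x hx hxc
      rw [coef_ne hB hx hc hxc, zero_smul]
    · intro h'; exact absurd hc h'
  rw [LL_apply, this]
  simp only [map_sub, sub_smul, Finset.sum_sub_distrib]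
  rw [key a ha, key b hb]

/-- the basic bilinear form of a cell -/
noncomputable def BB (g : E3 → ℝ) (G : E3 → E3) (τ : Finset E3) (x : E3) : E3 →ₗ[ℝ] ℝ :=
  gr nsq τ x • gr g τ - (innerₛₗ ℝ x).comp (LL G τ)

lemma BB_apply (x y : E3) : BB g G τ x y = gr nsq τ x * gr g τ y - ⟪x, LL G τ y⟫ := rfl

lemma quad_zero {α : Type*} (s : Finset α) (l : α → ℝ) (M : α → α → ℝ)
    (hM : ∀ a ∈ s, ∀ b ∈ s, M a b + M b a = M a a + M b b) (hl : ∑ a ∈ s, l a = 0) :
    ∑ a ∈ s, ∑ b ∈ s, l a * l b * M a b = 0 := by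
  have h1 : ∑ a ∈ s, ∑ b ∈ s, l a * l b * M b a = ∑ a ∈ s, ∑ b ∈ s, l a * l b * M a b := by
    rw [Finset.sum_comm]
    refine Finset.sum_congr rfl fun a _ => Finset.sum_congr rfl fun b _ => by ring
  have h2 : ∑ a ∈ s, ∑ b ∈ s, l a * l b * M a b + ∑ a ∈ s, ∑ b ∈ s, l a * l b * M b a =
      ∑ a ∈ s, ∑ b ∈ s, l a * l b * (M a a + M b b) := by
    rw [← Finset.sum_add_distrib]
    refine Finset.sum_congr rfl fun a ha => ?_
    rw [← Finset.sum_add_distrib]
    refine Finset.sum_congr rfl fun b hb => ?_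
    rw [← hM a ha b hb]; ring
  have h3 : ∑ a ∈ s, ∑ b ∈ s, l a * l b * (M a a + M b b) = 0 := by
    have e1 : ∀ a ∈ s, ∑ b ∈ s, l a * l b * (M a a + M b b) = l a * ∑ b ∈ s, l b * M b b := by
      intro a _
      have : ∑ b ∈ s, l a * l b * (M a a + M b b) =
          (l a * M a a) * (∑ b ∈ s, l b) + l a * ∑ b ∈ s, l b * M b b := by
        rw [Finset.mul_sum, Finset.mul_sum, ← Finset.sum_add_distrib]
        exact Finset.sum_congr rfl fun b _ => by ring
      rw [this, hl, mul_zero, zero_add]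
    rw [Finset.sum_congr rfl e1, ← Finset.sum_mul, hl, zero_mul]
  rw [h1] at h2
  linarith

/-- the linearised length relations -/
def Rel (g : E3 → ℝ) (G : E3 → E3) (τ : Finset E3) : Prop :=
  ∀ a ∈ τ, ∀ b ∈ τ, ⟪a - b, G a - G b⟫ = (nsq a - nsq b) * (g a - g b)

lemma BB_self (hB : IsB ve τ) (hR : Rel g G τ) (x : E3) : BB g G τ x x = 0 := by
  have hx : ∑ a ∈ τ, coef ve τ a (x, 0) • a = x := coef_sum_fst hB (x, 0)
  have h0 : ∑ a ∈ τ, coef ve τ a (x, 0) = 0 := coef_sum_snd hB (x, 0)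
  have h1 : ⟪x, LL G τ x⟫ = ∑ a ∈ τ, ∑ b ∈ τ,
      coef ve τ a (x, 0) * coef ve τ b (x, 0) * ⟪a, G b⟫ := by
    conv_lhs => rw [LL_apply, ← hx]
    rw [sum_inner]
    refine Finset.sum_congr rfl fun a _ => ?_
    rw [hx, inner_sum]
    refine Finset.sum_congr rfl fun b _ => ?_
    rw [inner_smul_left, inner_smul_right]
    simp only [conj_trivial]
    ring
  have h2 : gr nsq τ x * gr g τ x = ∑ a ∈ τ, ∑ b ∈ τ,
      coef ve τ a (x, 0) * coef ve τ b (x, 0) * (nsq a * g b) := by
    rw [gr_apply, gr_apply, Finset.sum_mul_sum]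
    refine Finset.sum_congr rfl fun a _ => Finset.sum_congr rfl fun b _ => by ring
  rw [BB_apply, h1, h2, ← Finset.sum_sub_distrib]
  simp only [← Finset.sum_sub_distrib, ← mul_sub]
  refine quad_zero τ (fun a => coef ve τ a (x, 0)) (fun a b => nsq a * g b - ⟪a, G b⟫) ?_ h0
  intro a ha b hb
  have h3 := hR a ha b hb
  rw [inner_sub_left, inner_sub_right, inner_sub_right] at h3
  linarith

lemma BB_anti (hB : IsB ve τ) (hR : Rel g G τ) (x y : E3) : BB g G τ x y = -BB g G τ y x := by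
  have h1 := BB_self hB hR (x + y)
  have h2 := BB_self hB hR x
  have h3 := BB_self hB hR y
  rw [BB_apply] at h1 h2 h3 ⊢
  rw [BB_apply]
  simp only [map_add, inner_add_left, inner_add_right] at h1
  linarith

/-- two cells on the same side of a common triangle coincide -/
lemma side_unique {τ1 τ2 F : Finset E3} {f : E3 → ℝ} (h1 : Cell ve f T τ1) (h2 : Cell ve f T τ2)
    {z1 z2 : E3} (hz1 : z1 ∉ F) (hz2 : z2 ∉ F) (e1 : τ1 = insert z1 F) (e2 : τ2 = insert z2 F)
    {ℓ : V4 →ₗ[ℝ] ℝ} (hF : ∀ a ∈ F, ℓ (ve a) = 0) (hℓ : 0 < ℓ (ve z1) * ℓ (ve z2)) : τ1 = τ2 := by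
  have hm1 : z1 ∈ τ1 := by rw [e1]; exact Finset.mem_insert_self _ _
  have hm2 : z2 ∈ τ2 := by rw [e2]; exact Finset.mem_insert_self _ _
  have hF1 : F ⊆ τ1 := by rw [e1]; exact Finset.subset_insert _ _
  have hF2 : F ⊆ τ2 := by rw [e2]; exact Finset.subset_insert _ _
  have hne2 : ℓ (ve z2) ≠ 0 := fun h => by rw [h, mul_zero] at hℓ; exact lt_irrefl _ hℓ
  have hcz : ∀ x, coef ve τ2 z2 x = ℓ x / ℓ (ve z2) := by
    intro x
    have := ext_on h2.isB (A := coef ve τ2 z2) (B := (ℓ (ve z2))⁻¹ • ℓ) (fun a ha => by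
      rw [LinearMap.smul_apply, smul_eq_mul]
      by_cases haz : a = z2
      · rw [haz, coef_self h2.isB hm2, inv_mul_cancel₀ hne2]
      · rw [coef_ne h2.isB hm2 ha (Ne.symm haz), hF a (by
          rw [e2] at ha
          exact (Finset.mem_insert.1 ha).resolve_left haz), mul_zero])
    rw [this, LinearMap.smul_apply, smul_eq_mul, inv_mul_eq_div]
  have hpos2 : 0 < coef ve τ2 z2 (ve z1) := by
    rw [hcz]
    rcases lt_or_gt_of_ne hne2 with h | h
    · exact div_pos_of_neg_of_neg (neg_of_mul_pos_left hℓ h.le) h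
    · exact div_pos (pos_of_mul_pos_left hℓ h.le) h
  have hev : ∀ᶠ ε : ℝ in 𝓝[>] 0, ∀ q ∈ τ2, 0 ≤ coef ve τ2 q (∑ a ∈ F, ve a + ε • ve z1) := by
    rw [Filter.eventually_all_finset]
    intro q hq
    by_cases hqz : q = z2
    · filter_upwards [self_mem_nhdsWithin] with ε hε
      have hε' : (0 : ℝ) < ε := hε
      rw [hqz, map_add, map_smul, map_sum, Finset.sum_eq_zero, zero_add, smul_eq_mul]
      · exact (mul_pos hε' hpos2).le
      · intro a ha
        exact coef_ne h2.isB hm2 (hF2 ha) (fun h => hz2 (h ▸ ha))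
    · have hqF : q ∈ F := by
        rw [e2] at hq
        exact (Finset.mem_insert.1 hq).resolve_left hqz
      have hs : ∑ a ∈ F, coef ve τ2 q (ve a) = 1 := by
        rw [Finset.sum_eq_single q]
        · exact coef_self h2.isB hq
        · intro a ha hne
          exact coef_ne h2.isB hq (hF2 ha) (Ne.symm hne)
        · intro h; exact absurd hqF h
      have hlim : Tendsto (fun ε : ℝ => 1 + ε * coef ve τ2 q (ve z1)) (𝓝[>] 0)
          (𝓝 (1 + 0 * coef ve τ2 q (ve z1))) := by
        apply Tendsto.mono_left _ nhdsWithin_le_nhds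
        exact (continuous_const.add (continuous_id.mul continuous_const)).tendsto 0
      have := hlim.eventually_const_lt (show (0 : ℝ) < 1 + 0 * coef ve τ2 q (ve z1) by norm_num)
      filter_upwards [this] with ε hε
      rw [map_add, map_smul, map_sum, hs, smul_eq_mul]
      exact hε.le
  obtain ⟨ε, h4, h5⟩ := (hev.and self_mem_nhdsWithin).exists
  have hε' : (0 : ℝ) < ε := h5
  refine cell_unique h1 h2 (fun q hq => ?_) h4
  rw [map_add, map_smul, map_sum, smul_eq_mul]
  by_cases hqz : q = z1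
  · rw [hqz, Finset.sum_eq_zero, zero_add, coef_self h1.isB hm1, mul_one]
    · exact hε'
    · intro a ha
      exact coef_ne h1.isB hm1 (hF1 ha) (fun h => hz1 (h ▸ ha))
  · have hqF : q ∈ F := by
      rw [e1] at hq
      exact (Finset.mem_insert.1 hq).resolve_left hqz
    rw [Finset.sum_eq_single q]
    · rw [coef_self h1.isB hq, coef_ne h1.isB hq hm1 hqz, mul_zero, add_zero]; norm_num
    · intro a ha hne
      exact coef_ne h1.isB hq (hF1 ha) (Ne.symm hne)
    · intro h; exact absurd hqF h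

/-- the plane functional through three points -/
noncomputable def pl (p u v : E3) : V4 →ₗ[ℝ] ℝ :=
  (detL u v).comp (LinearMap.fst ℝ E3 ℝ - (LinearMap.snd ℝ E3 ℝ).smulRight p)

lemma pl_ve (p u v z : E3) : pl p u v (ve z) = det3 u v (z - p) := by
  simp only [pl, ve, LinearMap.comp_apply, LinearMap.sub_apply, LinearMap.fst_apply,
    LinearMap.smulRight_apply, LinearMap.snd_apply, one_smul]
  rfl

lemma cell_of_triangle {F : Finset E3} {f : E3 → ℝ} (hτ : Cell ve f T τ) (hF : F ⊆ τ)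
    (hc : F.card = 3) : ∃ z, z ∉ F ∧ τ = insert z F := by
  have h1 : (τ \ F).card = 1 := by rw [Finset.card_sdiff_of_subset hF, hτ.isB.1, hc]
  obtain ⟨z, hz⟩ := Finset.card_eq_one.1 h1
  have hzm : z ∈ τ \ F := by rw [hz]; exact Finset.mem_singleton_self z
  rw [Finset.mem_sdiff] at hzm
  refine ⟨z, hzm.2, ?_⟩
  symm
  apply Finset.eq_of_subset_of_card_le (Finset.insert_subset hzm.1 hF)
  rw [Finset.card_insert_of_notMem hzm.2, hc, hτ.isB.1]

/-- the fourth vertex is off the plane of the other three -/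
lemma det_ne {p q c z : E3} (hB : IsB ve (insert z {p, q, c})) (hz : z ∉ ({p, q, c} : Finset E3)) :
    det3 (q - p) (c - p) (z - p) ≠ 0 := by
  intro h0
  have h1 : pl p (q - p) (c - p) = 0 := by
    apply ext_on hB
    intro a ha
    rw [LinearMap.zero_apply, pl_ve]
    simp only [Finset.mem_insert, Finset.mem_singleton] at ha
    rcases ha with rfl | rfl | rfl | rfl
    · exact h0
    · rw [sub_self]; exact det3_zero _ _
    · exact det3_self1 _ _
    · exact det3_self2 _ _
  -- the directions are independent, so the functional is not zero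
  have h2 : ∀ x, det3 (q - p) (c - p) x = 0 := by
    intro x
    have := LinearMap.congr_fun h1 (x, 0)
    simpa [pl, detL_apply] using this
  have hqp : q ∈ insert z ({p, q, c} : Finset E3) := by simp
  have hcp : c ∈ insert z ({p, q, c} : Finset E3) := by simp
  have hpp : p ∈ insert z ({p, q, c} : Finset E3) := by simp
  have hcard := hB.1
  rw [Finset.card_insert_of_notMem hz] at hcard
  have hpq : p ≠ q := by
    rintro rfl
    have : ({p, p, c} : Finset E3).card ≤ 2 := by simpa using Finset.card_le_two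
    omega
  have hpc : p ≠ c := by
    rintro rfl
    have : ({p, q, p} : Finset E3) ⊆ {p, q} := by intro x; simp; tauto
    have := (Finset.card_le_card this).trans Finset.card_le_two
    omega
  have hqc : q ≠ c := by
    rintro rfl
    have : ({p, q, q} : Finset E3) ⊆ {p, q} := by intro x; simp
    have := (Finset.card_le_card this).trans Finset.card_le_two
    omega
  have hqp0 : q - p ≠ 0 := sub_ne_zero.2 hpq.symm
  obtain ⟨s, hs⟩ := par_of_det hqp0 h2
  -- c - p = s (q - p)
  have h3 := congrArg (gr (fun x => if x = c then 1 else 0) (insert z {p, q, c})) hs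
  rw [map_smul, gr_sub hB _ hcp hpp, gr_sub hB _ hqp hpp] at h3
  simp [hpc, hqc] at h3

lemma star_pair {f : E3 → ℝ} (C : Conf ve f hh T) {p q c : E3} (hp : Inner ve T p)
    {τ : Finset E3} (hτ : Cell ve f T τ) (hF : ({p, q, c} : Finset E3) ⊆ τ)
    (hc : ({p, q, c} : Finset E3).card = 3) :
    ∃ τ1 τ2 z1 z2, Cell ve f T τ1 ∧ Cell ve f T τ2 ∧ z1 ∉ ({p, q, c} : Finset E3) ∧
      z2 ∉ ({p, q, c} : Finset E3) ∧ τ1 = insert z1 {p, q, c} ∧ τ2 = insert z2 {p, q, c} ∧
      0 < det3 (q - p) (c - p) (z1 - p) ∧ det3 (q - p) (c - p) (z2 - p) < 0 ∧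
      ∀ σ, Cell ve f T σ → ({p, q, c} : Finset E3) ⊆ σ → σ = τ1 ∨ σ = τ2 := by
  have hplF : ∀ a ∈ ({p, q, c} : Finset E3), pl p (q - p) (c - p) (ve a) = 0 := by
    intro a ha
    rw [pl_ve]
    simp only [Finset.mem_insert, Finset.mem_singleton] at ha
    rcases ha with rfl | rfl | rfl
    · rw [sub_self]; exact det3_zero _ _
    · exact det3_self1 _ _
    · exact det3_self2 _ _
  obtain ⟨z, hz, hτz⟩ := cell_of_triangle hτ hF hc
  have hzτ : z ∈ τ := by rw [hτz]; exact Finset.mem_insert_self _ _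
  have hpτ : p ∈ τ := hF (by simp)
  have hpz : p ≠ z := fun h => hz (h ▸ (by simp))
  -- a point on the other side
  have hneg : ∃ y ∈ T, coef ve τ z (ve y) < 0 := by
    by_contra hcon
    push Not at hcon
    obtain ⟨ε, h1, h2⟩ := ((hp (-ve z)).and self_mem_nhdsWithin).exists
    have hε : (0 : ℝ) < ε := h2
    have h3 := h1.nonneg hcon
    rw [map_add, map_smul, map_neg, coef_ne hτ.isB hzτ hpτ (Ne.symm hpz), coef_self hτ.isB hzτ,
      zero_add, smul_eq_mul] at h3
    linarith
  obtain ⟨z', hz'T, hz'τ, hz'neg, hcell', _⟩ := pivot C.gen hτ hzτ hneg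
  have herase : τ.erase z = {p, q, c} := by rw [hτz, Finset.erase_insert hz]
  rw [herase] at hcell'
  have hz' : z' ∉ ({p, q, c} : Finset E3) := fun h => hz'τ (hF h)
  have hd : det3 (q - p) (c - p) (z - p) ≠ 0 := det_ne (hτz ▸ hτ.isB) hz
  have hd' : det3 (q - p) (c - p) (z' - p) ≠ 0 := det_ne hcell'.isB hz'
  -- opposite signs
  have hrel : coef ve τ z (ve z') = det3 (q - p) (c - p) (z' - p) / det3 (q - p) (c - p) (z - p) := by
    have h1 := ext_on hτ.isB (A := coef ve τ z)
      (B := (det3 (q - p) (c - p) (z - p))⁻¹ • pl p (q - p) (c - p)) (fun a ha => by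
        rw [LinearMap.smul_apply, smul_eq_mul]
        by_cases haz : a = z
        · rw [haz, coef_self hτ.isB hzτ, pl_ve, inv_mul_cancel₀ hd]
        · rw [coef_ne hτ.isB hzτ ha (Ne.symm haz), hplF a (by
            rw [hτz] at ha
            exact (Finset.mem_insert.1 ha).resolve_left haz), mul_zero])
    rw [h1, LinearMap.smul_apply, smul_eq_mul, pl_ve, inv_mul_eq_div]
  rw [hrel] at hz'neg
  have huniq : ∀ σ, Cell ve f T σ → ({p, q, c} : Finset E3) ⊆ σ →
      σ = τ ∨ σ = insert z' {p, q, c} := by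
    intro σ hσ hFσ
    obtain ⟨y, hy, hσy⟩ := cell_of_triangle hσ hFσ hc
    have hdy : det3 (q - p) (c - p) (y - p) ≠ 0 := det_ne (hσy ▸ hσ.isB) hy
    rcases div_neg_iff.1 hz'neg with ⟨s1, s2⟩ | ⟨s1, s2⟩ <;> rcases lt_or_gt_of_ne hdy with s3 | s3
    · left
      exact side_unique hσ hτ hy hz hσy hτz (ℓ := pl p (q - p) (c - p)) hplF
        (by rw [pl_ve, pl_ve]; exact mul_pos_of_neg_of_neg s3 s2)
    · right
      exact side_unique hσ hcell' hy hz' hσy rfl (ℓ := pl p (q - p) (c - p)) hplF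
        (by rw [pl_ve, pl_ve]; exact mul_pos s3 s1)
    · right
      exact side_unique hσ hcell' hy hz' hσy rfl (ℓ := pl p (q - p) (c - p)) hplF
        (by rw [pl_ve, pl_ve]; exact mul_pos_of_neg_of_neg s3 s1)
    · left
      exact side_unique hσ hτ hy hz hσy hτz (ℓ := pl p (q - p) (c - p)) hplF
        (by rw [pl_ve, pl_ve]; exact mul_pos s3 s2)
  rcases div_neg_iff.1 hz'neg with ⟨s1, s2⟩ | ⟨s1, s2⟩
  · exact ⟨_, τ, z', z, hcell', hτ, hz', hz, rfl, hτz, s1, s2, fun σ h1 h2 => (huniq σ h1 h2).symm⟩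
  · exact ⟨τ, _, z, z', hτ, hcell', hz, hz', hτz, rfl, s2, s1, huniq⟩

end Pool.Agent.Helper486.Del
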