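import Pool.Agent.Helper486.Del.Low

namespace Pool.Agent.Helper486.Del

open Finset Filter Topology

set_option linter.unusedSectionVars false

variable {P V : Type} [DecidableEq P] [AddCommGroup V] [Module ℝ V]
variable [hV : Fact (Module.finrank ℝ V = 4)] {vec : P → V} {τ : Finset P}
variable {f : P → ℝ} {T : Finset P} {h : V →ₗ[ℝ] ℝ}

/-- lifted points -/
def lft (vec : P → V) (f : P → ℝ) (q : P) : V × ℝ := (vec q, f q)

/-- facets of the lifted configuration -/
def QF (vec : P → V) (f : P → ℝ) (T τ : Finset P) : Prop :=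
  τ ⊆ T ∧ IsB vec τ ∧ ∃ Λ : V × ℝ →ₗ[ℝ] ℝ, (∀ q ∈ τ, Λ (lft vec f q) = 0) ∧
    ∀ q ∈ T, q ∉ τ → 0 < Λ (lft vec f q)

lemma QF.nonneg_of (hτ : QF vec f T τ) : ∃ Λ : V × ℝ →ₗ[ℝ] ℝ, (∀ q ∈ τ, Λ (lft vec f q) = 0) ∧
    (∀ q ∈ T, 0 ≤ Λ (lft vec f q)) ∧ ∀ q ∈ T, q ∉ τ → 0 < Λ (lft vec f q) := by
  obtain ⟨_, _, Λ, h1, h2⟩ := hτ
  refine ⟨Λ, h1, fun q hq => ?_, h2⟩
  by_cases hqτ : q ∈ τ
  · exact (h1 q hqτ).ge
  · exact (h2 q hq hqτ).le

lemma finrank_W : Module.finrank ℝ (V × ℝ) = 5 := by
  have hfin : FiniteDimensional ℝ V := FiniteDimensional.of_finrank_pos (by rw [hV.out]; norm_num)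
  rw [Module.finrank_prod, hV.out, Module.finrank_self]

/-- at most two facets with given middle vertex -/
lemma no_three_facets {v w : P} (hvw : v ≠ w) {κ : V × ℝ →ₗ[ℝ] ℝ} (hκv : κ (lft vec f v) = 0)
    (hκw : κ (lft vec f w) = 0) (S : Fin 3 → Finset P) (a b : Fin 3 → P)
    (hS : ∀ i, QF vec f T (S i)) (hinj : Function.Injective S)
    (hv : ∀ i, v ∈ S i) (hw : ∀ i, w ∈ S i) (ha : ∀ i, a i ∈ S i) (hb : ∀ i, b i ∈ S i)
    (hκa : ∀ i, κ (lft vec f (a i)) < 0) (hκb : ∀ i, 0 < κ (lft vec f (b i))) : False := by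
  have hfin : FiniteDimensional ℝ V := FiniteDimensional.of_finrank_pos (by rw [hV.out]; norm_num)
  -- the facets are `{v, w, a, b}`
  have hab : ∀ i, a i ≠ b i := fun i h' => by
    have h1 := hκa i
    rw [h'] at h1
    exact absurd h1 (not_lt.2 (hκb i).le)
  have hav : ∀ i, a i ≠ v := fun i h' => by
    have h1 := hκa i; rw [h', hκv] at h1; exact lt_irrefl _ h1
  have haw : ∀ i, a i ≠ w := fun i h' => by
    have h1 := hκa i; rw [h', hκw] at h1; exact lt_irrefl _ h1
  have hbv : ∀ i, b i ≠ v := fun i h' => by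
    have h1 := hκb i; rw [h', hκv] at h1; exact lt_irrefl _ h1
  have hbw : ∀ i, b i ≠ w := fun i h' => by
    have h1 := hκb i; rw [h', hκw] at h1; exact lt_irrefl _ h1
  have hSeq : ∀ i, S i = {v, w, a i, b i} := by
    intro i
    symm
    apply Finset.eq_of_subset_of_card_le
    · intro x hx
      simp only [Finset.mem_insert, Finset.mem_singleton] at hx
      rcases hx with rfl | rfl | rfl | rfl
      · exact hv i
      · exact hw i
      · exact ha i
      · exact hb i
    · rw [(hS i).2.1.1, Finset.card_insert_of_notMem, Finset.card_insert_of_notMem,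
        Finset.card_pair (hab i)]
      · simp only [Finset.mem_insert, Finset.mem_singleton, not_or]
        exact ⟨(haw i).symm, (hbw i).symm⟩
      · simp only [Finset.mem_insert, Finset.mem_singleton, not_or]
        exact ⟨hvw, (hav i).symm, (hbv i).symm⟩
  choose Λ h0 h1 h2 using fun i => (hS i).nonneg_of
  let c : Fin 3 → V × ℝ := fun i =>
    κ (lft vec f (b i)) • lft vec f (a i) - κ (lft vec f (a i)) • lft vec f (b i)
  have hκc : ∀ i, κ (c i) = 0 := fun i => by
    simp only [c, map_sub, map_smul, smul_eq_mul]; ring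
  have hΛself : ∀ i, Λ i (c i) = 0 := fun i => by
    simp only [c, map_sub, map_smul, smul_eq_mul]
    rw [h0 i _ (ha i), h0 i _ (hb i)]; ring
  have hΛv : ∀ i, Λ i (lft vec f v) = 0 := fun i => h0 i _ (hv i)
  have hΛw : ∀ i, Λ i (lft vec f w) = 0 := fun i => h0 i _ (hw i)
  have hΛne : ∀ i j, i ≠ j → 0 < Λ i (c j) := by
    intro i j hij
    simp only [c, map_sub, map_smul, smul_eq_mul]
    have e1 := h1 i _ ((hS j).1 (ha j))
    have e2 := h1 i _ ((hS j).1 (hb j))
    have e3 := hκa j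
    have e4 := hκb j
    have hor : a j ∉ S i ∨ b j ∉ S i := by
      by_contra hcon
      push Not at hcon
      apply hij
      apply hinj
      symm
      apply Finset.eq_of_subset_of_card_le
      · rw [hSeq j]
        intro x hx
        simp only [Finset.mem_insert, Finset.mem_singleton] at hx
        rcases hx with rfl | rfl | rfl | rfl
        · exact hv i
        · exact hw i
        · exact hcon.1
        · exact hcon.2
      · rw [(hS i).2.1.1, (hS j).2.1.1]
    rcases hor with h' | h'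
    · have e5 := h2 i _ ((hS j).1 (ha j)) h'
      have := mul_pos e4 e5
      have := mul_nonneg (neg_pos.2 e3).le e2
      linarith
    · have e5 := h2 i _ ((hS j).1 (hb j)) h'
      have := mul_nonneg e4.le e1
      have := mul_pos (neg_pos.2 e3) e5
      linarith
  -- five independent vectors in the kernel
  let m : Fin 5 → LinearMap.ker κ := ![⟨c 0, hκc 0⟩, ⟨c 1, hκc 1⟩, ⟨c 2, hκc 2⟩,
    ⟨lft vec f v, hκv⟩, ⟨lft vec f w, hκw⟩]
  have hLI : LinearIndependent ℝ m := by
    rw [Fintype.linearIndependent_iff]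
    intro g hg
    have hg' := congrArg Subtype.val hg
    rw [Fin.sum_univ_five] at hg'
    have hg2 : g 0 • c 0 + g 1 • c 1 + g 2 • c 2 + g 3 • lft vec f v + g 4 • lft vec f w = 0 := hg'
    have k0 := congrArg (Λ 0) hg2
    have k1 := congrArg (Λ 1) hg2
    have k2 := congrArg (Λ 2) hg2
    simp only [map_add, map_smul, smul_eq_mul, map_zero, hΛself, hΛv, hΛw, mul_zero, add_zero,
      zero_add] at k0 k1 k2
    have p01 := hΛne 0 1 (by decide)
    have p02 := hΛne 0 2 (by decide)
    have p10 := hΛne 1 0 (by decide)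
    have p12 := hΛne 1 2 (by decide)
    have p20 := hΛne 2 0 (by decide)
    have p21 := hΛne 2 1 (by decide)
    have key : ∀ {x y z A B C D E F : ℝ}, 0 < A → 0 < B → 0 < C → 0 < D → 0 < E → 0 < F →
        y * A + z * B = 0 → x * C + z * D = 0 → x * E + y * F = 0 → x = 0 := by
      intro x y z A B C D E F hA hB hC hD hE hF e1 e2 e3
      rcases lt_trichotomy x 0 with hx | hx | hx
      · have hz : 0 < z := by
          by_contra hcon
          push Not at hcon
          have := mul_neg_of_neg_of_pos hx hC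
          have := mul_nonpos_of_nonpos_of_nonneg hcon hD.le
          linarith
        have hy : 0 < y := by
          by_contra hcon
          push Not at hcon
          have := mul_neg_of_neg_of_pos hx hE
          have := mul_nonpos_of_nonpos_of_nonneg hcon hF.le
          linarith
        have := mul_pos hy hA
        have := mul_pos hz hB
        linarith
      · exact hx
      · have hz : z < 0 := by
          by_contra hcon
          push Not at hcon
          have := mul_pos hx hC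
          have := mul_nonneg hcon hD.le
          linarith
        have hy : y < 0 := by
          by_contra hcon
          push Not at hcon
          have := mul_pos hx hE
          have := mul_nonneg hcon hF.le
          linarith
        have := mul_neg_of_neg_of_pos hy hA
        have := mul_neg_of_neg_of_pos hz hB
        linarith
    have g0 : g 0 = 0 := key p01 p02 p10 p12 p20 p21 k0 k1 k2
    rw [g0, zero_mul, zero_add] at k1 k2
    have g2 : g 2 = 0 := (mul_eq_zero.1 k1).resolve_right p12.ne'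
    have g1 : g 1 = 0 := (mul_eq_zero.1 k2).resolve_right p21.ne'
    rw [g0, g1, g2, zero_smul, zero_smul, zero_smul, zero_add, zero_add, zero_add] at hg2
    have hfst := congrArg Prod.fst hg2
    simp only [lft, Prod.smul_mk, Prod.mk_add_mk, Prod.fst_zero] at hfst
    have hLI2 := (hS 0).2.1.2 (fun q => if q = v then g 3 else if q = w then g 4 else 0) (by
      rw [← Finset.add_sum_erase _ _ (hv 0), ← Finset.add_sum_erase _ _
        (Finset.mem_erase.2 ⟨Ne.symm hvw, hw 0⟩), Finset.sum_eq_zero]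
      · simp only [if_true, if_neg (Ne.symm hvw), add_zero]
        exact hfst
      · intro q hq
        simp only [Finset.mem_erase] at hq
        rw [if_neg hq.2.1, if_neg hq.1, zero_smul])
    have g3 := hLI2 v (hv 0)
    have g4 := hLI2 w (hw 0)
    simp only [if_true] at g3
    simp only [if_neg (Ne.symm hvw), if_true] at g4
    intro i
    fin_cases i
    · exact g0
    · exact g1
    · exact g2
    · exact g3
    · exact g4
  have h5 := hLI.fintype_card_le_finrank
  have hne : κ ≠ 0 := fun h' => by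
    have := hκb 0
    rw [h', LinearMap.zero_apply] at this
    exact lt_irrefl _ this
  have hr := LinearMap.finrank_range_add_finrank_ker κ
  have hr1 : 0 < Module.finrank ℝ (LinearMap.range κ) := by
    rw [Module.finrank_pos_iff, Submodule.nontrivial_iff_ne_bot]
    intro h'
    exact hne (LinearMap.range_eq_bot.1 h')
  rw [finrank_W] at hr
  simp only [Fintype.card_fin] at h5
  omega

/-- counting the facets at a vertex -/
lemma count_at {v : P} (hvT : v ∈ T) (hT : 4 ≤ T.card) {u H : V × ℝ →ₗ[ℝ] ℝ}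
    (huv : u (lft vec f v) = 0) (hHv : H (lft vec f v) = 0)
    (hH : ∀ q ∈ T, q ≠ v → 0 < H (lft vec f q))
    (hinj : ∀ q ∈ T, ∀ q' ∈ T, q ≠ v → q' ≠ v → u (lft vec f q) / H (lft vec f q) =
      u (lft vec f q') / H (lft vec f q') → q = q')
    {F : Finset (Finset P)} (hF : ∀ τ ∈ F, QF vec f T τ ∧ v ∈ τ) :
    F.card ≤ 2 * (T.card - 3) := by
  classical
  set θ : P → ℝ := fun q => u (lft vec f q) / H (lft vec f q) with hθ
  have hmid : ∀ τ : Finset P, ∃ w, τ ∈ F → w ∈ τ ∧ w ≠ v ∧ (∃ a ∈ τ, a ≠ v ∧ θ a < θ w) ∧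
      ∃ b ∈ τ, b ≠ v ∧ θ w < θ b := by
    intro τ
    by_cases hτ : τ ∈ F
    · obtain ⟨hQ, hvτ⟩ := hF τ hτ
      have h3 : (τ.erase v).card = 3 := by rw [Finset.card_erase_of_mem hvτ, hQ.2.1.1]
      have hne : (τ.erase v).Nonempty := by rw [← Finset.card_pos, h3]; norm_num
      obtain ⟨a, ha, hamin⟩ := Finset.exists_min_image (τ.erase v) θ hne
      obtain ⟨b, hb, hbmax⟩ := Finset.exists_max_image (τ.erase v) θ hne
      obtain ⟨w, hw⟩ : (((τ.erase v).erase a).erase b).Nonempty := by
        rw [← Finset.card_pos]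
        have e1 := Finset.pred_card_le_card_erase (s := (τ.erase v).erase a) (a := b)
        have e2 := Finset.pred_card_le_card_erase (s := τ.erase v) (a := a)
        omega
      simp only [Finset.mem_erase] at hw ha hb
      refine ⟨w, fun _ => ⟨hw.2.2.2, hw.2.2.1, ⟨a, ha.2, ha.1, ?_⟩, b, hb.2, hb.1, ?_⟩⟩
      · refine lt_of_le_of_ne (hamin w (Finset.mem_erase.2 ⟨hw.2.2.1, hw.2.2.2⟩)) (fun h' => ?_)
        exact hw.2.1 (hinj a (hQ.1 ha.2) w (hQ.1 hw.2.2.2) ha.1 hw.2.2.1 h').symm
      · refine lt_of_le_of_ne (hbmax w (Finset.mem_erase.2 ⟨hw.2.2.1, hw.2.2.2⟩)) (fun h' => ?_)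
        exact hw.1 (hinj w (hQ.1 hw.2.2.2) b (hQ.1 hb.2) hw.2.2.1 hb.1 h')
    · exact ⟨v, fun h' => absurd h' hτ⟩
  choose mid hmid using hmid
  have hTe : (T.erase v).card = T.card - 1 := Finset.card_erase_of_mem hvT
  have hne : (T.erase v).Nonempty := by rw [← Finset.card_pos, hTe]; omega
  obtain ⟨lo, hlo, hlomin⟩ := Finset.exists_min_image (T.erase v) θ hne
  obtain ⟨hi, hhi, hhimax⟩ := Finset.exists_max_image (T.erase v) θ hne
  have himg : F.image mid ⊆ ((T.erase v).erase lo).erase hi := by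
    intro w hw
    obtain ⟨τ, hτ, rfl⟩ := Finset.mem_image.1 hw
    obtain ⟨hwτ, hwv, ⟨a, ha, hav, hlt1⟩, b, hb, hbv, hlt2⟩ := hmid τ hτ
    have hsub := (hF τ hτ).1.1
    simp only [Finset.mem_erase]
    refine ⟨fun h' => ?_, fun h' => ?_, hwv, hsub hwτ⟩
    · have := hhimax b (Finset.mem_erase.2 ⟨hbv, hsub hb⟩)
      rw [← h'] at this
      exact absurd hlt2 (not_lt.2 this)
    · have := hlomin a (Finset.mem_erase.2 ⟨hav, hsub ha⟩)
      rw [← h'] at this
      exact absurd hlt1 (not_lt.2 this)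
  have hcard : (F.image mid).card ≤ T.card - 3 := by
    refine (Finset.card_le_card himg).trans ?_
    by_cases hlh : hi = lo
    · exfalso
      obtain ⟨x, hx⟩ : ((T.erase v).erase lo).Nonempty := by
        rw [← Finset.card_pos, Finset.card_erase_of_mem hlo, hTe]; omega
      simp only [Finset.mem_erase] at hx hlo
      have e1 := hlomin x (Finset.mem_erase.2 ⟨hx.2.1, hx.2.2⟩)
      have e2 := hhimax x (Finset.mem_erase.2 ⟨hx.2.1, hx.2.2⟩)
      rw [hlh] at e2
      exact hx.1 (hinj x hx.2.2 lo hlo.2 hx.2.1 hlo.1 (le_antisymm e2 e1))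
    · rw [Finset.card_erase_of_mem (Finset.mem_erase.2 ⟨hlh, hhi⟩), Finset.card_erase_of_mem hlo, hTe]
      omega
  have hfib : ∀ w ∈ F.image mid, (F.filter (fun τ => mid τ = w)).card ≤ 2 := by
    intro w hw
    by_contra hcon
    push Not at hcon
    obtain ⟨τ1, τ2, τ3, h1, h2, h3, h12, h13, h23⟩ := Finset.two_lt_card_iff.1 hcon
    rw [Finset.mem_filter] at h1 h2 h3
    have m1 := hmid τ1 h1.1
    have m2 := hmid τ2 h2.1
    have m3 := hmid τ3 h3.1
    rw [h1.2] at m1
    rw [h2.2] at m2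
    rw [h3.2] at m3
    obtain ⟨hw1, hwv, ⟨a1, ha1, hav1, hlt1⟩, b1, hb1, hbv1, hgt1⟩ := m1
    obtain ⟨hw2, _, ⟨a2, ha2, hav2, hlt2⟩, b2, hb2, hbv2, hgt2⟩ := m2
    obtain ⟨hw3, _, ⟨a3, ha3, hav3, hlt3⟩, b3, hb3, hbv3, hgt3⟩ := m3
    have hwT := (hF τ1 h1.1).1.1 hw1
    have hHw := hH w hwT hwv
    set κ := u - θ w • H with hκ
    have hκq : ∀ q ∈ T, q ≠ v → κ (lft vec f q) = (θ q - θ w) * H (lft vec f q) := by
      intro q hq hqv
      have := hH q hq hqv
      simp only [hκ, LinearMap.sub_apply, LinearMap.smul_apply, smul_eq_mul, hθ, sub_mul]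
      rw [div_mul_cancel₀ _ this.ne']
    have hneg : ∀ q ∈ T, q ≠ v → θ q < θ w → κ (lft vec f q) < 0 := fun q hq hqv hlt => by
      rw [hκq q hq hqv]
      exact mul_neg_of_neg_of_pos (sub_neg.2 hlt) (hH q hq hqv)
    have hpos : ∀ q ∈ T, q ≠ v → θ w < θ q → 0 < κ (lft vec f q) := fun q hq hqv hlt => by
      rw [hκq q hq hqv]
      exact mul_pos (sub_pos.2 hlt) (hH q hq hqv)
    refine no_three_facets (vec := vec) (f := f) (T := T) (v := v) (w := w) (Ne.symm hwv) (κ := κ) ?_ ?_
      ![τ1, τ2, τ3] ![a1, a2, a3] ![b1, b2, b3] ?_ ?_ ?_ ?_ ?_ ?_ ?_ ?_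
    · simp only [hκ, LinearMap.sub_apply, LinearMap.smul_apply, huv, hHv, smul_zero, sub_zero]
    · rw [hκq w hwT hwv, sub_self, zero_mul]
    · intro i; fin_cases i
      · exact (hF τ1 h1.1).1
      · exact (hF τ2 h2.1).1
      · exact (hF τ3 h3.1).1
    · intro i j hij
      fin_cases i <;> fin_cases j
      · rfl
      · exact absurd hij h12
      · exact absurd hij h13
      · exact absurd hij.symm h12
      · rfl
      · exact absurd hij h23
      · exact absurd hij.symm h13
      · exact absurd hij.symm h23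
      · rfl
    · intro i; fin_cases i
      · exact (hF τ1 h1.1).2
      · exact (hF τ2 h2.1).2
      · exact (hF τ3 h3.1).2
    · intro i; fin_cases i
      · exact hw1
      · exact hw2
      · exact hw3
    · intro i; fin_cases i
      · exact ha1
      · exact ha2
      · exact ha3
    · intro i; fin_cases i
      · exact hb1
      · exact hb2
      · exact hb3
    · intro i; fin_cases i
      · exact hneg a1 ((hF τ1 h1.1).1.1 ha1) hav1 hlt1
      · exact hneg a2 ((hF τ2 h2.1).1.1 ha2) hav2 hlt2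
      · exact hneg a3 ((hF τ3 h3.1).1.1 ha3) hav3 hlt3
    · intro i; fin_cases i
      · exact hpos b1 ((hF τ1 h1.1).1.1 hb1) hbv1 hgt1
      · exact hpos b2 ((hF τ2 h2.1).1.1 hb2) hbv2 hgt2
      · exact hpos b3 ((hF τ3 h3.1).1.1 hb3) hbv3 hgt3
  have := Finset.card_le_mul_card_image_of_maps_to (f := mid) (s := F) (t := F.image mid)
    (fun τ hτ => Finset.mem_image_of_mem _ hτ) 2 hfib
  calc F.card ≤ 2 * (F.image mid).card := this
    _ ≤ 2 * (T.card - 3) := Nat.mul_le_mul_left 2 hcard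

/-- the upper bound for the number of facets -/
lemma count_all (hT : 4 ≤ T.card)
    (hex : ∀ v ∈ T, ∃ u H : V × ℝ →ₗ[ℝ] ℝ, u (lft vec f v) = 0 ∧ H (lft vec f v) = 0 ∧
      (∀ q ∈ T, q ≠ v → 0 < H (lft vec f q)) ∧
      ∀ q ∈ T, ∀ q' ∈ T, q ≠ v → q' ≠ v → u (lft vec f q) / H (lft vec f q) =
        u (lft vec f q') / H (lft vec f q') → q = q')
    {F : Finset (Finset P)} (hF : ∀ τ ∈ F, QF vec f T τ) :
    2 * F.card ≤ T.card * (T.card - 3) := by
  classical
  have h1 := Finset.sum_card_bipartiteAbove_eq_sum_card_bipartiteBelow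
    (s := T) (t := F) (fun v τ => v ∈ τ)
  have h2 : ∀ τ ∈ F, (Finset.bipartiteBelow (fun v τ => v ∈ τ) T τ).card = 4 := by
    intro τ hτ
    have : Finset.bipartiteBelow (fun v τ => v ∈ τ) T τ = τ := by
      ext v
      rw [Finset.mem_bipartiteBelow]
      exact ⟨fun h' => h'.2, fun h' => ⟨(hF τ hτ).1 h', h'⟩⟩
    rw [this, (hF τ hτ).2.1.1]
  have h3 : ∀ v ∈ T, (Finset.bipartiteAbove (fun v τ => v ∈ τ) F v).card ≤ 2 * (T.card - 3) := by
    intro v hv
    obtain ⟨u, H, e1, e2, e3, e4⟩ := hex v hv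
    refine count_at hv hT e1 e2 e3 e4 (fun τ hτ => ?_)
    rw [Finset.mem_bipartiteAbove] at hτ
    exact ⟨hF τ hτ.1, hτ.2⟩
  rw [Finset.sum_congr rfl h2, Finset.sum_const, smul_eq_mul] at h1
  have h4 := Finset.sum_le_sum h3
  rw [h1, Finset.sum_const, smul_eq_mul] at h4
  have h5 : T.card * (2 * (T.card - 3)) = 2 * (T.card * (T.card - 3)) := by ring
  omega

lemma Cell.qf_near (hτ : Cell vec f T τ) : QF vec f T τ := by
  refine ⟨hτ.sub, hτ.isB, LinearMap.snd ℝ V ℝ - (Af vec f τ).comp (LinearMap.fst ℝ V ℝ), ?_, ?_⟩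
  · intro q hq
    simp only [lft, LinearMap.sub_apply, LinearMap.snd_apply, LinearMap.comp_apply,
      LinearMap.fst_apply]
    rw [Af_vec hτ.isB f hq, sub_self]
  · intro q hq hq'
    simp only [lft, LinearMap.sub_apply, LinearMap.snd_apply, LinearMap.comp_apply,
      LinearMap.fst_apply]
    exact sub_pos.2 (hτ.lt hq hq')

lemma Cell.qf_far (hτ : Cell vec (fun q => -f q) T τ) : QF vec f T τ := by
  refine ⟨hτ.sub, hτ.isB,
    -LinearMap.snd ℝ V ℝ - (Af vec (fun q => -f q) τ).comp (LinearMap.fst ℝ V ℝ), ?_, ?_⟩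
  · intro q hq
    simp only [lft, LinearMap.sub_apply, LinearMap.snd_apply, LinearMap.comp_apply,
      LinearMap.fst_apply, LinearMap.neg_apply]
    rw [Af_vec hτ.isB _ hq, sub_self]
  · intro q hq hq'
    simp only [lft, LinearMap.sub_apply, LinearMap.snd_apply, LinearMap.comp_apply,
      LinearMap.fst_apply, LinearMap.neg_apply]
    exact sub_pos.2 (hτ.lt hq hq')

/-- near and far cells together -/
theorem near_far (hT : 5 ≤ T.card)
    (hex : ∀ v ∈ T, ∃ u H : V × ℝ →ₗ[ℝ] ℝ, u (lft vec f v) = 0 ∧ H (lft vec f v) = 0 ∧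
      (∀ q ∈ T, q ≠ v → 0 < H (lft vec f q)) ∧
      ∀ q ∈ T, ∀ q' ∈ T, q ≠ v → q' ≠ v → u (lft vec f q) / H (lft vec f q) =
        u (lft vec f q') / H (lft vec f q') → q = q') :
    2 * ((cells vec f T).card + (cells vec (fun q => -f q) T).card) ≤ T.card * (T.card - 3) := by
  classical
  have hdis : Disjoint (cells vec f T) (cells vec (fun q => -f q) T) := by
    rw [Finset.disjoint_left]
    intro τ h1 h2
    rw [mem_cells] at h1 h2
    obtain ⟨q, hq, hqτ⟩ : ∃ q ∈ T, q ∉ τ := by
      by_contra hcon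
      push Not at hcon
      have := Finset.card_le_card (show T ⊆ τ from hcon)
      rw [h1.isB.1] at this
      omega
    have e1 := h1.lt hq hqτ
    have e2 := h2.lt hq hqτ
    have e3 : Af vec (fun q => -f q) τ = -Af vec f τ := by
      symm
      apply Af_eq h1.isB
      intro a ha
      rw [LinearMap.neg_apply, Af_vec h1.isB f ha]
    rw [e3, LinearMap.neg_apply] at e2
    linarith
  rw [← Finset.card_union_of_disjoint hdis]
  refine count_all (by omega) hex fun τ hτ => ?_
  rcases Finset.mem_union.1 hτ with h1 | h1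
  · exact (mem_cells.1 h1).qf_near
  · exact (mem_cells.1 h1).qf_far

end Pool.Agent.Helper486.Del
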